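import Pool.Agent.H369R2.TD.Defs

/-! Task T8 (helper265): from the binomial sum to the Poisson bound. -/

set_option autoImplicit false

open Finset Filter

namespace Pool.Agent.H369R2.TD

theorem detF_pos {d q : ℕ} (hq : 2 ≤ q) : 0 < detF d q := by
  have hq' : (2 : ℝ) ≤ q := by exact_mod_cast hq
  unfold detF
  apply pow_pos
  apply div_pos <;> linarith

theorem detA_nonneg {d q : ℕ} {δ : ℕ → ℝ} (hq : 2 ≤ q) (h0 : ∀ m, 0 ≤ δ m) :
    0 ≤ detA d q δ := by
  have hq' : (2 : ℝ) ≤ q := by exact_mod_cast hq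
  unfold detA
  refine Finset.sum_nonneg fun m _ => ?_
  have h1 : 0 ≤ (q : ℝ) - 1 := by linarith
  have h2 := h0 m
  positivity

theorem detF_le {d q : ℕ} {y : ℝ} (hq : 2 ≤ q) (hy : y ≤ (d : ℝ) / q) :
    detF d q ≤ Real.exp (-y) := by
  have hq' : (2 : ℝ) ≤ q := by exact_mod_cast hq
  have hq0 : (0 : ℝ) < q := by linarith
  unfold detF
  have h1 : ((q : ℝ) - 1) / q ≤ Real.exp (-(1 / q)) := by
    have h2 := Real.one_sub_le_exp_neg (1 / (q : ℝ))
    have h3 : ((q : ℝ) - 1) / q = 1 - 1 / q := by field_simp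
    rw [h3]; exact h2
  have h4 : 0 ≤ ((q : ℝ) - 1) / q := by
    apply div_nonneg <;> linarith
  calc (((q : ℝ) - 1) / q) ^ d ≤ (Real.exp (-(1 / q))) ^ d := pow_le_pow_left₀ h4 h1 d
    _ = Real.exp (-((d : ℝ) / q)) := by
        rw [← Real.exp_nat_mul]
        congr 1
        ring
    _ ≤ Real.exp (-y) := Real.exp_le_exp.2 (by linarith)

/-- the binomial weight is at most the Poisson weight -/
theorem bin_weight {d q : ℕ} {y x : ℝ} (hq : 2 ≤ q) (hy : y ≤ (d : ℝ) / q)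
    (hx : ((d : ℝ) + 1) / q * Real.exp (1 / q) ≤ x) {m : ℕ} (hm : m < d) :
    ((d + 1).choose (m + 1) : ℝ) * ((q : ℝ) - 1) ^ (d - m) / (q : ℝ) ^ (d + 1) ≤
      Real.exp (-y) * (x ^ (m + 1) / ((m + 1).factorial : ℝ)) := by
  have hq' : (2 : ℝ) ≤ q := by exact_mod_cast hq
  have hq0 : (0 : ℝ) < q := by linarith
  have hf : (0 : ℝ) < ((m + 1).factorial : ℝ) := by exact_mod_cast Nat.factorial_pos _
  have h1 : ((d + 1).choose (m + 1) : ℝ) ≤ ((d : ℝ) + 1) ^ (m + 1) / ((m + 1).factorial : ℝ) := by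
    have := Nat.choose_le_pow_div (α := ℝ) (m + 1) (d + 1)
    push_cast at this
    exact this
  have h2 : ((q : ℝ) - 1) ^ (d - m) / (q : ℝ) ^ (d + 1) =
      (((q : ℝ) - 1) / q) ^ (d - m) * (1 / (q : ℝ) ^ (m + 1)) := by
    have h3 : d + 1 = (d - m) + (m + 1) := by omega
    rw [h3, pow_add, div_pow]
    have : (d - m) + (m + 1) - m = d - m + 1 := by omega
    field_simp
  have h4 : (((q : ℝ) - 1) / q) ^ (d - m) ≤
      Real.exp (-(((d : ℝ) + 1) / q)) * Real.exp (1 / q) ^ (m + 1) := by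
    have h5 : ((q : ℝ) - 1) / q ≤ Real.exp (-(1 / q)) := by
      have h6 := Real.one_sub_le_exp_neg (1 / (q : ℝ))
      have h3 : ((q : ℝ) - 1) / q = 1 - 1 / q := by field_simp
      rw [h3]; exact h6
    have h6 : 0 ≤ ((q : ℝ) - 1) / q := by
      apply div_nonneg <;> linarith
    refine (pow_le_pow_left₀ h6 h5 _).trans (le_of_eq ?_)
    rw [← Real.exp_nat_mul, ← Real.exp_nat_mul, ← Real.exp_add]
    congr 1
    rw [Nat.cast_sub hm.le]
    push_cast
    ring
  have hA : 0 ≤ (((q : ℝ) - 1) / q) ^ (d - m) := by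
    apply pow_nonneg
    apply div_nonneg <;> linarith
  have h7 : 0 ≤ ((d : ℝ) + 1) / q * Real.exp (1 / q) := by positivity
  have h8 : (((d : ℝ) + 1) / q * Real.exp (1 / q)) ^ (m + 1) ≤ x ^ (m + 1) :=
    pow_le_pow_left₀ h7 hx _
  have h9 : Real.exp (-(((d : ℝ) + 1) / q)) ≤ Real.exp (-y) := by
    apply Real.exp_le_exp.2
    have : (d : ℝ) / q ≤ ((d : ℝ) + 1) / q := by
      apply div_le_div_of_nonneg_right _ hq0.le
      linarith
    linarith
  calc ((d + 1).choose (m + 1) : ℝ) * ((q : ℝ) - 1) ^ (d - m) / (q : ℝ) ^ (d + 1)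
      = ((d + 1).choose (m + 1) : ℝ) * ((((q : ℝ) - 1) / q) ^ (d - m) * (1 / (q : ℝ) ^ (m + 1))) := by
        rw [← h2]; ring
    _ ≤ (((d : ℝ) + 1) ^ (m + 1) / ((m + 1).factorial : ℝ)) *
        ((Real.exp (-(((d : ℝ) + 1) / q)) * Real.exp (1 / q) ^ (m + 1)) *
          (1 / (q : ℝ) ^ (m + 1))) := by
        apply mul_le_mul h1 _ (by positivity) (by positivity)
        exact mul_le_mul_of_nonneg_right h4 (by positivity)
    _ = Real.exp (-(((d : ℝ) + 1) / q)) *
        ((((d : ℝ) + 1) / q * Real.exp (1 / q)) ^ (m + 1) / ((m + 1).factorial : ℝ)) := by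
        rw [mul_pow, div_pow]
        ring
    _ ≤ Real.exp (-y) * (x ^ (m + 1) / ((m + 1).factorial : ℝ)) := by
        apply mul_le_mul h9 _ (by positivity) (by positivity)
        exact div_le_div_of_nonneg_right h8 hf.le

theorem psi_le {J d : ℕ} {w c : ℕ → ℝ} {K x : ℝ} (hx : 0 ≤ x) (h0 : ∀ m, 0 ≤ w m)
    (hc0 : c 0 = 0) (hc : ∀ m, m + 1 < J → w m ≤ c (m + 1)) (hK : ∀ m, w m ≤ K) (hJ : 1 ≤ J) :
    ∑ m ∈ range d, w m * (x ^ (m + 1) / ((m + 1).factorial : ℝ)) ≤ Psi J c K x := by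
  have hK0 : 0 ≤ K := (h0 0).trans (hK 0)
  set p : ℕ → ℝ := fun j => x ^ j / (j.factorial : ℝ) with hp
  have hp0 : ∀ j, 0 ≤ p j := fun j => by
    simp only [hp]; positivity
  set M := max J (d + 1) with hM
  have h1 : ∑ j ∈ range M, p j ≤ Real.exp x := Real.sum_le_exp_of_nonneg hx M
  set g : ℕ → ℝ := fun j => if j < J then c j else K with hg
  have h2 : ∑ j ∈ range M, g j * p j ≤ Psi J c K x := by
    unfold Psi
    have h3 : ∑ j ∈ range M, g j * p j =
        ∑ j ∈ range J, (c j - K) * p j + K * ∑ j ∈ range M, p j := by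
      have h4 : ∑ j ∈ range J, (c j - K) * p j = ∑ j ∈ range M, (g j - K) * p j := by
        have h5 : range J ⊆ range M := Finset.range_subset_range.2 (le_max_left _ _)
        rw [← Finset.sum_subset h5]
        · refine Finset.sum_congr rfl fun j hj => ?_
          rw [Finset.mem_range] at hj
          simp [hg, hj]
        · intro j _ hj
          rw [Finset.mem_range] at hj
          simp [hg, hj]
      rw [h4, Finset.mul_sum, ← Finset.sum_add_distrib]
      refine Finset.sum_congr rfl fun j _ => ?_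
      ring
    rw [h3]
    have := mul_le_mul_of_nonneg_left h1 hK0
    linarith
  refine le_trans ?_ h2
  have hg1 : ∀ m, w m ≤ g (m + 1) := by
    intro m
    simp only [hg]
    split_ifs with h
    · exact hc m h
    · exact hK m
  have hg0 : g 0 = 0 := by
    simp only [hg]
    rw [if_pos (by omega), hc0]
  have hgn : ∀ j, 0 ≤ g j := by
    intro j
    rcases j with _ | j
    · rw [hg0]
    · exact (h0 j).trans (hg1 j)
  calc ∑ m ∈ range d, w m * (x ^ (m + 1) / ((m + 1).factorial : ℝ))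
      ≤ ∑ m ∈ range d, g (m + 1) * p (m + 1) :=
        Finset.sum_le_sum fun m _ => mul_le_mul_of_nonneg_right (hg1 m) (hp0 (m + 1))
    _ = ∑ j ∈ range (d + 1), g j * p j := by
        rw [Finset.sum_range_succ' (fun j => g j * p j), hg0]
        simp
    _ ≤ ∑ j ∈ range M, g j * p j := by
        apply Finset.sum_le_sum_of_subset_of_nonneg
        · exact Finset.range_subset_range.2 (le_max_right _ _)
        · intro j _ _
          exact mul_nonneg (hgn j) (hp0 j)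

theorem detA_le {d q J : ℕ} {δ c : ℕ → ℝ} {K y x : ℝ} (hq : 2 ≤ q) (h0 : ∀ m, 0 ≤ δ m)
    (hc0 : c 0 = 0) (hc : ∀ m, m + 1 < J → ((m : ℝ) + 1) * δ m ≤ c (m + 1))
    (hK : ∀ m : ℕ, ((m : ℝ) + 1) * δ m ≤ K) (hy : y ≤ (d : ℝ) / q) (hJ : 1 ≤ J)
    (hx : ((d : ℝ) + 1) / q * Real.exp (1 / q) ≤ x) :
    ((d : ℝ) + 1) * detA d q δ ≤
      (q : ℝ) / ((q : ℝ) - 1) * (Real.exp (-y) * Psi J c K x) := by
  have hq' : (2 : ℝ) ≤ q := by exact_mod_cast hq
  have hq0 : (0 : ℝ) < q := by linarith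
  have hq1 : (0 : ℝ) < (q : ℝ) - 1 := by linarith
  have hx0 : 0 ≤ x := le_trans (by positivity) hx
  unfold detA
  have hterm : ∀ m ∈ range d, ((d : ℝ) + 1) *
      ((d.choose m : ℝ) * ((q : ℝ) - 1) ^ (d - m - 1) / (q : ℝ) ^ d * δ m) ≤
      (q : ℝ) / ((q : ℝ) - 1) * (Real.exp (-y) *
        ((((m : ℝ) + 1) * δ m) * (x ^ (m + 1) / ((m + 1).factorial : ℝ)))) := by
    intro m hm
    rw [Finset.mem_range] at hm
    have e1 : ((d : ℝ) + 1) * (d.choose m : ℝ) = ((d + 1).choose (m + 1) : ℝ) * ((m : ℝ) + 1) := by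
      exact_mod_cast Nat.add_one_mul_choose_eq d m
    have e2 : ((q : ℝ) - 1) ^ (d - m) = ((q : ℝ) - 1) ^ (d - m - 1) * ((q : ℝ) - 1) := by
      rw [← pow_succ]
      congr 1
      omega
    have e3 : ((d : ℝ) + 1) *
        ((d.choose m : ℝ) * ((q : ℝ) - 1) ^ (d - m - 1) / (q : ℝ) ^ d * δ m) =
        (q : ℝ) / ((q : ℝ) - 1) *
          ((((d + 1).choose (m + 1) : ℝ) * ((q : ℝ) - 1) ^ (d - m) / (q : ℝ) ^ (d + 1)) *
            (((m : ℝ) + 1) * δ m)) := by
      calc ((d : ℝ) + 1) *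
          ((d.choose m : ℝ) * ((q : ℝ) - 1) ^ (d - m - 1) / (q : ℝ) ^ d * δ m)
          = (((d : ℝ) + 1) * (d.choose m : ℝ)) * ((q : ℝ) - 1) ^ (d - m - 1) / (q : ℝ) ^ d * δ m := by
            ring
        _ = (((d + 1).choose (m + 1) : ℝ) * ((m : ℝ) + 1)) * ((q : ℝ) - 1) ^ (d - m - 1) /
            (q : ℝ) ^ d * δ m := by rw [e1]
        _ = _ := by
            rw [e2, pow_succ]
            field_simp
    rw [e3]
    apply mul_le_mul_of_nonneg_left _ (by positivity)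
    have hw : 0 ≤ ((m : ℝ) + 1) * δ m := mul_nonneg (by positivity) (h0 m)
    calc _ ≤ (Real.exp (-y) * (x ^ (m + 1) / ((m + 1).factorial : ℝ))) * (((m : ℝ) + 1) * δ m) :=
          mul_le_mul_of_nonneg_right (bin_weight hq hy hx hm) hw
      _ = _ := by ring
  rw [Finset.mul_sum]
  refine (Finset.sum_le_sum hterm).trans ?_
  rw [← Finset.mul_sum, ← Finset.mul_sum]
  apply mul_le_mul_of_nonneg_left _ (by positivity)
  apply mul_le_mul_of_nonneg_left _ (Real.exp_pos _).le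
  exact psi_le hx0 (fun m => mul_nonneg (by positivity) (h0 m)) hc0 hc hK hJ

end Pool.Agent.H369R2.TD
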