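import Pool.Agent.H369R2.TD.Defs

set_option autoImplicit false

/-! Task T3a: counting lemmas for the determinant code. -/

open Finset

namespace Pool.Agent.H369R2.TD

variable {F : Type} [Field F] [Fintype F] [DecidableEq F]

/-- a fixed nonzero `α` is a dependency with probability `q^{-d}` -/
theorem dep_count {n d : ℕ} (α : Fin n → F) (hα : α ≠ 0) :
    ((univ.filter fun ξ : Fin n → Fin d → F => ∑ v, α v • ξ v = 0).card : ℝ)
        * (Fintype.card F : ℝ) ^ d
      = (Fintype.card (Fin n → Fin d → F) : ℝ) := by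
  classical
  obtain ⟨v₀, hv₀⟩ : ∃ v, α v ≠ 0 := by
    by_contra h
    push Not at h
    exact hα (funext h)
  let φ : (Fin n → Fin d → F) →ₗ[F] (Fin d → F) :=
    { toFun := fun ξ => ∑ v, α v • ξ v
      map_add' := by
        intro x y
        simp only [Pi.add_apply, smul_add, Finset.sum_add_distrib]
      map_smul' := by
        intro c x
        simp only [Pi.smul_apply, RingHom.id_apply, Finset.smul_sum]
        exact Finset.sum_congr rfl fun v _ => smul_comm _ _ _ }
  have hφ : ∀ ξ, φ ξ = ∑ v, α v • ξ v := fun ξ => rfl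
  have hsurj : Function.Surjective φ := by
    intro w
    refine ⟨fun v => if v = v₀ then (α v₀)⁻¹ • w else 0, ?_⟩
    rw [hφ, Finset.sum_eq_single v₀]
    · simp [smul_smul, mul_inv_cancel₀ hv₀]
    · intro b _ hb
      simp [hb]
    · intro h
      exact absurd (Finset.mem_univ _) h
  have h1 : Nat.card (Fin n → Fin d → F) =
      Nat.card (LinearMap.ker φ) * Nat.card ((Fin n → Fin d → F) ⧸ LinearMap.ker φ) :=
    Submodule.card_eq_card_quotient_mul_card _
  have h2 : Nat.card ((Fin n → Fin d → F) ⧸ LinearMap.ker φ) = Nat.card (Fin d → F) :=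
    Nat.card_congr (LinearMap.quotKerEquivOfSurjective φ hsurj).toEquiv
  have h3 : Nat.card (LinearMap.ker φ) =
      (univ.filter fun ξ : Fin n → Fin d → F => ∑ v, α v • ξ v = 0).card := by
    rw [Nat.card_eq_fintype_card, Fintype.card_subtype]
    congr 1
    ext ξ
    simp only [Finset.mem_filter, Finset.mem_univ, true_and, LinearMap.mem_ker, hφ]
  have h4 : Nat.card (Fin d → F) = Fintype.card F ^ d := by
    rw [Nat.card_eq_fintype_card, Fintype.card_fun, Fintype.card_fin]
  rw [h2, h3, h4, Nat.card_eq_fintype_card] at h1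
  rw [h1]
  push_cast
  ring

omit [Fintype F] in
theorem supp_aux {n : ℕ} {e : Finset (Fin n)} {α : Fin n → F} (h : ∀ v, v ∉ e → α v = 0)
    (Z : Finset (Fin n)) (hZ : (e.filter fun v => α v = 0) = Z) (v : Fin n) :
    v ∈ e \ Z ↔ α v ≠ 0 := by
  subst hZ
  rw [Finset.mem_sdiff, Finset.mem_filter]
  constructor
  · rintro ⟨h1, h2⟩ h3
    exact h2 ⟨h1, h3⟩
  · intro h1
    refine ⟨?_, fun h2 => h1 h2.2⟩
    by_contra h3
    exact h1 (h v h3)

/-- the number of vectors supported in `e` with exactly `m` zeros in `e` -/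
theorem supp_count {n m : ℕ} (e : Finset (Fin n)) :
    (univ.filter fun α : Fin n → F => (∀ v, v ∉ e → α v = 0) ∧
        (e.filter fun v => α v = 0).card = m).card
      = e.card.choose m * (Fintype.card F - 1) ^ (e.card - m) := by
  classical
  have h1 : (univ.filter fun α : Fin n → F => (∀ v, v ∉ e → α v = 0) ∧
        (e.filter fun v => α v = 0).card = m) =
      (e.powersetCard m).biUnion fun Z =>
        Fintype.piFinset fun v => if v ∈ e \ Z then univ.filter (fun x : F => x ≠ 0) else {0} := by
    ext α
    rw [Finset.mem_filter, Finset.mem_biUnion]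
    constructor
    · rintro ⟨-, h2, h3⟩
      refine ⟨e.filter fun v => α v = 0, ?_, ?_⟩
      · rw [Finset.mem_powersetCard]
        exact ⟨Finset.filter_subset _ _, h3⟩
      · rw [Fintype.mem_piFinset]
        intro v
        have h4 := supp_aux h2 _ rfl v
        by_cases h5 : v ∈ e \ (e.filter fun v => α v = 0)
        · rw [if_pos h5, Finset.mem_filter]
          exact ⟨Finset.mem_univ _, h4.1 h5⟩
        · rw [if_neg h5, Finset.mem_singleton]
          by_contra h6
          exact h5 (h4.2 h6)
    · rintro ⟨Z, hZ, h2⟩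
      rw [Finset.mem_powersetCard] at hZ
      rw [Fintype.mem_piFinset] at h2
      have h3 : ∀ v, v ∈ e \ Z ↔ α v ≠ 0 := by
        intro v
        have h4 := h2 v
        by_cases h5 : v ∈ e \ Z
        · rw [if_pos h5, Finset.mem_filter] at h4
          exact ⟨fun _ => h4.2, fun _ => h5⟩
        · rw [if_neg h5, Finset.mem_singleton] at h4
          exact ⟨fun h => absurd h h5, fun h => absurd h4 h⟩
      refine ⟨Finset.mem_univ _, ?_, ?_⟩
      · intro v hv
        by_contra h4
        exact hv (Finset.mem_sdiff.1 ((h3 v).2 h4)).1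
      · rw [← hZ.2]
        congr 1
        ext v
        rw [Finset.mem_filter]
        constructor
        · rintro ⟨h4, h5⟩
          by_contra h6
          exact (h3 v).1 (Finset.mem_sdiff.2 ⟨h4, h6⟩) h5
        · intro h4
          refine ⟨hZ.1 h4, ?_⟩
          by_contra h5
          exact (Finset.mem_sdiff.1 ((h3 v).2 h5)).2 h4
  rw [h1, Finset.card_biUnion]
  · have h2 : ∀ Z ∈ e.powersetCard m, (Fintype.piFinset fun v : Fin n =>
        if v ∈ e \ Z then univ.filter (fun x : F => x ≠ 0) else {0}).card =
        (Fintype.card F - 1) ^ (e.card - m) := by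
      intro Z hZ
      rw [Finset.mem_powersetCard] at hZ
      rw [Fintype.card_piFinset]
      have h3 : ∀ v : Fin n, (if v ∈ e \ Z then univ.filter (fun x : F => x ≠ 0)
          else ({0} : Finset F)).card = if v ∈ e \ Z then Fintype.card F - 1 else 1 := by
        intro v
        split_ifs
        · rw [Finset.filter_ne', Finset.card_erase_of_mem (Finset.mem_univ _), Finset.card_univ]
        · rw [Finset.card_singleton]
      rw [Finset.prod_congr rfl fun v _ => h3 v, Finset.prod_ite, Finset.prod_const,
        Finset.prod_const_one, mul_one]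
      congr 1
      rw [Finset.filter_mem_eq_inter, Finset.univ_inter, Finset.card_sdiff_of_subset hZ.1, hZ.2]
    rw [Finset.sum_congr rfl h2, Finset.sum_const, Finset.card_powersetCard, smul_eq_mul]
  · intro Z hZ Z' hZ' hne
    rw [Finset.mem_coe, Finset.mem_powersetCard] at hZ hZ'
    rw [Function.onFun, Finset.disjoint_left]
    intro α h2 h3
    apply hne
    rw [Fintype.mem_piFinset] at h2 h3
    have h4 : ∀ (W : Finset (Fin n)), (∀ v, α v ∈ if v ∈ e \ W then
        univ.filter (fun x : F => x ≠ 0) else ({0} : Finset F)) →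
        ∀ v, v ∈ e \ W ↔ α v ≠ 0 := by
      intro W h v
      have h4 := h v
      by_cases h5 : v ∈ e \ W
      · rw [if_pos h5, Finset.mem_filter] at h4
        exact ⟨fun _ => h4.2, fun _ => h5⟩
      · rw [if_neg h5, Finset.mem_singleton] at h4
        exact ⟨fun h => absurd h h5, fun h => absurd h4 h⟩
    have h5 : e \ Z = e \ Z' := by
      ext v
      rw [h4 Z h2 v, h4 Z' h3 v]
    calc Z = e \ (e \ Z) := (Finset.sdiff_sdiff_eq_self hZ.1).symm
      _ = e \ (e \ Z') := by rw [h5]
      _ = Z' := Finset.sdiff_sdiff_eq_self hZ'.1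

omit [Fintype F] [DecidableEq F] in
/-- `d + 1` vectors of dimension `d` are dependent -/
theorem exists_dep {n d : ℕ} (ξ : Fin n → Fin d → F) (S : Finset (Fin n)) (hS : S.card = d + 1) :
    ∃ α : Fin n → F, α ≠ 0 ∧ (∀ v, v ∉ S → α v = 0) ∧ ∑ v, α v • ξ v = 0 := by
  classical
  have h1 : ¬ LinearIndependent F (fun u : S => ξ u) := by
    intro h
    have := h.fintype_card_le_finrank
    rw [Fintype.card_coe, hS, Module.finrank_fin_fun] at this
    omega
  rw [Fintype.not_linearIndependent_iff] at h1
  obtain ⟨g, hg, i, hi⟩ := h1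
  refine ⟨fun v => if h : v ∈ S then g ⟨v, h⟩ else 0, ?_, ?_, ?_⟩
  · intro h0
    have := congrFun h0 i
    simp only [Pi.zero_apply] at this
    rw [dif_pos i.2] at this
    exact hi this
  · intro v hv
    simp [hv]
  · rw [← hg]
    have e1 : ∑ v, (if h : v ∈ S then g ⟨v, h⟩ else 0) • ξ v =
        ∑ v ∈ S, (if h : v ∈ S then g ⟨v, h⟩ else 0) • ξ v := by
      symm
      apply Finset.sum_subset (Finset.subset_univ _)
      intro v _ hv
      simp [hv]
    rw [e1, ← Finset.sum_coe_sort S]
    refine Finset.sum_congr rfl fun u _ => ?_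
    simp

end Pool.Agent.H369R2.TD
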