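import Pool.Agent.H369R2.TD.Defs

open Finset

namespace Pool.Agent.H369R2.TD

theorem perm_exists {n : ℕ} (Y Y' : Finset (Fin n)) (h : Y.card = Y'.card) :
    ∃ σ : Equiv.Perm (Fin n), Y.map σ.toEmbedding = Y' := by
  classical
  let e : {x // x ∈ Y} ≃ {x // x ∈ Y'} := Finset.equivOfCardEq h
  refine ⟨e.extendSubtype, ?_⟩
  apply Finset.eq_of_subset_of_card_le
  · intro x hx
    rw [Finset.mem_map] at hx
    obtain ⟨y, hy, rfl⟩ := hx
    exact e.extendSubtype_mem y hy
  · rw [Finset.card_map, h]

/-- the number of permutations mapping a given `m`-set to a member of `T` -/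
theorem perm_count {n m : ℕ} {δ : ℝ} (T : Finset (Finset (Fin n))) (hT : ∀ Z ∈ T, Z.card = m)
    (hc : (T.card : ℝ) ≤ δ * (n.choose m : ℝ)) (Z : Finset (Fin n)) (hZ : Z.card = m) :
    ((univ.filter fun π : Equiv.Perm (Fin n) => Z.map π.toEmbedding ∈ T).card : ℝ)
      ≤ δ * (Fintype.card (Equiv.Perm (Fin n)) : ℝ) := by
  classical
  set f : Finset (Fin n) → ℕ := fun Y =>
    (univ.filter fun π : Equiv.Perm (Fin n) => Z.map π.toEmbedding = Y).card with hf
  have hconst : ∀ Y : Finset (Fin n), Y.card = m → f Y = f Z := by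
    intro Y hY
    obtain ⟨σ, hσ⟩ := perm_exists Y Z (by rw [hY, hZ])
    rw [hf]
    refine Finset.card_bij (fun π _ => π.trans σ) ?_ ?_ ?_
    · intro π hπ
      rw [Finset.mem_filter] at hπ ⊢
      refine ⟨Finset.mem_univ _, ?_⟩
      have h1 : Z.map (π.trans σ).toEmbedding = (Z.map π.toEmbedding).map σ.toEmbedding := by
        rw [Finset.map_map]; rfl
      rw [h1, hπ.2, hσ]
    · intro π _ π' _ h
      refine Equiv.ext fun x => ?_
      have := congrArg (fun τ : Equiv.Perm (Fin n) => σ.symm (τ x)) h
      simpa using this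
    · intro π hπ
      rw [Finset.mem_filter] at hπ
      refine ⟨π.trans σ.symm, ?_, ?_⟩
      · rw [Finset.mem_filter]
        refine ⟨Finset.mem_univ _, ?_⟩
        have h1 : Z.map (π.trans σ.symm).toEmbedding = Z.map σ.symm.toEmbedding := by
          conv_rhs => rw [← hπ.2, Finset.map_map]
          rfl
        rw [h1, ← hσ, Finset.map_map]
        ext x
        simp
      · ext x
        simp
  have htot : ∑ Y ∈ powersetCard m (univ : Finset (Fin n)), f Y =
      Fintype.card (Equiv.Perm (Fin n)) := by
    rw [hf, ← Finset.card_univ]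
    symm
    apply Finset.card_eq_sum_card_fiberwise
    intro π _
    simp only [Finset.mem_coe]
    rw [Finset.mem_powersetCard]
    exact ⟨Finset.subset_univ _, by rw [Finset.card_map, hZ]⟩
  have hC : (n.choose m) * f Z = Fintype.card (Equiv.Perm (Fin n)) := by
    rw [← htot, Finset.sum_congr rfl (fun Y hY => hconst Y (Finset.mem_powersetCard.1 hY).2),
      Finset.sum_const, Finset.card_powersetCard, Finset.card_univ, Fintype.card_fin,
      smul_eq_mul]
  have hTs : (univ.filter fun π : Equiv.Perm (Fin n) => Z.map π.toEmbedding ∈ T).card =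
      T.card * f Z := by
    rw [Finset.card_eq_sum_card_fiberwise (f := fun π : Equiv.Perm (Fin n) => Z.map π.toEmbedding)
      (t := T)]
    · rw [← smul_eq_mul, ← Finset.sum_const]
      refine Finset.sum_congr rfl fun Y hY => ?_
      rw [← hconst Y (hT Y hY), hf, Finset.filter_filter]
      congr 1
      ext π
      simp only [Finset.mem_filter, Finset.mem_univ, true_and]
      constructor
      · rintro ⟨_, h⟩; exact h
      · intro h; exact ⟨h ▸ hY, h⟩
    · intro π hπ
      simpa using hπ
  rw [hTs, ← hC]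
  push_cast
  calc (T.card : ℝ) * f Z ≤ (δ * n.choose m) * f Z :=
        mul_le_mul_of_nonneg_right hc (Nat.cast_nonneg _)
    _ = δ * (n.choose m * f Z) := by ring

end Pool.Agent.H369R2.TD
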