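import Pool.Agent.H369R2.TD.Defs
import Pool.Agent.H369R2.TD.Perm
import Pool.Agent.H369R2.TD.DetCount

/-! Task T3b: the determinant code. -/

open Finset

namespace Pool.Agent.H369R2.TD

namespace Det

/-- a condition on one coordinate of a function -/
theorem coord_count {ι P : Type} [Fintype ι] [DecidableEq ι] [Fintype P] [DecidableEq P]
    (C : ι) (Q : P → Prop) [DecidablePred Q] :
    ((univ.filter fun π : ι → P => Q (π C)).card : ℝ) * (Fintype.card P : ℝ)
      = ((univ.filter Q).card : ℝ) * (Fintype.card (ι → P) : ℝ) := by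
  classical
  have h1 : (univ.filter fun π : ι → P => Q (π C))
      = Fintype.piFinset (fun D : ι => if D = C then univ.filter Q else (univ : Finset P)) := by
    ext π
    simp only [mem_filter, mem_univ, true_and, Fintype.mem_piFinset]
    constructor
    · intro h D
      by_cases hD : D = C
      · subst hD; simp [h]
      · simp [hD]
    · intro h
      have := h C
      simpa using this
  rw [h1, Fintype.card_piFinset]
  have h2 : ∏ D : ι, (if D = C then univ.filter Q else (univ : Finset P)).card
      = (univ.filter Q).card * ∏ D ∈ univ.erase C, Fintype.card P := by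
    rw [← Finset.mul_prod_erase univ _ (mem_univ C)]
    congr 1
    · simp
    · apply Finset.prod_congr rfl
      intro D hD
      rw [mem_erase] at hD
      simp [hD.1]
  have h3 : Fintype.card (ι → P) = Fintype.card P * ∏ D ∈ univ.erase C, Fintype.card P := by
    rw [Fintype.card_pi]
    rw [← Finset.mul_prod_erase univ _ (mem_univ C)]
  rw [h2, h3]
  push_cast
  ring

variable {F : Type} [Field F] [Fintype F] [DecidableEq F] {n d : ℕ}

/-- the support -/
def supp (α : Fin n → F) : Finset (Fin n) := univ.filter fun v => α v ≠ 0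

omit [Fintype F] in
theorem supp_smul {c : F} (hc : c ≠ 0) (α : Fin n → F) : supp (c • α) = supp α := by
  ext v; simp [supp, hc]

/-- the sample space -/
abbrev Om (F : Type) (n d : ℕ) : Type :=
  (Fin n → Fin d → F) × (Finset (Fin n) → Equiv.Perm (Fin n))

/-- `α` makes `e` a member -/
def Good (T : ℕ → Finset (Finset (Fin n))) (ω : Om F n d) (e : Finset (Fin n)) (α : Fin n → F) :
    Prop :=
  α ≠ 0 ∧ (∀ v, v ∉ e → α v = 0) ∧ ∑ v, α v • ω.1 v = 0 ∧
    (e \ supp α).map (ω.2 (supp α)).toEmbedding ∈ T (e \ supp α).card

theorem Good.smul {T : ℕ → Finset (Finset (Fin n))} {ω : Om F n d} {e : Finset (Fin n)}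
    {α : Fin n → F} (h : Good T ω e α) {c : F} (hc : c ≠ 0) : Good T ω e (c • α) := by
  obtain ⟨h1, h2, h3, h4⟩ := h
  refine ⟨smul_ne_zero hc h1, fun v hv => by simp [h2 v hv], ?_, ?_⟩
  · have : ∑ v, (c • α) v • ω.1 v = c • ∑ v, α v • ω.1 v := by
      rw [Finset.smul_sum]
      apply Finset.sum_congr rfl
      intro v _
      simp [mul_smul]
    rw [this, h3, smul_zero]
  · rw [supp_smul hc]; exact h4

open Classical in
/-- the random family -/
noncomputable def fam (T : ℕ → Finset (Finset (Fin n))) (ω : Om F n d) :
    Finset (Finset (Fin n)) :=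
  ((univ : Finset (Fin n)).powersetCard d).filter fun e => ∃ α : Fin n → F, Good T ω e α

/-- scalar multiples: a nonempty set closed under scalars has at least `q - 1` elements -/
theorem scalar_count (S : Finset (Fin n → F)) (hS : S.Nonempty) (h0 : ∀ α ∈ S, α ≠ 0)
    (hc : ∀ α ∈ S, ∀ c : F, c ≠ 0 → c • α ∈ S) : Fintype.card F - 1 ≤ S.card := by
  classical
  obtain ⟨α, hα⟩ := hS
  have h1 : ((univ.erase (0 : F)).image fun c => c • α) ⊆ S := by
    intro β hβ
    rw [mem_image] at hβ
    obtain ⟨c, hc', rfl⟩ := hβ
    exact hc α hα c (mem_erase.mp hc').1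
  have h2 : ((univ.erase (0 : F)).image fun c => c • α).card = Fintype.card F - 1 := by
    rw [Finset.card_image_of_injective _ (smul_left_injective F (h0 α hα)),
      Finset.card_erase_of_mem (mem_univ _), Finset.card_univ]
  rw [← h2]
  exact Finset.card_le_card h1

theorem count_good {T : ℕ → Finset (Finset (Fin n))} {δ : ℕ → ℝ}
    (hT1 : ∀ m, m < d → ∀ Z ∈ T m, Z.card = m)
    (hT3 : ∀ m, m < d → ((T m).card : ℝ) ≤ δ m * (n.choose m : ℝ))
    (e : Finset (Fin n)) (he : e.card = d) (α : Fin n → F) (hα : α ≠ 0)
    (hs : ∀ v, v ∉ e → α v = 0) :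
    ((univ.filter fun ω : Om F n d => ∑ v, α v • ω.1 v = 0 ∧
        (e \ supp α).map (ω.2 (supp α)).toEmbedding ∈ T (e \ supp α).card).card : ℝ)
      ≤ δ (e \ supp α).card / (Fintype.card F : ℝ) ^ d * (Fintype.card (Om F n d) : ℝ) := by
  classical
  have hlt : (e \ supp α).card < d := by
    rw [← he]
    apply Finset.card_lt_card
    rw [Finset.ssubset_iff_subset_ne]
    refine ⟨sdiff_subset, fun hE => hα ?_⟩
    ext v
    by_contra hv
    have hv' : α v ≠ 0 := hv
    have hve : v ∈ e := by
      by_contra hh; exact hv' (hs v hh)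
    have : v ∈ e \ supp α := by rw [hE]; exact hve
    rw [mem_sdiff] at this
    exact this.2 (by simp [supp, hv'])
  have hsplit : (univ.filter fun ω : Om F n d => ∑ v, α v • ω.1 v = 0 ∧
        (e \ supp α).map (ω.2 (supp α)).toEmbedding ∈ T (e \ supp α).card)
      = (univ.filter fun ξ : Fin n → Fin d → F => ∑ v, α v • ξ v = 0) ×ˢ
        (univ.filter fun π : Finset (Fin n) → Equiv.Perm (Fin n) =>
          (e \ supp α).map (π (supp α)).toEmbedding ∈ T (e \ supp α).card) := by
    ext ω
    simp only [mem_filter, mem_univ, true_and, mem_product]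
  rw [hsplit, Finset.card_product, Nat.cast_mul]
  have hq : (0 : ℝ) < (Fintype.card F : ℝ) := by exact_mod_cast Fintype.card_pos
  have c1 := dep_count (d := d) α hα
  have c2 := coord_count (supp α)
    (fun p : Equiv.Perm (Fin n) => (e \ supp α).map p.toEmbedding ∈ T (e \ supp α).card)
  have c3 := perm_count (δ := δ (e \ supp α).card) (T (e \ supp α).card) (hT1 _ hlt) (hT3 _ hlt)
    (e \ supp α) rfl
  have hP : (0 : ℝ) < (Fintype.card (Equiv.Perm (Fin n)) : ℝ) := by exact_mod_cast Fintype.card_pos
  have c4 : ((univ.filter fun π : Finset (Fin n) → Equiv.Perm (Fin n) =>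
          (e \ supp α).map (π (supp α)).toEmbedding ∈ T (e \ supp α).card).card : ℝ)
      ≤ δ (e \ supp α).card * (Fintype.card (Finset (Fin n) → Equiv.Perm (Fin n)) : ℝ) := by
    have h5 : ((univ.filter fun π : Finset (Fin n) → Equiv.Perm (Fin n) =>
          (e \ supp α).map (π (supp α)).toEmbedding ∈ T (e \ supp α).card).card : ℝ)
          * (Fintype.card (Equiv.Perm (Fin n)) : ℝ)
        ≤ (δ (e \ supp α).card * (Fintype.card (Finset (Fin n) → Equiv.Perm (Fin n)) : ℝ))
          * (Fintype.card (Equiv.Perm (Fin n)) : ℝ) := by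
      rw [c2]
      calc _ ≤ (δ (e \ supp α).card * (Fintype.card (Equiv.Perm (Fin n)) : ℝ))
            * (Fintype.card (Finset (Fin n) → Equiv.Perm (Fin n)) : ℝ) := by
            gcongr
        _ = _ := by ring
    exact le_of_mul_le_mul_right h5 hP
  have hqd : (0 : ℝ) < (Fintype.card F : ℝ) ^ d := by positivity
  have c5 : ((univ.filter fun ξ : Fin n → Fin d → F => ∑ v, α v • ξ v = 0).card : ℝ)
      = (Fintype.card (Fin n → Fin d → F) : ℝ) / (Fintype.card F : ℝ) ^ d := by
    rw [eq_div_iff hqd.ne', c1]
  rw [c5, Fintype.card_prod, Nat.cast_mul]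
  calc _ ≤ (Fintype.card (Fin n → Fin d → F) : ℝ) / (Fintype.card F : ℝ) ^ d *
        (δ (e \ supp α).card * (Fintype.card (Finset (Fin n) → Equiv.Perm (Fin n)) : ℝ)) := by
        gcongr
    _ = _ := by ring

end Det

open Det in
theorem det_rnd (F : Type) [Field F] [Fintype F] {d : ℕ} {δ : ℕ → ℝ}
    (hδ : ∀ m, m < d → Tur m (δ m)) (n : ℕ) :
    Rnd n d (detA d (Fintype.card F) δ) (detF d (Fintype.card F)) := by
  classical
  have hex : ∀ m, ∃ T : Finset (Finset (Fin n)), m < d → (∀ Z ∈ T, Z.card = m) ∧
    (∀ Y : Finset (Fin n), Y.card = m + 1 → ∃ Z ∈ T, Z ⊆ Y) ∧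
      (T.card : ℝ) ≤ δ m * (n.choose m : ℝ) := by
    intro m
    by_cases hm : m < d
    · obtain ⟨T, hT⟩ := hδ m hm n
      exact ⟨T, fun _ => hT⟩
    · exact ⟨∅, fun h => absurd h hm⟩
  choose T hT using hex
  have hT1 : ∀ m, m < d → ∀ Z ∈ T m, Z.card = m := fun m hm => (hT m hm).1
  have hT2 : ∀ m, m < d → ∀ Y : Finset (Fin n), Y.card = m + 1 → ∃ Z ∈ T m, Z ⊆ Y :=
    fun m hm => (hT m hm).2.1
  have hT3 : ∀ m, m < d → ((T m).card : ℝ) ≤ δ m * (n.choose m : ℝ) := fun m hm => (hT m hm).2.2
  have hq1 : 1 < Fintype.card F := Fintype.one_lt_card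
  have hq : (0 : ℝ) < (Fintype.card F : ℝ) := by exact_mod_cast Fintype.card_pos
  have hq' : (0 : ℝ) < (Fintype.card F : ℝ) - 1 := by
    have : (1 : ℝ) < (Fintype.card F : ℝ) := by exact_mod_cast hq1
    linarith
  have hqc : ((Fintype.card F - 1 : ℕ) : ℝ) = (Fintype.card F : ℝ) - 1 := by
    rw [Nat.cast_sub hq1.le]; simp
  have hqd : (0 : ℝ) < (Fintype.card F : ℝ) ^ d := by positivity
  refine ⟨Om F n d, inferInstance, inferInstance, fam T, ?_, ?_, ?_⟩
  · intro ω Z hZ
    rw [fam, mem_filter, mem_powersetCard] at hZ
    exact hZ.1.2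
  · -- density
    intro e he
    have key : ((Fintype.card F - 1 : ℕ) : ℝ) *
        ((univ.filter fun ω : Om F n d => e ∈ fam T ω).card : ℝ)
        ≤ ∑ α ∈ univ.filter (fun α : Fin n → F => α ≠ 0 ∧ ∀ v, v ∉ e → α v = 0),
          δ (e \ supp α).card / (Fintype.card F : ℝ) ^ d * (Fintype.card (Om F n d) : ℝ) := by
      have s1 : (Fintype.card F - 1) * (univ.filter fun ω : Om F n d => e ∈ fam T ω).card
          ≤ ∑ ω : Om F n d, (univ.filter fun α : Fin n → F => Good T ω e α).card := by
        calc (Fintype.card F - 1) * (univ.filter fun ω : Om F n d => e ∈ fam T ω).card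
            = ∑ ω ∈ univ.filter (fun ω : Om F n d => e ∈ fam T ω), (Fintype.card F - 1) := by
              rw [Finset.sum_const, smul_eq_mul, mul_comm]
          _ ≤ ∑ ω ∈ univ.filter (fun ω : Om F n d => e ∈ fam T ω),
                (univ.filter fun α : Fin n → F => Good T ω e α).card := by
              apply Finset.sum_le_sum
              intro ω hω
              rw [mem_filter] at hω
              have h2 := hω.2
              rw [fam, mem_filter] at h2
              obtain ⟨α, hα⟩ := h2.2
              apply scalar_count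
              · exact ⟨α, by rw [mem_filter]; exact ⟨mem_univ _, hα⟩⟩
              · intro β hβ; rw [mem_filter] at hβ; exact hβ.2.1
              · intro β hβ c hc; rw [mem_filter] at hβ ⊢
                exact ⟨mem_univ _, hβ.2.smul hc⟩
          _ ≤ _ := Finset.sum_le_sum_of_subset (filter_subset _ _)
      have s2 : ∑ ω : Om F n d, (univ.filter fun α : Fin n → F => Good T ω e α).card
          = ∑ α ∈ univ.filter (fun α : Fin n → F => α ≠ 0 ∧ ∀ v, v ∉ e → α v = 0),
            (univ.filter fun ω : Om F n d => ∑ v, α v • ω.1 v = 0 ∧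
              (e \ supp α).map (ω.2 (supp α)).toEmbedding ∈ T (e \ supp α).card).card := by
        simp_rw [Finset.card_filter]
        rw [Finset.sum_comm, Finset.sum_filter]
        apply Finset.sum_congr rfl
        intro α _
        by_cases h : α ≠ 0 ∧ ∀ v, v ∉ e → α v = 0
        · rw [if_pos h]
          apply Finset.sum_congr rfl
          intro ω _
          congr 1
          simp only [Good, eq_iff_iff]
          constructor
          · rintro ⟨_, _, h3, h4⟩; exact ⟨h3, h4⟩
          · rintro ⟨h3, h4⟩; exact ⟨h.1, h.2, h3, h4⟩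
        · rw [if_neg h]
          apply Finset.sum_eq_zero
          intro ω _
          rw [if_neg]
          rintro ⟨h1, h2, _, _⟩
          exact h ⟨h1, h2⟩
      have s3 : (((Fintype.card F - 1) * (univ.filter fun ω : Om F n d => e ∈ fam T ω).card : ℕ) : ℝ)
          ≤ ((∑ α ∈ univ.filter (fun α : Fin n → F => α ≠ 0 ∧ ∀ v, v ∉ e → α v = 0),
            (univ.filter fun ω : Om F n d => ∑ v, α v • ω.1 v = 0 ∧
              (e \ supp α).map (ω.2 (supp α)).toEmbedding ∈ T (e \ supp α).card).card : ℕ) : ℝ) := by
        exact_mod_cast (s1.trans_eq s2)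
      rw [Nat.cast_mul] at s3
      refine s3.trans ?_
      rw [Nat.cast_sum]
      apply Finset.sum_le_sum
      intro α hα
      rw [mem_filter] at hα
      exact count_good hT1 hT3 e he α hα.2.1 hα.2.2
    -- evaluate the sum by the number of zeros
    have key2 : ∑ α ∈ univ.filter (fun α : Fin n → F => α ≠ 0 ∧ ∀ v, v ∉ e → α v = 0),
          δ (e \ supp α).card / (Fintype.card F : ℝ) ^ d * (Fintype.card (Om F n d) : ℝ)
        = ((Fintype.card F : ℝ) - 1) * detA d (Fintype.card F) δ * (Fintype.card (Om F n d) : ℝ) := by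
      have hmap : ∀ α ∈ univ.filter (fun α : Fin n → F => α ≠ 0 ∧ ∀ v, v ∉ e → α v = 0),
          (e \ supp α).card ∈ range d := by
        intro α hα
        rw [mem_filter] at hα
        rw [mem_range, ← he]
        apply Finset.card_lt_card
        rw [Finset.ssubset_iff_subset_ne]
        refine ⟨sdiff_subset, fun hE => hα.2.1 ?_⟩
        ext v
        by_contra hv
        have hv' : α v ≠ 0 := hv
        have hve : v ∈ e := by
          by_contra hh; exact hv' (hα.2.2 v hh)
        have : v ∈ e \ supp α := by rw [hE]; exact hve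
        rw [mem_sdiff] at this
        exact this.2 (by simp [supp, hv'])
      rw [← Finset.sum_fiberwise_of_maps_to hmap]
      rw [detA, Finset.mul_sum, Finset.sum_mul]
      apply Finset.sum_congr rfl
      intro m hm
      rw [mem_range] at hm
      have hcongr : ∀ α ∈ (univ.filter (fun α : Fin n → F => α ≠ 0 ∧ ∀ v, v ∉ e → α v = 0)).filter
            (fun α => (e \ supp α).card = m),
          δ (e \ supp α).card / (Fintype.card F : ℝ) ^ d * (Fintype.card (Om F n d) : ℝ)
          = δ m / (Fintype.card F : ℝ) ^ d * (Fintype.card (Om F n d) : ℝ) := by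
        intro α hα
        rw [mem_filter] at hα
        rw [hα.2]
      rw [Finset.sum_congr rfl hcongr, Finset.sum_const, nsmul_eq_mul]
      have hset : ((univ.filter (fun α : Fin n → F => α ≠ 0 ∧ ∀ v, v ∉ e → α v = 0)).filter
            (fun α => (e \ supp α).card = m)).card
          = e.card.choose m * (Fintype.card F - 1) ^ (e.card - m) := by
        rw [← supp_count e]
        congr 1
        ext α
        have hs : e \ supp α = e.filter fun v => α v = 0 := by
          ext v; simp [supp]
        simp only [mem_filter, mem_univ, true_and, hs]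
        constructor
        · rintro ⟨⟨_, h2⟩, h3⟩; exact ⟨h2, h3⟩
        · rintro ⟨h2, h3⟩
          refine ⟨⟨?_, h2⟩, h3⟩
          rintro rfl
          have : (e.filter fun v => (0 : Fin n → F) v = 0) = e := by
            ext v; simp
          rw [this, he] at h3
          omega
      rw [hset, he]
      have hp : (((Fintype.card F - 1) ^ (d - m) : ℕ) : ℝ)
          = ((Fintype.card F : ℝ) - 1) ^ (d - m - 1) * ((Fintype.card F : ℝ) - 1) := by
        rw [Nat.cast_pow, hqc, ← pow_succ]
        congr 1; omega
      rw [Nat.cast_mul, hp]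
      ring
    rw [hqc] at key
    rw [key2] at key
    have : ((Fintype.card F : ℝ) - 1) * ((univ.filter fun ω : Om F n d => e ∈ fam T ω).card : ℝ)
        ≤ ((Fintype.card F : ℝ) - 1) * (detA d (Fintype.card F) δ * (Fintype.card (Om F n d) : ℝ)) := by
      rw [← mul_assoc]; exact key
    exact le_of_mul_le_mul_left this hq'
  · -- failure
    intro Y hY
    have hfail : ∀ ω : Om F n d, (¬ ∃ Z ∈ fam T ω, Z ⊆ Y) →
        ∃ α : Fin n → F, supp α = Y ∧ ∑ v, α v • ω.1 v = 0 := by
      intro ω hω
      obtain ⟨α, h0, h1, h2⟩ := exists_dep ω.1 Y hY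
      refine ⟨α, ?_, h2⟩
      by_contra hne
      apply hω
      have hsub : supp α ⊆ Y := by
        intro v hv
        by_contra hh
        simp only [supp, mem_filter, mem_univ, true_and] at hv
        exact hv (h1 v hh)
      have hsne : (supp α).Nonempty := by
        by_contra hh
        rw [Finset.not_nonempty_iff_eq_empty] at hh
        apply h0
        ext v
        by_contra hv
        have : v ∈ supp α := by simp [supp]; exact hv
        rw [hh] at this
        simp at this
      set Z := Y \ supp α with hZ
      have hZcard : Z.card + (supp α).card = d + 1 := by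
        rw [hZ, ← hY]; exact Finset.card_sdiff_add_card_eq_card hsub
      have hZne : Z.Nonempty := by
        rw [hZ, Finset.sdiff_nonempty]
        intro hh
        exact hne (Finset.Subset.antisymm hsub hh)
      have hsc : 1 ≤ (supp α).card := Finset.card_pos.mpr hsne
      have hzc : 1 ≤ Z.card := Finset.card_pos.mpr hZne
      obtain ⟨m, hm⟩ : ∃ m, Z.card = m + 1 := ⟨Z.card - 1, by omega⟩
      have hmd : m < d := by omega
      obtain ⟨W, hW1, hW2⟩ := hT2 m hmd (Z.map (ω.2 (supp α)).toEmbedding)
        (by rw [Finset.card_map, hm])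
      obtain ⟨W', hW'1, hW'2⟩ := Finset.subset_map_iff.mp hW2
      have hW'card : W'.card = m := by
        have := hT1 m hmd W hW1
        rw [hW'2, Finset.card_map] at this
        exact this
      obtain ⟨t, ht⟩ : ∃ t, Z \ W' = {t} := by
        rw [← Finset.card_eq_one, Finset.card_sdiff_of_subset hW'1, hm, hW'card]; omega
      have htZ : t ∈ Z := by
        have : t ∈ Z \ W' := by rw [ht]; simp
        exact (mem_sdiff.mp this).1
      have hWe : W' = Z.erase t := by
        ext v
        constructor
        · intro hv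
          rw [mem_erase]
          refine ⟨?_, hW'1 hv⟩
          rintro rfl
          have : v ∈ Z \ W' := by rw [ht]; simp
          exact (mem_sdiff.mp this).2 hv
        · intro hv
          rw [mem_erase] at hv
          by_contra hh
          have : v ∈ Z \ W' := mem_sdiff.mpr ⟨hv.2, hh⟩
          rw [ht, mem_singleton] at this
          exact hv.1 this
      have htY : t ∈ Y := (mem_sdiff.mp htZ).1
      have hts : t ∉ supp α := (mem_sdiff.mp htZ).2
      refine ⟨Y.erase t, ?_, erase_subset _ _⟩
      rw [fam, mem_filter, mem_powersetCard]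
      refine ⟨⟨subset_univ _, by rw [Finset.card_erase_of_mem htY, hY]; omega⟩, α, h0, ?_, h2, ?_⟩
      · intro v hv
        rw [mem_erase] at hv
        by_cases hvt : v = t
        · subst hvt
          by_contra hh
          exact hts (by simp [supp, hh])
        · exact h1 v (fun h => hv ⟨hvt, h⟩)
      · have hd : Y.erase t \ supp α = Z.erase t := by
          ext v
          simp only [mem_sdiff, mem_erase, hZ]
          tauto
        rw [hd, ← hWe, ← hW'2, hW'card]
        exact hW1
    have key : (Fintype.card F - 1) *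
        (univ.filter fun ω : Om F n d => ¬ ∃ Z ∈ fam T ω, Z ⊆ Y).card
        ≤ ∑ α ∈ univ.filter (fun α : Fin n → F => supp α = Y),
            (univ.filter fun ω : Om F n d => ∑ v, α v • ω.1 v = 0).card := by
      calc (Fintype.card F - 1) * (univ.filter fun ω : Om F n d => ¬ ∃ Z ∈ fam T ω, Z ⊆ Y).card
          = ∑ ω ∈ univ.filter (fun ω : Om F n d => ¬ ∃ Z ∈ fam T ω, Z ⊆ Y),
              (Fintype.card F - 1) := by
            rw [Finset.sum_const, smul_eq_mul, mul_comm]
        _ ≤ ∑ ω ∈ univ.filter (fun ω : Om F n d => ¬ ∃ Z ∈ fam T ω, Z ⊆ Y),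
              (univ.filter fun α : Fin n → F => supp α = Y ∧ ∑ v, α v • ω.1 v = 0).card := by
            apply Finset.sum_le_sum
            intro ω hω
            rw [mem_filter] at hω
            obtain ⟨α, hα1, hα2⟩ := hfail ω hω.2
            apply scalar_count
            · exact ⟨α, by rw [mem_filter]; exact ⟨mem_univ _, hα1, hα2⟩⟩
            · intro β hβ
              rw [mem_filter] at hβ
              rintro rfl
              have h0 : supp (0 : Fin n → F) = ∅ := by ext v; simp [supp]
              rw [h0] at hβ
              have := hβ.2.1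
              rw [← this] at hY
              simp at hY
            · intro β hβ c hc
              rw [mem_filter] at hβ ⊢
              refine ⟨mem_univ _, by rw [supp_smul hc]; exact hβ.2.1, ?_⟩
              have : ∑ v, (c • β) v • ω.1 v = c • ∑ v, β v • ω.1 v := by
                rw [Finset.smul_sum]
                apply Finset.sum_congr rfl
                intro v _
                simp [mul_smul]
              rw [this, hβ.2.2, smul_zero]
        _ ≤ ∑ ω : Om F n d,
              (univ.filter fun α : Fin n → F => supp α = Y ∧ ∑ v, α v • ω.1 v = 0).card :=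
            Finset.sum_le_sum_of_subset (filter_subset _ _)
        _ = _ := by
            simp_rw [Finset.card_filter]
            rw [Finset.sum_comm, Finset.sum_filter]
            apply Finset.sum_congr rfl
            intro α _
            by_cases h : supp α = Y
            · simp [h]
            · simp [h]
    have hYe : ∀ α ∈ univ.filter (fun α : Fin n → F => supp α = Y),
        ((univ.filter fun ω : Om F n d => ∑ v, α v • ω.1 v = 0).card : ℝ)
          = (Fintype.card (Om F n d) : ℝ) / (Fintype.card F : ℝ) ^ d := by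
      intro α hα
      rw [mem_filter] at hα
      have h0 : α ≠ 0 := by
        rintro rfl
        have h0 : supp (0 : Fin n → F) = ∅ := by ext v; simp [supp]
        rw [h0] at hα
        rw [← hα.2] at hY
        simp at hY
      have hsplit : (univ.filter fun ω : Om F n d => ∑ v, α v • ω.1 v = 0)
          = (univ.filter fun ξ : Fin n → Fin d → F => ∑ v, α v • ξ v = 0) ×ˢ
            (univ : Finset (Finset (Fin n) → Equiv.Perm (Fin n))) := by
        ext ω
        simp only [mem_filter, mem_univ, true_and, mem_product, and_true]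
      rw [hsplit, Finset.card_product, Nat.cast_mul, eq_div_iff hqd.ne', mul_right_comm,
        dep_count (d := d) α h0, Fintype.card_prod, Nat.cast_mul, Finset.card_univ]
    have hnum : ((univ.filter (fun α : Fin n → F => supp α = Y)).card : ℝ)
        = ((Fintype.card F : ℝ) - 1) ^ (d + 1) := by
      have hset : (univ.filter (fun α : Fin n → F => supp α = Y)).card
          = Y.card.choose 0 * (Fintype.card F - 1) ^ (Y.card - 0) := by
        rw [← supp_count Y]
        congr 1
        ext α
        simp only [mem_filter, mem_univ, true_and, Finset.card_eq_zero,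
          Finset.filter_eq_empty_iff]
        constructor
        · intro h
          refine ⟨fun v hv => ?_, fun v hv => ?_⟩
          · by_contra hh
            exact hv (by rw [← h]; simp [supp, hh])
          · rw [← h] at hv
            simpa [supp] using hv
        · rintro ⟨h1, h2⟩
          ext v
          simp only [supp, mem_filter, mem_univ, true_and]
          constructor
          · intro hv; by_contra hh; exact hv (h1 v hh)
          · intro hv; exact h2 hv
      rw [hset, hY]
      rw [Nat.choose_zero_right, one_mul, Nat.cast_pow, hqc, Nat.sub_zero]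
    have key' : ((Fintype.card F : ℝ) - 1) *
        ((univ.filter fun ω : Om F n d => ¬ ∃ Z ∈ fam T ω, Z ⊆ Y).card : ℝ)
        ≤ ((Fintype.card F : ℝ) - 1) * (detF d (Fintype.card F) * (Fintype.card (Om F n d) : ℝ)) := by
      have h1 : (((Fintype.card F - 1) *
        (univ.filter fun ω : Om F n d => ¬ ∃ Z ∈ fam T ω, Z ⊆ Y).card : ℕ) : ℝ)
        ≤ ((∑ α ∈ univ.filter (fun α : Fin n → F => supp α = Y),
            (univ.filter fun ω : Om F n d => ∑ v, α v • ω.1 v = 0).card : ℕ) : ℝ) := by
        exact_mod_cast key
      rw [Nat.cast_mul, hqc, Nat.cast_sum, Finset.sum_congr rfl hYe, Finset.sum_const,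
        nsmul_eq_mul, hnum] at h1
      refine h1.trans_eq ?_
      rw [detF, div_pow]
      field_simp
      rw [pow_succ]; ring
    exact le_of_mul_le_mul_left key' hq'

end Pool.Agent.H369R2.TD
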