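import Pool.Agent.H369R2.TD.Defs
import Pool.Agent.Helper213.Sidon.Prime

open Finset Filter

namespace Pool.Agent.H369R2.TD

/-- moreover `q → ∞` -/
theorem exists_q' {y x : ℝ} (hy : 0 < y) (hx : y < x) (Q : ℝ) :
    ∀ᶠ d : ℕ in atTop, ∃ q : ℕ, q.Prime ∧ Q ≤ (q : ℝ) ∧ y ≤ (d : ℝ) / q ∧
      ((d : ℝ) + 1) / q * Real.exp (1 / q) ≤ x := by
  set η : ℝ := min 1 ((x - y) / (7 * y)) with hη
  have hη0 : 0 < η := lt_min one_pos (div_pos (by linarith) (by linarith))
  have hη1 : η ≤ 1 := min_le_left _ _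
  have hη2 : 7 * y * η ≤ x - y := by
    have : η ≤ (x - y) / (7 * y) := min_le_right _ _
    rw [le_div_iff₀ (by linarith)] at this
    linarith
  have hlog : 0 < Real.log (1 + η) := Real.log_pos (by linarith)
  have htend : Tendsto (fun d : ℕ => (d : ℝ) / (y * (1 + η))) atTop atTop :=
    Tendsto.atTop_div_const (by positivity) tendsto_natCast_atTop_atTop
  have h1 := htend.eventually (Pool.Agent.Helper213.Sidon.prime_between η hη0)
  have h2 := htend.eventually_ge_atTop Q
  have h3 := htend.eventually_ge_atTop (1 / Real.log (1 + η))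
  have h4 := (tendsto_natCast_atTop_atTop (R := ℝ)).eventually_ge_atTop (1 / η)
  filter_upwards [h1, h2, h3, h4] with d ⟨q, hq, hq1, hq2⟩ h2 h3 h4
  have hq0 : (0 : ℝ) < q := by exact_mod_cast hq.pos
  have hd0 : (0 : ℝ) < d := lt_of_lt_of_le (by positivity) h4
  refine ⟨q, hq, h2.trans hq1.le, ?_, ?_⟩
  · rw [le_div_iff₀ hq0]
    have h5 : (q : ℝ) ≤ d / y := by
      refine hq2.trans (le_of_eq ?_)
      field_simp
    rw [le_div_iff₀ hy] at h5
    linarith
  · have h5 : (d : ℝ) / q ≤ y * (1 + η) := by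
      rw [div_lt_iff₀ (by positivity)] at hq1
      rw [div_le_iff₀ hq0]
      linarith
    have h6 : ((d : ℝ) + 1) / q ≤ y * (1 + η) * (1 + η) := by
      have e1 : ((d : ℝ) + 1) / q = (d / q) * (1 + 1 / d) := by field_simp
      have e2 : 1 / (d : ℝ) ≤ η := by
        rw [div_le_iff₀ hd0]
        rw [div_le_iff₀ hη0] at h4
        linarith
      rw [e1]
      exact mul_le_mul h5 (by linarith) (by positivity) (by positivity)
    have h7 : Real.exp (1 / q) ≤ 1 + η := by
      rw [← Real.le_log_iff_exp_le (by positivity)]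
      rw [div_le_iff₀ hq0]
      have h8 := h3.trans hq1.le
      rw [div_le_iff₀ hlog] at h8
      linarith
    calc ((d : ℝ) + 1) / q * Real.exp (1 / q) ≤ y * (1 + η) * (1 + η) * (1 + η) :=
          mul_le_mul h6 h7 (Real.exp_pos _).le (by positivity)
      _ ≤ y + 7 * y * η := by
          have g1 : η ^ 2 ≤ η := by nlinarith
          have g2 : η ^ 3 ≤ η := by nlinarith
          have g3 : (1 + η) * (1 + η) * (1 + η) ≤ 1 + 7 * η := by nlinarith
          nlinarith
      _ ≤ x := by linarith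

theorem exists_q {y x : ℝ} (hy : 0 < y) (hx : y < x) :
    ∀ᶠ d : ℕ in atTop, ∃ q : ℕ, q.Prime ∧ y ≤ (d : ℝ) / q ∧
      ((d : ℝ) + 1) / q * Real.exp (1 / q) ≤ x := by
  filter_upwards [exists_q' hy hx 0] with d ⟨q, h1, _, h3, h4⟩
  exact ⟨q, h1, h3, h4⟩

end Pool.Agent.H369R2.TD
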