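import Pool.Agent.H369R2.TD.Defs

/-!
# Task T4: two parts and many rounds (helper363)

A set of `d₁ + d₂ + 2` points is cut into its lowest `d₁ + 1` and its highest `d₂ + 1` points.
The rounds are chosen one after the other; the potential is
`x · #(pairs (d₁, d₂+1) with live high part) + y · #(pairs (d₁+1, d₂) with live low part)
 + z · #(pairs (d₁+1, d₂+1) with both parts live)`.
-/

open Finset

namespace Pool.Agent.H369R2.TD

namespace Two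

open Classical in
/-- pairs of sets of sizes `a`, `b`, the first below the second -/
noncomputable def Pr (n a b : ℕ) : Finset (Finset (Fin n) × Finset (Fin n)) :=
  univ.filter fun p => p.1.card = a ∧ p.2.card = b ∧ ∀ x ∈ p.1, ∀ y ∈ p.2, x < y

theorem mem_Pr {n a b : ℕ} {p : Finset (Fin n) × Finset (Fin n)} :
    p ∈ Pr n a b ↔ p.1.card = a ∧ p.2.card = b ∧ ∀ x ∈ p.1, ∀ y ∈ p.2, x < y := by
  simp [Pr]

theorem card_union_of_mem_Pr {n a b : ℕ} {p : Finset (Fin n) × Finset (Fin n)}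
    (hp : p ∈ Pr n a b) : (p.1 ∪ p.2).card = a + b := by
  rw [mem_Pr] at hp
  rw [card_union_of_disjoint, hp.1, hp.2.1]
  rw [Finset.disjoint_left]
  intro x hx hy
  exact lt_irrefl _ (hp.2.2 x hx x hy)

theorem Pr_card_le (n a b : ℕ) : (Pr n a b).card ≤ n.choose (a + b) := by
  classical
  have h : (Pr n a b).card ≤ (powersetCard (a + b) (univ : Finset (Fin n))).card := by
    refine Finset.card_le_card_of_injOn (fun p => p.1 ∪ p.2) ?_ ?_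
    · intro p hp
      simp only [mem_coe] at hp ⊢
      rw [mem_powersetCard]
      exact ⟨subset_univ _, card_union_of_mem_Pr hp⟩
    · intro p hp p' hp' he
      simp only [mem_coe] at hp hp'
      have he : p.1 ∪ p.2 = p'.1 ∪ p'.2 := he
      have hp1 := mem_Pr.1 hp
      have hp1' := mem_Pr.1 hp'
      have key : ∀ q q' : Finset (Fin n) × Finset (Fin n), q ∈ Pr n a b → q' ∈ Pr n a b →
          q.1 ∪ q.2 = q'.1 ∪ q'.2 → q.1 = q'.1 := by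
        intro q q' hq hq' hu
        have hq1 := mem_Pr.1 hq
        have hq1' := mem_Pr.1 hq'
        by_cases hs : q.1 ⊆ q'.1
        · exact Finset.eq_of_subset_of_card_le hs (by rw [hq1.1, hq1'.1])
        · have hs' : q'.1 ⊆ q.1 := by
            rw [Finset.not_subset] at hs
            obtain ⟨x, hx, hx'⟩ := hs
            intro y hy
            by_contra hy'
            have hx2 : x ∈ q'.2 := by
              have : x ∈ q'.1 ∪ q'.2 := by rw [← hu]; exact mem_union_left _ hx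
              rcases mem_union.1 this with h | h
              · exact absurd h hx'
              · exact h
            have hy2 : y ∈ q.2 := by
              have : y ∈ q.1 ∪ q.2 := by rw [hu]; exact mem_union_left _ hy
              rcases mem_union.1 this with h | h
              · exact absurd h hy'
              · exact h
            exact lt_asymm (hq1.2.2 x hx y hy2) (hq1'.2.2 y hy x hx2)
          exact (Finset.eq_of_subset_of_card_le hs' (by rw [hq1.1, hq1'.1])).symm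
      have h1 : p.1 = p'.1 := key p p' hp hp' he
      have hd : Disjoint p.1 p.2 := by
        rw [Finset.disjoint_left]
        intro x hx hy
        exact lt_irrefl _ (hp1.2.2 x hx x hy)
      have hd' : Disjoint p'.1 p'.2 := by
        rw [Finset.disjoint_left]
        intro x hx hy
        exact lt_irrefl _ (hp1'.2.2 x hx x hy)
      have h2 : p.2 = p'.2 := by
        have e1 : p.2 = (p.1 ∪ p.2) \ p.1 := by
          rw [Finset.union_sdiff_left]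
          exact (Finset.sdiff_eq_self_of_disjoint hd.symm).symm
        have e2 : p'.2 = (p'.1 ∪ p'.2) \ p'.1 := by
          rw [Finset.union_sdiff_left]
          exact (Finset.sdiff_eq_self_of_disjoint hd'.symm).symm
        rw [e1, e2, he, h1]
      exact Prod.ext h1 h2
  rwa [card_powersetCard, card_univ, Fintype.card_fin] at h

/-- every set has an initial segment of each size -/
theorem exists_low {n : ℕ} (S : Finset (Fin n)) : ∀ h : ℕ, h ≤ S.card →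
    ∃ L : Finset (Fin n), L ⊆ S ∧ L.card = h ∧ ∀ x ∈ L, ∀ y ∈ S \ L, x < y := by
  classical
  intro h
  induction h with
  | zero => intro _; exact ⟨∅, by simp, by simp, by simp⟩
  | succ h ih =>
    intro hh
    obtain ⟨L, hL, hc, hlt⟩ := ih (by omega)
    have hne : (S \ L).Nonempty := by
      rw [← Finset.card_pos, Finset.card_sdiff_of_subset hL]
      omega
    refine ⟨insert ((S \ L).min' hne) L, ?_, ?_, ?_⟩
    · intro x hx
      rcases mem_insert.1 hx with rfl | hx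
      · exact (mem_sdiff.1 (min'_mem _ hne)).1
      · exact hL hx
    · rw [card_insert_of_notMem, hc]
      exact (mem_sdiff.1 (min'_mem _ hne)).2
    · intro x hx y hy
      have hy1 : y ∈ S \ L := by
        rw [mem_sdiff] at hy ⊢
        exact ⟨hy.1, fun h => hy.2 (mem_insert_of_mem h)⟩
      have hy2 : y ≠ (S \ L).min' hne := by
        intro h
        rw [mem_sdiff] at hy
        exact hy.2 (by rw [h]; exact mem_insert_self _ _)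
      rcases mem_insert.1 hx with rfl | hx
      · exact lt_of_le_of_ne (min'_le _ _ hy1) (Ne.symm hy2)
      · exact hlt x hx y hy1

theorem exists_pair {n a b : ℕ} (S : Finset (Fin n)) (hS : S.card = a + b) :
    ∃ p ∈ Pr n a b, p.1 ∪ p.2 = S := by
  classical
  obtain ⟨L, hL, hc, hlt⟩ := exists_low S a (by omega)
  refine ⟨(L, S \ L), ?_, ?_⟩
  · rw [mem_Pr]
    refine ⟨hc, ?_, hlt⟩
    show (S \ L).card = b
    rw [Finset.card_sdiff_of_subset hL]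
    omega
  · exact Finset.union_sdiff_of_subset hL

/-- averaging: if every member of `s` is hit by at most `c |Ω|` outcomes then the total number of
hits is at most `c |Ω| |s|` -/
theorem sum_card_le {α Ω : Type*} [Fintype Ω] (s : Finset α) (t : Ω → Finset α) {c : ℝ}
    (u : α → Finset Ω) (hu : ∀ x ∈ s, ((u x).card : ℝ) ≤ c * (Fintype.card Ω : ℝ))
    (h : ∀ ω x, x ∈ t ω ↔ x ∈ s ∧ ω ∈ u x) :
    ∑ ω : Ω, ((t ω).card : ℝ) ≤ c * (Fintype.card Ω : ℝ) * (s.card : ℝ) := by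
  classical
  have h1 : ∑ ω : Ω, ((t ω).card : ℝ) = ∑ x ∈ s, ((u x).card : ℝ) := by
    have e1 : ∀ ω : Ω, ((t ω).card : ℝ) = ∑ x ∈ s, if ω ∈ u x then (1 : ℝ) else 0 := by
      intro ω
      have : t ω = s.filter fun x => ω ∈ u x := by
        ext x
        rw [h, mem_filter]
      rw [this, Finset.card_filter]
      push_cast
      rfl
    have e2 : ∀ x : α, ((u x).card : ℝ) = ∑ ω : Ω, if ω ∈ u x then (1 : ℝ) else 0 := by
      intro x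
      have : u x = univ.filter fun ω => ω ∈ u x := by
        ext ω
        simp
      conv_lhs => rw [this]
      rw [Finset.card_filter]
      push_cast
      rfl
    simp_rw [e1, e2]
    exact Finset.sum_comm
  rw [h1]
  calc ∑ x ∈ s, ((u x).card : ℝ)
      ≤ ∑ _x ∈ s, c * (Fintype.card Ω : ℝ) := Finset.sum_le_sum hu
    _ = c * (Fintype.card Ω : ℝ) * (s.card : ℝ) := by
      rw [Finset.sum_const, nsmul_eq_mul]; ring

open Classical in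
/-- pairs of sizes `(d₁, d₂+1)` with live high part -/
noncomputable def P1 (n d₁ d₂ : ℕ) (U : Finset (Finset (Fin n))) :
    Finset (Finset (Fin n) × Finset (Fin n)) := (Pr n d₁ (d₂ + 1)).filter fun p => p.2 ∈ U

open Classical in
/-- pairs of sizes `(d₁+1, d₂)` with live low part -/
noncomputable def P2 (n d₁ d₂ : ℕ) (U : Finset (Finset (Fin n))) :
    Finset (Finset (Fin n) × Finset (Fin n)) := (Pr n (d₁ + 1) d₂).filter fun p => p.1 ∈ U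

open Classical in
/-- pairs of sizes `(d₁+1, d₂+1)` with both parts live -/
noncomputable def P12 (n d₁ d₂ : ℕ) (U₁ U₂ : Finset (Finset (Fin n))) :
    Finset (Finset (Fin n) × Finset (Fin n)) :=
  (Pr n (d₁ + 1) (d₂ + 1)).filter fun p => p.1 ∈ U₁ ∧ p.2 ∈ U₂

/-- the potential -/
noncomputable def W (n d₁ d₂ : ℕ) (x y z : ℝ) (U₁ U₂ : Finset (Finset (Fin n))) : ℝ :=
  x * ((P1 n d₁ d₂ U₂).card : ℝ) + y * ((P2 n d₁ d₂ U₁).card : ℝ)
    + z * ((P12 n d₁ d₂ U₁ U₂).card : ℝ)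

open Classical in
/-- the sets of `U` that contain no member of `A` -/
noncomputable def Live {n : ℕ} (U A : Finset (Finset (Fin n))) : Finset (Finset (Fin n)) :=
  U.filter fun Y => ¬ ∃ Z ∈ A, Z ⊆ Y

open Classical in
noncomputable def C1 (n d₁ d₂ : ℕ) (U A : Finset (Finset (Fin n))) :
    Finset (Finset (Fin n) × Finset (Fin n)) := (P1 n d₁ d₂ U).filter fun p => p.1 ∈ A

open Classical in
noncomputable def C2 (n d₁ d₂ : ℕ) (U A : Finset (Finset (Fin n))) :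
    Finset (Finset (Fin n) × Finset (Fin n)) := (P2 n d₁ d₂ U).filter fun p => p.2 ∈ A

open Classical in
/-- the cost of a round plus the potential afterwards is at most the potential before minus
`z (1 - Φ₁ Φ₂) |P12|`, for a suitable outcome -/
theorem exists_round {n d₁ d₂ : ℕ} {a₁ a₂ Φ₁ Φ₂ : ℝ} {Ω₁ Ω₂ : Type} [Fintype Ω₁] [Nonempty Ω₁]
    [Fintype Ω₂] [Nonempty Ω₂] {A₁ : Ω₁ → Finset (Finset (Fin n))}
    {A₂ : Ω₂ → Finset (Finset (Fin n))}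
    (h1a : ∀ Z : Finset (Fin n), Z.card = d₁ →
      (((univ : Finset Ω₁).filter fun ω => Z ∈ A₁ ω).card : ℝ) ≤ a₁ * (Fintype.card Ω₁ : ℝ))
    (h1b : ∀ Y : Finset (Fin n), Y.card = d₁ + 1 →
      (((univ : Finset Ω₁).filter fun ω => ¬ ∃ Z ∈ A₁ ω, Z ⊆ Y).card : ℝ)
        ≤ Φ₁ * (Fintype.card Ω₁ : ℝ))
    (h2a : ∀ Z : Finset (Fin n), Z.card = d₂ →
      (((univ : Finset Ω₂).filter fun ω => Z ∈ A₂ ω).card : ℝ) ≤ a₂ * (Fintype.card Ω₂ : ℝ))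
    (h2b : ∀ Y : Finset (Fin n), Y.card = d₂ + 1 →
      (((univ : Finset Ω₂).filter fun ω => ¬ ∃ Z ∈ A₂ ω, Z ⊆ Y).card : ℝ)
        ≤ Φ₂ * (Fintype.card Ω₂ : ℝ))
    (ha2 : 0 ≤ a₂) (hp1 : 0 < Φ₁) (hp1' : Φ₁ < 1) (hp2 : 0 < Φ₂) (hp2' : Φ₂ < 1)
    (ha1 : 0 ≤ a₁) {z : ℝ} (hz : 0 < z) (U₁ U₂ : Finset (Finset (Fin n))) :
    ∃ ω₁ : Ω₁, ∃ ω₂ : Ω₂,
      ((C1 n d₁ d₂ U₂ (A₁ ω₁)).card : ℝ) + ((C2 n d₁ d₂ (Live U₁ (A₁ ω₁)) (A₂ ω₂)).card : ℝ)
        + W n d₁ d₂ (a₁ / (1 - Φ₂)) (a₂ * Φ₁ / (1 - Φ₁)) z (Live U₁ (A₁ ω₁)) (Live U₂ (A₂ ω₂))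
      ≤ W n d₁ d₂ (a₁ / (1 - Φ₂)) (a₂ * Φ₁ / (1 - Φ₁)) z U₁ U₂
        - z * (1 - Φ₁ * Φ₂) * ((P12 n d₁ d₂ U₁ U₂).card : ℝ) := by
  classical
  set x := a₁ / (1 - Φ₂) with hx
  set y := a₂ * Φ₁ / (1 - Φ₁) with hy
  have hx0 : 0 ≤ x := div_nonneg ha1 (by linarith)
  have hy0 : 0 ≤ y := div_nonneg (mul_nonneg ha2 hp1.le) (by linarith)
  have hxe : a₁ + x * Φ₂ = x := by
    have h0 : (1 - Φ₂) ≠ 0 := by linarith
    rw [hx]; field_simp; ring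
  have hye : (a₂ + y) * Φ₁ = y := by
    have h0 : (1 - Φ₁) ≠ 0 := by linarith
    rw [hy]; field_simp; ring
  have hN1 : (0 : ℝ) < (Fintype.card Ω₁ : ℝ) := by exact_mod_cast Fintype.card_pos
  have hN2 : (0 : ℝ) < (Fintype.card Ω₂ : ℝ) := by exact_mod_cast Fintype.card_pos
  -- the averages over `ω₁`
  have e1 : ∑ ω : Ω₁, ((C1 n d₁ d₂ U₂ (A₁ ω)).card : ℝ)
      ≤ a₁ * (Fintype.card Ω₁ : ℝ) * ((P1 n d₁ d₂ U₂).card : ℝ) := by
    refine sum_card_le (P1 n d₁ d₂ U₂) _ _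
      (fun p hp => h1a p.1 (mem_Pr.1 (mem_filter.1 hp).1).1) ?_
    intro ω p
    simp only [C1, mem_filter, mem_univ, true_and]
  have e2 : ∑ ω : Ω₁, ((P2 n d₁ d₂ (Live U₁ (A₁ ω))).card : ℝ)
      ≤ Φ₁ * (Fintype.card Ω₁ : ℝ) * ((P2 n d₁ d₂ U₁).card : ℝ) := by
    refine sum_card_le (P2 n d₁ d₂ U₁) _ _
      (fun p hp => h1b p.1 (mem_Pr.1 (mem_filter.1 hp).1).1) ?_
    intro ω p
    simp only [P2, Live, mem_filter, mem_univ, true_and, and_assoc]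
  have e3 : ∑ ω : Ω₁, ((P12 n d₁ d₂ (Live U₁ (A₁ ω)) U₂).card : ℝ)
      ≤ Φ₁ * (Fintype.card Ω₁ : ℝ) * ((P12 n d₁ d₂ U₁ U₂).card : ℝ) := by
    refine sum_card_le (P12 n d₁ d₂ U₁ U₂) _ _
      (fun p hp => h1b p.1 (mem_Pr.1 (mem_filter.1 hp).1).1) ?_
    intro ω p
    simp only [P12, Live, mem_filter, mem_univ, true_and]
    tauto
  -- the averages over `ω₂`
  have f1 : ∀ V : Finset (Finset (Fin n)), ∑ ω : Ω₂, ((C2 n d₁ d₂ V (A₂ ω)).card : ℝ)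
      ≤ a₂ * (Fintype.card Ω₂ : ℝ) * ((P2 n d₁ d₂ V).card : ℝ) := by
    intro V
    refine sum_card_le (P2 n d₁ d₂ V) _ _
      (fun p hp => h2a p.2 (mem_Pr.1 (mem_filter.1 hp).1).2.1) ?_
    intro ω p
    simp only [C2, mem_filter, mem_univ, true_and]
  have f2 : ∑ ω : Ω₂, ((P1 n d₁ d₂ (Live U₂ (A₂ ω))).card : ℝ)
      ≤ Φ₂ * (Fintype.card Ω₂ : ℝ) * ((P1 n d₁ d₂ U₂).card : ℝ) := by
    refine sum_card_le (P1 n d₁ d₂ U₂) _ _
      (fun p hp => h2b p.2 (mem_Pr.1 (mem_filter.1 hp).1).2.1) ?_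
    intro ω p
    simp only [P1, Live, mem_filter, mem_univ, true_and, and_assoc]
  have f3 : ∀ V : Finset (Finset (Fin n)),
      ∑ ω : Ω₂, ((P12 n d₁ d₂ V (Live U₂ (A₂ ω))).card : ℝ)
      ≤ Φ₂ * (Fintype.card Ω₂ : ℝ) * ((P12 n d₁ d₂ V U₂).card : ℝ) := by
    intro V
    refine sum_card_le (P12 n d₁ d₂ V U₂) _ _
      (fun p hp => h2b p.2 (mem_Pr.1 (mem_filter.1 hp).1).2.1) ?_
    intro ω p
    simp only [P12, Live, mem_filter, mem_univ, true_and]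
    tauto
  -- choose `ω₂` for a given `ω₁`
  have hω2 : ∀ ω₁ : Ω₁, ∃ ω₂ : Ω₂,
      ((C2 n d₁ d₂ (Live U₁ (A₁ ω₁)) (A₂ ω₂)).card : ℝ)
        + x * ((P1 n d₁ d₂ (Live U₂ (A₂ ω₂))).card : ℝ)
        + z * ((P12 n d₁ d₂ (Live U₁ (A₁ ω₁)) (Live U₂ (A₂ ω₂))).card : ℝ)
      ≤ a₂ * ((P2 n d₁ d₂ (Live U₁ (A₁ ω₁))).card : ℝ) + x * Φ₂ * ((P1 n d₁ d₂ U₂).card : ℝ)
        + z * Φ₂ * ((P12 n d₁ d₂ (Live U₁ (A₁ ω₁)) U₂).card : ℝ) := by
    intro ω₁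
    by_contra hcon
    push Not at hcon
    have hs := Finset.sum_lt_sum_of_nonempty (s := (univ : Finset Ω₂)) univ_nonempty
      (fun ω _ => hcon ω)
    rw [Finset.sum_const, nsmul_eq_mul, card_univ, Finset.sum_add_distrib,
      Finset.sum_add_distrib, ← Finset.mul_sum, ← Finset.mul_sum] at hs
    have g1 := f1 (Live U₁ (A₁ ω₁))
    have g2 := mul_le_mul_of_nonneg_left f2 hx0
    have g3 := mul_le_mul_of_nonneg_left (f3 (Live U₁ (A₁ ω₁))) hz.le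
    have : (Fintype.card Ω₂ : ℝ) * (a₂ * ((P2 n d₁ d₂ (Live U₁ (A₁ ω₁))).card : ℝ)
        + x * Φ₂ * ((P1 n d₁ d₂ U₂).card : ℝ)
        + z * Φ₂ * ((P12 n d₁ d₂ (Live U₁ (A₁ ω₁)) U₂).card : ℝ))
      = a₂ * (Fintype.card Ω₂ : ℝ) * ((P2 n d₁ d₂ (Live U₁ (A₁ ω₁))).card : ℝ)
        + x * (Φ₂ * (Fintype.card Ω₂ : ℝ) * ((P1 n d₁ d₂ U₂).card : ℝ))
        + z * (Φ₂ * (Fintype.card Ω₂ : ℝ)
          * ((P12 n d₁ d₂ (Live U₁ (A₁ ω₁)) U₂).card : ℝ)) := by ring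
    linarith
  -- choose `ω₁`
  have hω1 : ∃ ω₁ : Ω₁,
      ((C1 n d₁ d₂ U₂ (A₁ ω₁)).card : ℝ)
        + (a₂ + y) * ((P2 n d₁ d₂ (Live U₁ (A₁ ω₁))).card : ℝ)
        + z * Φ₂ * ((P12 n d₁ d₂ (Live U₁ (A₁ ω₁)) U₂).card : ℝ)
      ≤ a₁ * ((P1 n d₁ d₂ U₂).card : ℝ) + y * ((P2 n d₁ d₂ U₁).card : ℝ)
        + z * Φ₂ * Φ₁ * ((P12 n d₁ d₂ U₁ U₂).card : ℝ) := by
    by_contra hcon
    push Not at hcon
    have hs := Finset.sum_lt_sum_of_nonempty (s := (univ : Finset Ω₁)) univ_nonempty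
      (fun ω _ => hcon ω)
    rw [Finset.sum_const, nsmul_eq_mul, card_univ, Finset.sum_add_distrib,
      Finset.sum_add_distrib, ← Finset.mul_sum, ← Finset.mul_sum] at hs
    have g2 := mul_le_mul_of_nonneg_left e2 (add_nonneg ha2 hy0)
    have g3 := mul_le_mul_of_nonneg_left e3 (mul_nonneg hz.le hp2.le)
    have h2 : (a₂ + y) * (Φ₁ * (Fintype.card Ω₁ : ℝ) * ((P2 n d₁ d₂ U₁).card : ℝ))
        = y * (Fintype.card Ω₁ : ℝ) * ((P2 n d₁ d₂ U₁).card : ℝ) := by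
      calc (a₂ + y) * (Φ₁ * (Fintype.card Ω₁ : ℝ) * ((P2 n d₁ d₂ U₁).card : ℝ))
          = ((a₂ + y) * Φ₁) * (Fintype.card Ω₁ : ℝ) * ((P2 n d₁ d₂ U₁).card : ℝ) := by ring
        _ = _ := by rw [hye]
    have : (Fintype.card Ω₁ : ℝ) * (a₁ * ((P1 n d₁ d₂ U₂).card : ℝ)
        + y * ((P2 n d₁ d₂ U₁).card : ℝ) + z * Φ₂ * Φ₁ * ((P12 n d₁ d₂ U₁ U₂).card : ℝ))
      = a₁ * (Fintype.card Ω₁ : ℝ) * ((P1 n d₁ d₂ U₂).card : ℝ)
        + y * (Fintype.card Ω₁ : ℝ) * ((P2 n d₁ d₂ U₁).card : ℝ)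
        + z * Φ₂ * (Φ₁ * (Fintype.card Ω₁ : ℝ) * ((P12 n d₁ d₂ U₁ U₂).card : ℝ)) := by ring
    linarith
  obtain ⟨ω₁, hω1⟩ := hω1
  obtain ⟨ω₂, hω2⟩ := hω2 ω₁
  refine ⟨ω₁, ω₂, ?_⟩
  simp only [W]
  have hq : a₁ * ((P1 n d₁ d₂ U₂).card : ℝ) + x * Φ₂ * ((P1 n d₁ d₂ U₂).card : ℝ)
      = x * ((P1 n d₁ d₂ U₂).card : ℝ) := by
    rw [← add_mul, hxe]
  nlinarith [hω1, hω2, hq]

/-- the potential argument -/
theorem potential {n d₁ d₂ : ℕ} {a₁ a₂ Φ₁ Φ₂ : ℝ} (h1 : Rnd n d₁ a₁ Φ₁)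
    (h2 : Rnd n d₂ a₂ Φ₂) (ha1 : 0 ≤ a₁) (ha2 : 0 ≤ a₂) (hp1 : 0 < Φ₁) (hp1' : Φ₁ < 1)
    (hp2 : 0 < Φ₂) (hp2' : Φ₂ < 1) {z : ℝ} (hz : 0 < z) :
    ∀ N : ℕ, ∀ U₁ U₂ : Finset (Finset (Fin n)),
      W n d₁ d₂ (a₁ / (1 - Φ₂)) (a₂ * Φ₁ / (1 - Φ₁)) z U₁ U₂ ≤ (N : ℝ) * (z * (1 - Φ₁ * Φ₂)) →
      ∃ T : Finset (Finset (Fin n)), (∀ Z ∈ T, Z.card = d₁ + d₂ + 1) ∧
        (∀ p ∈ P12 n d₁ d₂ U₁ U₂, ∃ Z ∈ T, Z ⊆ p.1 ∪ p.2) ∧
        (T.card : ℝ) ≤ W n d₁ d₂ (a₁ / (1 - Φ₂)) (a₂ * Φ₁ / (1 - Φ₁)) z U₁ U₂ := by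
  classical
  have hx0 : 0 ≤ a₁ / (1 - Φ₂) := div_nonneg ha1 (by linarith)
  have hy0 : 0 ≤ a₂ * Φ₁ / (1 - Φ₁) := div_nonneg (mul_nonneg ha2 hp1.le) (by linarith)
  have hpp : 0 < 1 - Φ₁ * Φ₂ := by nlinarith
  have hW0 : ∀ U₁ U₂ : Finset (Finset (Fin n)),
      0 ≤ W n d₁ d₂ (a₁ / (1 - Φ₂)) (a₂ * Φ₁ / (1 - Φ₁)) z U₁ U₂ := by
    intro U₁ U₂
    unfold W
    positivity
  obtain ⟨Ω₁, _, _, A₁, c1, h1a, h1b⟩ := h1
  obtain ⟨Ω₂, _, _, A₂, c2, h2a, h2b⟩ := h2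
  intro N
  induction N with
  | zero =>
    intro U₁ U₂ hN
    refine ⟨∅, by simp, ?_, by simpa using hW0 U₁ U₂⟩
    intro p hp
    exfalso
    have hc : (1 : ℝ) ≤ ((P12 n d₁ d₂ U₁ U₂).card : ℝ) := by
      exact_mod_cast Finset.card_pos.2 ⟨p, hp⟩
    have : z * 1 ≤ W n d₁ d₂ (a₁ / (1 - Φ₂)) (a₂ * Φ₁ / (1 - Φ₁)) z U₁ U₂ := by
      unfold W
      have := mul_le_mul_of_nonneg_left hc hz.le
      have t1 : 0 ≤ a₁ / (1 - Φ₂) * ((P1 n d₁ d₂ U₂).card : ℝ) := by positivity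
      have t2 : 0 ≤ a₂ * Φ₁ / (1 - Φ₁) * ((P2 n d₁ d₂ U₁).card : ℝ) := by positivity
      linarith
    simp only [Nat.cast_zero, zero_mul] at hN
    linarith
  | succ N ih =>
    intro U₁ U₂ hN
    by_cases hP : (P12 n d₁ d₂ U₁ U₂).card = 0
    · refine ⟨∅, by simp, ?_, by simpa using hW0 U₁ U₂⟩
      intro p hp
      exfalso
      rw [Finset.card_eq_zero] at hP
      rw [hP] at hp
      simp at hp
    · have hc : (1 : ℝ) ≤ ((P12 n d₁ d₂ U₁ U₂).card : ℝ) := by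
        exact_mod_cast Nat.one_le_iff_ne_zero.2 hP
      obtain ⟨ω₁, ω₂, hr⟩ := exists_round h1a h1b h2a h2b ha2 hp1 hp1' hp2 hp2' ha1 hz U₁ U₂
      have hzc : z * (1 - Φ₁ * Φ₂) ≤ z * (1 - Φ₁ * Φ₂) * ((P12 n d₁ d₂ U₁ U₂).card : ℝ) := by
        have : 0 ≤ z * (1 - Φ₁ * Φ₂) := by positivity
        nlinarith
      have n1 : (0 : ℝ) ≤ ((C1 n d₁ d₂ U₂ (A₁ ω₁)).card : ℝ) := by positivity
      have n2 : (0 : ℝ) ≤ ((C2 n d₁ d₂ (Live U₁ (A₁ ω₁)) (A₂ ω₂)).card : ℝ) := by positivity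
      obtain ⟨T, hT1, hT2, hT3⟩ := ih (Live U₁ (A₁ ω₁)) (Live U₂ (A₂ ω₂)) (by
        push_cast at hN
        linarith)
      refine ⟨T ∪ ((C1 n d₁ d₂ U₂ (A₁ ω₁)).image fun p => p.1 ∪ p.2)
        ∪ ((C2 n d₁ d₂ (Live U₁ (A₁ ω₁)) (A₂ ω₂)).image fun p => p.1 ∪ p.2), ?_, ?_, ?_⟩
      · intro Z hZ
        rw [mem_union, mem_union] at hZ
        rcases hZ with (hZ | hZ) | hZ
        · exact hT1 Z hZ
        · obtain ⟨p, hp, rfl⟩ := mem_image.1 hZ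
          have := card_union_of_mem_Pr (mem_filter.1 (mem_filter.1 hp).1).1
          rw [this]; ring
        · obtain ⟨p, hp, rfl⟩ := mem_image.1 hZ
          have := card_union_of_mem_Pr (mem_filter.1 (mem_filter.1 hp).1).1
          rw [this]; ring
      · intro p hp
        have hp0 := mem_filter.1 hp
        have hpr := mem_Pr.1 hp0.1
        by_cases q1 : ∃ Z ∈ A₁ ω₁, Z ⊆ p.1
        · obtain ⟨Z, hZ, hZp⟩ := q1
          refine ⟨Z ∪ p.2, ?_, Finset.union_subset_union_left hZp⟩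
          rw [mem_union, mem_union]
          refine Or.inl (Or.inr (mem_image.2 ⟨(Z, p.2), ?_, rfl⟩))
          refine mem_filter.2 ⟨mem_filter.2 ⟨mem_Pr.2 ⟨c1 ω₁ Z hZ, hpr.2.1, ?_⟩, hp0.2.2⟩, hZ⟩
          intro x hx y hy
          exact hpr.2.2 x (hZp hx) y hy
        · by_cases q2 : ∃ Z ∈ A₂ ω₂, Z ⊆ p.2
          · obtain ⟨Z, hZ, hZp⟩ := q2
            refine ⟨p.1 ∪ Z, ?_, Finset.union_subset_union_right hZp⟩
            rw [mem_union, mem_union]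
            refine Or.inr (mem_image.2 ⟨(p.1, Z), ?_, rfl⟩)
            refine mem_filter.2 ⟨mem_filter.2 ⟨mem_Pr.2 ⟨hpr.1, c2 ω₂ Z hZ, ?_⟩, ?_⟩, hZ⟩
            · intro x hx y hy
              exact hpr.2.2 x hx y (hZp hy)
            · exact mem_filter.2 ⟨hp0.2.1, q1⟩
          · obtain ⟨Z, hZ, hZp⟩ := hT2 p (mem_filter.2 ⟨hp0.1, mem_filter.2 ⟨hp0.2.1, q1⟩,
              mem_filter.2 ⟨hp0.2.2, q2⟩⟩)
            exact ⟨Z, by rw [mem_union, mem_union]; exact Or.inl (Or.inl hZ), hZp⟩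
      · have k1 : (T ∪ ((C1 n d₁ d₂ U₂ (A₁ ω₁)).image fun p => p.1 ∪ p.2)
            ∪ ((C2 n d₁ d₂ (Live U₁ (A₁ ω₁)) (A₂ ω₂)).image fun p => p.1 ∪ p.2)).card
            ≤ T.card + (C1 n d₁ d₂ U₂ (A₁ ω₁)).card
              + (C2 n d₁ d₂ (Live U₁ (A₁ ω₁)) (A₂ ω₂)).card := by
          refine le_trans (card_union_le _ _) ?_
          refine Nat.add_le_add ?_ card_image_le
          refine le_trans (card_union_le _ _) ?_
          exact Nat.add_le_add le_rfl card_image_le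
        have k2 : ((T ∪ ((C1 n d₁ d₂ U₂ (A₁ ω₁)).image fun p => p.1 ∪ p.2)
            ∪ ((C2 n d₁ d₂ (Live U₁ (A₁ ω₁)) (A₂ ω₂)).image fun p => p.1 ∪ p.2)).card : ℝ)
            ≤ (T.card : ℝ) + ((C1 n d₁ d₂ U₂ (A₁ ω₁)).card : ℝ)
              + ((C2 n d₁ d₂ (Live U₁ (A₁ ω₁)) (A₂ ω₂)).card : ℝ) := by exact_mod_cast k1
        have k3 : 0 ≤ z * (1 - Φ₁ * Φ₂) * ((P12 n d₁ d₂ U₁ U₂).card : ℝ) := by positivity
        linarith

end Two

/-- task T4 -/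
theorem two_part {d₁ d₂ : ℕ} {a₁ a₂ Φ₁ Φ₂ : ℝ} (h1 : ∀ n, Rnd n d₁ a₁ Φ₁)
    (h2 : ∀ n, Rnd n d₂ a₂ Φ₂) (ha1 : 0 ≤ a₁) (ha2 : 0 ≤ a₂) (hp1 : 0 < Φ₁) (hp1' : Φ₁ < 1)
    (hp2 : 0 < Φ₂) (hp2' : Φ₂ < 1) {ε : ℝ} (hε : 0 < ε) :
    Tur (d₁ + d₂ + 1) (a₁ / (1 - Φ₂) + a₂ * Φ₁ / (1 - Φ₁) + ε) := by
  classical
  intro n
  have hx0 : 0 ≤ a₁ / (1 - Φ₂) := div_nonneg ha1 (by linarith)
  have hy0 : 0 ≤ a₂ * Φ₁ / (1 - Φ₁) := div_nonneg (mul_nonneg ha2 hp1.le) (by linarith)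
  have hpp : 0 < 1 - Φ₁ * Φ₂ := by nlinarith
  by_cases hn : n < d₁ + d₂ + 2
  · -- no set to be covered
    refine ⟨∅, by simp, ?_, ?_⟩
    · intro Y hY
      exfalso
      have := Finset.card_le_univ Y
      rw [Fintype.card_fin, hY] at this
      omega
    · simp only [card_empty, Nat.cast_zero]
      positivity
  · push Not at hn
    have hc0 : 0 < n.choose (d₁ + d₂ + 1) := Nat.choose_pos (by omega)
    have hc0' : (0 : ℝ) < (n.choose (d₁ + d₂ + 1) : ℝ) := by exact_mod_cast hc0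
    have hc1 : 0 < n.choose (d₁ + d₂ + 2) := Nat.choose_pos (by omega)
    have hc1' : (0 : ℝ) < (n.choose (d₁ + d₂ + 2) : ℝ) := by exact_mod_cast hc1
    set z : ℝ := ε * (n.choose (d₁ + d₂ + 1) : ℝ) / (n.choose (d₁ + d₂ + 2) : ℝ) with hz
    have hz0 : 0 < z := by positivity
    obtain ⟨N, hN⟩ := exists_nat_ge (Two.W n d₁ d₂ (a₁ / (1 - Φ₂)) (a₂ * Φ₁ / (1 - Φ₁)) z
      univ univ / (z * (1 - Φ₁ * Φ₂)))
    have hN' : Two.W n d₁ d₂ (a₁ / (1 - Φ₂)) (a₂ * Φ₁ / (1 - Φ₁)) z univ univ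
        ≤ (N : ℝ) * (z * (1 - Φ₁ * Φ₂)) := by
      rwa [div_le_iff₀ (by positivity)] at hN
    obtain ⟨T, hT1, hT2, hT3⟩ := Two.potential (h1 n) (h2 n) ha1 ha2 hp1 hp1' hp2 hp2' hz0 N
      univ univ hN'
    refine ⟨T, hT1, ?_, ?_⟩
    · intro Y hY
      obtain ⟨p, hp, hpY⟩ := Two.exists_pair (a := d₁ + 1) (b := d₂ + 1) Y (by omega)
      obtain ⟨Z, hZ, hZp⟩ := hT2 p (mem_filter.2 ⟨hp, mem_univ _, mem_univ _⟩)
      exact ⟨Z, hZ, by rw [← hpY]; exact hZp⟩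
    · refine le_trans hT3 ?_
      unfold Two.W
      have b1 : ((Two.P1 n d₁ d₂ univ).card : ℝ) ≤ (n.choose (d₁ + d₂ + 1) : ℝ) := by
        have : (Two.P1 n d₁ d₂ univ).card ≤ _ :=
          le_trans (Finset.card_filter_le _ _) (Two.Pr_card_le n d₁ (d₂ + 1))
        exact_mod_cast this
      have b2 : ((Two.P2 n d₁ d₂ univ).card : ℝ) ≤ (n.choose (d₁ + d₂ + 1) : ℝ) := by
        have : (Two.P2 n d₁ d₂ univ).card ≤ _ :=
          le_trans (Finset.card_filter_le _ _) (Two.Pr_card_le n (d₁ + 1) d₂)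
        rw [show d₁ + 1 + d₂ = d₁ + d₂ + 1 by ring] at this
        exact_mod_cast this
      have b3 : ((Two.P12 n d₁ d₂ univ univ).card : ℝ) ≤ (n.choose (d₁ + d₂ + 2) : ℝ) := by
        have : (Two.P12 n d₁ d₂ univ univ).card ≤ _ :=
          le_trans (Finset.card_filter_le _ _) (Two.Pr_card_le n (d₁ + 1) (d₂ + 1))
        rw [show d₁ + 1 + (d₂ + 1) = d₁ + d₂ + 2 by ring] at this
        exact_mod_cast this
      have hz2 : z * (n.choose (d₁ + d₂ + 2) : ℝ) = ε * (n.choose (d₁ + d₂ + 1) : ℝ) := by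
        rw [hz]; field_simp
      have g1 := mul_le_mul_of_nonneg_left b1 hx0
      have g2 := mul_le_mul_of_nonneg_left b2 hy0
      have g3 := mul_le_mul_of_nonneg_left b3 hz0.le
      calc _ ≤ a₁ / (1 - Φ₂) * (n.choose (d₁ + d₂ + 1) : ℝ)
            + a₂ * Φ₁ / (1 - Φ₁) * (n.choose (d₁ + d₂ + 1) : ℝ)
            + z * (n.choose (d₁ + d₂ + 2) : ℝ) := by linarith
        _ = _ := by rw [hz2]; ring

end Pool.Agent.H369R2.TD
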