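import Pool.Agent.H369R2.TD.Basic
import Pool.Agent.H369R2.TD.Det
import Pool.Agent.H369R2.TD.Two
import Pool.Agent.H369R2.TD.Prime
import Pool.Agent.H369R2.TD.Bin

open Finset Filter

namespace Pool.Agent.H369R2.TD

/-- one part: for large `d` there is a code with the asymptotic parameters -/
theorem one_part {δ c : ℕ → ℝ} {J : ℕ} {K : ℝ} (hδ : ∀ m, Tur m (δ m)) (h0 : ∀ m, 0 ≤ δ m)
    (hc0 : c 0 = 0) (hc : ∀ m, m + 1 < J → ((m : ℝ) + 1) * δ m ≤ c (m + 1))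
    (hK : ∀ m : ℕ, ((m : ℝ) + 1) * δ m ≤ K) (hJ : 1 ≤ J)
    {y x D P η : ℝ} (hy : 0 < y) (hx : y < x) (hη : 0 < η)
    (hD : Real.exp (-y) * Psi J c K x ≤ D) (hP : Real.exp (-y) ≤ P) :
    0 ≤ D ∧ ∀ᶠ d : ℕ in atTop, ∃ a Φ : ℝ, (∀ n, Rnd n d a Φ) ∧ 0 ≤ a ∧ 0 < Φ ∧ Φ ≤ P ∧
      ((d : ℝ) + 1) * a ≤ (1 + η) * D := by
  have key : ∀ᶠ d : ℕ in atTop, 0 ≤ D ∧ ∃ a Φ : ℝ, (∀ n, Rnd n d a Φ) ∧ 0 ≤ a ∧ 0 < Φ ∧ Φ ≤ P ∧
      ((d : ℝ) + 1) * a ≤ (1 + η) * D := by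
    filter_upwards [exists_q' hy hx (2 + 1 / η)] with d hd
    obtain ⟨q, hqp, hQ, h1, h2⟩ := hd
    have hηi : 0 < 1 / η := by positivity
    have hq2 : 2 ≤ q := hqp.two_le
    have hq1 : (0 : ℝ) < (q : ℝ) - 1 := by
      have : (2 : ℝ) ≤ q := by exact_mod_cast hq2
      linarith
    have : Fact q.Prime := ⟨hqp⟩
    have hA := detA_le (d := d) (q := q) (x := x) hq2 h0 hc0 hc hK h1 hJ h2
    have hA0 : 0 ≤ detA d q δ := detA_nonneg hq2 h0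
    have hqq : 0 < (q : ℝ) / ((q : ℝ) - 1) := by
      apply div_pos _ hq1
      linarith
    have hA1 : ((d : ℝ) + 1) * detA d q δ ≤ (q : ℝ) / ((q : ℝ) - 1) * D :=
      hA.trans (mul_le_mul_of_nonneg_left hD hqq.le)
    have hD0 : 0 ≤ D := by
      have : 0 ≤ (q : ℝ) / ((q : ℝ) - 1) * D := le_trans (by positivity) hA1
      exact nonneg_of_mul_nonneg_right this hqq
    refine ⟨hD0, detA d q δ, detF d q, fun n => ?_, hA0, detF_pos hq2, (detF_le hq2 h1).trans hP,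
      hA1.trans (mul_le_mul_of_nonneg_right ?_ hD0)⟩
    · have h := det_rnd (ZMod q) (d := d) (δ := δ) (fun m _ => hδ m) n
      simpa [ZMod.card] using h
    · rw [div_le_iff₀ hq1]
      have : 1 / η * η = 1 := by field_simp
      nlinarith [mul_le_mul_of_nonneg_left hQ hη.le]
  exact ⟨(key.exists.choose_spec).1, key.mono fun d hd => hd.2⟩

theorem asymptotic {δ c : ℕ → ℝ} {J : ℕ} {K : ℝ} (hδ : ∀ m, Tur m (δ m)) (h0 : ∀ m, 0 ≤ δ m)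
    (hc0 : c 0 = 0) (hc : ∀ m, m + 1 < J → ((m : ℝ) + 1) * δ m ≤ c (m + 1))
    (hK : ∀ m : ℕ, ((m : ℝ) + 1) * δ m ≤ K) (hJ : 1 ≤ J)
    {y₁ x₁ y₂ x₂ lam D₁ D₂ P₁ P₂ V : ℝ} (hy1 : 0 < y₁) (hx1 : y₁ < x₁) (hy2 : 0 < y₂)
    (hx2 : y₂ < x₂) (hl0 : 0 < lam) (hl1 : lam < 1)
    (hD1 : Real.exp (-y₁) * Psi J c K x₁ ≤ D₁) (hD2 : Real.exp (-y₂) * Psi J c K x₂ ≤ D₂)
    (hP1 : Real.exp (-y₁) ≤ P₁) (hP1' : P₁ < 1) (hP2 : Real.exp (-y₂) ≤ P₂) (hP2' : P₂ < 1)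
    (hV : D₁ / (lam * (1 - P₂)) + D₂ * P₁ / ((1 - lam) * (1 - P₁)) < V) :
    ∀ᶠ r : ℕ in atTop, Tur r (V / ((r : ℝ) + 1)) := by
  set W := D₁ / (lam * (1 - P₂)) + D₂ * P₁ / ((1 - lam) * (1 - P₁)) with hW
  obtain ⟨η, hη, hηV⟩ : ∃ η : ℝ, 0 < η ∧ (1 + η) ^ 2 * W < V := by
    have hcont : Tendsto (fun η : ℝ => (1 + η) ^ 2 * W) (nhdsWithin 0 (Set.Ioi 0))
        (nhds ((1 + 0) ^ 2 * W)) := by
      apply Tendsto.mono_left _ nhdsWithin_le_nhds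
      exact (Continuous.tendsto (f := fun η : ℝ => (1 + η) ^ 2 * W) (by fun_prop) 0)
    have h1 : (1 + (0 : ℝ)) ^ 2 * W < V := by simpa using hV
    have h2 := (hcont.eventually_lt_const h1).and self_mem_nhdsWithin
    obtain ⟨η, h3, h4⟩ := h2.exists
    exact ⟨η, h4, h3⟩
  obtain ⟨hD10, e1⟩ := one_part hδ h0 hc0 hc hK hJ hy1 hx1 hη hD1 hP1
  obtain ⟨hD20, e2⟩ := one_part hδ h0 hc0 hc hK hJ hy2 hx2 hη hD2 hP2
  have hP10 : 0 < P₁ := (Real.exp_pos _).trans_le hP1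
  have hP20 : 0 < P₂ := (Real.exp_pos _).trans_le hP2
  have h1l : 0 < 1 - lam := by linarith
  let h : ℕ → ℕ := fun r => ⌊lam * ((r : ℝ) + 1)⌋₊
  have hcast : Tendsto (fun r : ℕ => ((r : ℝ) + 1)) atTop atTop :=
    tendsto_atTop_add_const_right _ _ tendsto_natCast_atTop_atTop
  have hle : ∀ r : ℕ, (h r : ℝ) ≤ lam * ((r : ℝ) + 1) := fun r =>
    Nat.floor_le (by positivity)
  have hge : ∀ r : ℕ, lam * ((r : ℝ) + 1) < (h r : ℝ) + 1 := fun r => Nat.lt_floor_add_one _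
  have hlim : Tendsto h atTop atTop :=
    tendsto_nat_floor_atTop.comp (hcast.const_mul_atTop hl0)
  have hlim1 : Tendsto (fun r => h r - 1) atTop atTop := by
    refine tendsto_atTop.2 fun b => ?_
    filter_upwards [tendsto_atTop.1 hlim (b + 1)] with r hr
    omega
  have hlim2 : Tendsto (fun r => r - h r) atTop atTop := by
    refine tendsto_atTop.2 fun b => ?_
    filter_upwards [tendsto_atTop.1 (hcast.const_mul_atTop h1l) ((b : ℝ) + 1)] with r hr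
    have h3 := hle r
    have h4 : ((b : ℝ) + h r) ≤ r := by nlinarith
    have h5 : b + h r ≤ r := by exact_mod_cast h4
    omega
  filter_upwards [hlim1.eventually e1, hlim2.eventually e2, tendsto_atTop.1 hlim 1,
    tendsto_atTop.1 hlim2 1, tendsto_atTop.1 hcast ((1 + η) / (η * lam))] with r f1 f2 f3 f4 f5
  obtain ⟨a₁, Φ₁, g1, ga1, gp1, gP1, gD1⟩ := f1
  obtain ⟨a₂, Φ₂, g2, ga2, gp2, gP2, gD2⟩ := f2
  have hr : (h r - 1) + (r - h r) + 1 = r := by omega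
  have hhr : h r ≤ r := by omega
  have c1 : (((h r - 1 : ℕ) : ℝ) + 1) = (h r : ℝ) := by
    rw [Nat.cast_sub f3]; simp
  have c2 : (((r - h r : ℕ) : ℝ) + 1) = (r : ℝ) + 1 - (h r : ℝ) := by
    rw [Nat.cast_sub hhr]; ring
  rw [c1] at gD1
  rw [c2] at gD2
  have hr0 : (0 : ℝ) < (r : ℝ) + 1 := by positivity
  have hh0 : (0 : ℝ) < (h r : ℝ) := by exact_mod_cast f3
  have hh1 : (0 : ℝ) < (r : ℝ) + 1 - (h r : ℝ) := by
    have : (h r : ℝ) ≤ r := by exact_mod_cast hhr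
    linarith
  have r1 : ((r : ℝ) + 1) * lam ≤ (1 + η) * h r := by
    have h6 := hge r
    have h7 : (1 + η) ≤ ((r : ℝ) + 1) * (η * lam) := by
      rwa [div_le_iff₀ (by positivity)] at f5
    nlinarith
  have r2 : ((r : ℝ) + 1) * (1 - lam) ≤ (1 + η) * ((r : ℝ) + 1 - h r) := by
    have h6 := hle r
    nlinarith
  have b1 : ((r : ℝ) + 1) * a₁ ≤ (1 + η) ^ 2 * D₁ / lam := by
    rw [le_div_iff₀ hl0]
    calc ((r : ℝ) + 1) * a₁ * lam = (((r : ℝ) + 1) * lam) * a₁ := by ring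
      _ ≤ ((1 + η) * h r) * a₁ := mul_le_mul_of_nonneg_right r1 ga1
      _ = (1 + η) * ((h r : ℝ) * a₁) := by ring
      _ ≤ (1 + η) * ((1 + η) * D₁) := mul_le_mul_of_nonneg_left gD1 (by positivity)
      _ = (1 + η) ^ 2 * D₁ := by ring
  have b2 : ((r : ℝ) + 1) * a₂ ≤ (1 + η) ^ 2 * D₂ / (1 - lam) := by
    rw [le_div_iff₀ h1l]
    calc ((r : ℝ) + 1) * a₂ * (1 - lam) = (((r : ℝ) + 1) * (1 - lam)) * a₂ := by ring
      _ ≤ ((1 + η) * ((r : ℝ) + 1 - h r)) * a₂ := mul_le_mul_of_nonneg_right r2 ga2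
      _ = (1 + η) * (((r : ℝ) + 1 - h r) * a₂) := by ring
      _ ≤ (1 + η) * ((1 + η) * D₂) := mul_le_mul_of_nonneg_left gD2 (by positivity)
      _ = (1 + η) ^ 2 * D₂ := by ring
  have hε : 0 < (V - (1 + η) ^ 2 * W) / ((r : ℝ) + 1) := div_pos (by linarith) hr0
  have hT := two_part g1 g2 ga1 ga2 gp1 (gP1.trans_lt hP1') gp2 (gP2.trans_lt hP2') hε
  rw [hr] at hT
  refine hT.mono ?_
  have p1 : 0 < 1 - P₁ := by linarith
  have p2 : 0 < 1 - P₂ := by linarith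
  have q1 : 0 < 1 - Φ₁ := by linarith
  have q2 : 0 < 1 - Φ₂ := by linarith
  rw [le_div_iff₀ hr0]
  have t1 : ((r : ℝ) + 1) * (a₁ / (1 - Φ₂)) ≤ (1 + η) ^ 2 * (D₁ / (lam * (1 - P₂))) := by
    calc ((r : ℝ) + 1) * (a₁ / (1 - Φ₂)) = (((r : ℝ) + 1) * a₁) / (1 - Φ₂) := by ring
      _ ≤ ((1 + η) ^ 2 * D₁ / lam) / (1 - P₂) := by
          apply div_le_div₀ (by positivity) b1 p2
          linarith
      _ = (1 + η) ^ 2 * (D₁ / (lam * (1 - P₂))) := by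
          rw [div_div, mul_div_assoc]
  have t2 : ((r : ℝ) + 1) * (a₂ * Φ₁ / (1 - Φ₁)) ≤
      (1 + η) ^ 2 * (D₂ * P₁ / ((1 - lam) * (1 - P₁))) := by
    calc ((r : ℝ) + 1) * (a₂ * Φ₁ / (1 - Φ₁)) = ((((r : ℝ) + 1) * a₂) * Φ₁) / (1 - Φ₁) := by ring
      _ ≤ ((1 + η) ^ 2 * D₂ / (1 - lam) * P₁) / (1 - P₁) := by
          apply div_le_div₀ (by positivity) _ p1 (by linarith)
          exact mul_le_mul b2 gP1 gp1.le (by positivity)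
      _ = (1 + η) ^ 2 * (D₂ * P₁ / ((1 - lam) * (1 - P₁))) := by
          field_simp
  have t3 : (V - (1 + η) ^ 2 * W) / ((r : ℝ) + 1) * ((r : ℝ) + 1) = V - (1 + η) ^ 2 * W := by
    field_simp
  have t4 : (1 + η) ^ 2 * W = (1 + η) ^ 2 * (D₁ / (lam * (1 - P₂))) +
      (1 + η) ^ 2 * (D₂ * P₁ / ((1 - lam) * (1 - P₁))) := by rw [hW]; ring
  nlinarith

end Pool.Agent.H369R2.TD
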