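import Pool.Agent.H369R2.TD.Defs

/-!
# Elementary properties of `Tur` (task T1; written by helper990)
-/

open Finset

namespace Pool.Agent.H369R2.TD

theorem Tur.mono {k : ℕ} {δ δ' : ℝ} (h : Tur k δ) (hd : δ ≤ δ') : Tur k δ' := by
  intro n
  obtain ⟨T, h1, h2, h3⟩ := h n
  refine ⟨T, h1, h2, h3.trans ?_⟩
  gcongr

private theorem sum_choose_fin (n k : ℕ) :
    ∑ v : Fin n, ((v : ℕ).choose k : ℝ) = (n.choose (k + 1) : ℝ) := by
  rw [Fin.sum_univ_eq_sum_range (fun v => (v.choose k : ℝ)) n]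
  induction n with
  | zero => simp
  | succ n ih =>
    rw [Finset.sum_range_succ, ih, Nat.choose_succ_succ]
    push_cast
    ring

/-- `t(k+2,k+1) ≤ t(k+1,k)` -/
theorem Tur.succ {k : ℕ} {δ : ℝ} (h : Tur k δ) : Tur (k + 1) δ := by
  classical
  intro n
  choose T hT1 hT2 hT3 using h
  let emb : ∀ v : Fin n, Fin (v : ℕ) ↪ Fin n := fun v => Fin.castLEEmb v.isLt.le
  have hemb : ∀ (v : Fin n) (x : Fin (v : ℕ)), emb v x < v := by
    intro v x
    simp only [emb, Fin.castLEEmb_apply, Fin.lt_def, Fin.val_castLE]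
    exact x.isLt
  refine ⟨univ.biUnion fun v : Fin n => (T v).image fun Z => insert v (Z.map (emb v)), ?_, ?_, ?_⟩
  · intro Z hZ
    simp only [mem_biUnion, mem_univ, true_and, mem_image] at hZ
    obtain ⟨v, Z', hZ', rfl⟩ := hZ
    have hv : v ∉ Z'.map (emb v) := by
      intro hv
      rw [mem_map] at hv
      obtain ⟨x, _, hx⟩ := hv
      have := hemb v x
      rw [hx] at this
      exact lt_irrefl _ this
    rw [card_insert_of_notMem hv, card_map, hT1 _ Z' hZ']
  · intro Y hY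
    have hne : Y.Nonempty := by
      rw [← card_pos, hY]; omega
    set v := Y.max' hne with hv
    have hvY : v ∈ Y := Y.max'_mem hne
    have hE : (Y.erase v).card = k + 1 := by
      rw [card_erase_of_mem hvY, hY]; rfl
    let Y' : Finset (Fin (v : ℕ)) := univ.filter fun x => emb v x ∈ Y.erase v
    have hY'map : Y'.map (emb v) = Y.erase v := by
      ext y
      simp only [Y', mem_map, mem_filter, mem_univ, true_and]
      constructor
      · rintro ⟨x, hx, rfl⟩
        exact hx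
      · intro hy
        have hyv : y < v := by
          have h1 := mem_erase.1 hy
          exact lt_of_le_of_ne (Y.le_max' y h1.2) h1.1
        refine ⟨⟨y, hyv⟩, ?_, ?_⟩
        · have : emb v ⟨y, hyv⟩ = y := by
            apply Fin.ext
            simp [emb]
          rw [this]
          exact hy
        · apply Fin.ext
          simp [emb]
    have hY'c : Y'.card = k + 1 := by
      rw [← card_map (emb v), hY'map, hE]
    obtain ⟨Z, hZ, hZY⟩ := hT2 v Y' hY'c
    refine ⟨insert v (Z.map (emb v)), ?_, ?_⟩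
    · simp only [mem_biUnion, mem_univ, true_and, mem_image]
      exact ⟨v, Z, hZ, rfl⟩
    · rw [insert_subset_iff]
      refine ⟨hvY, ?_⟩
      calc Z.map (emb v) ⊆ Y'.map (emb v) := map_subset_map.2 hZY
        _ = Y.erase v := hY'map
        _ ⊆ Y := erase_subset _ _
  · calc (((univ.biUnion fun v : Fin n => (T v).image fun Z => insert v (Z.map (emb v))).card : ℕ) : ℝ)
        ≤ ((∑ v : Fin n, ((T v).image fun Z => insert v (Z.map (emb v))).card : ℕ) : ℝ) := by
          exact_mod_cast card_biUnion_le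
      _ ≤ ((∑ v : Fin n, (T (v : ℕ)).card : ℕ) : ℝ) := by
          exact_mod_cast sum_le_sum fun v _ => card_image_le
      _ = ∑ v : Fin n, ((T (v : ℕ)).card : ℝ) := by push_cast; rfl
      _ ≤ ∑ v : Fin n, δ * ((v : ℕ).choose k : ℝ) := sum_le_sum fun v _ => hT3 v
      _ = δ * (n.choose (k + 1) : ℝ) := by
          rw [← mul_sum, sum_choose_fin]

theorem tur_zero : Tur 0 1 := by
  classical
  intro n
  refine ⟨{∅}, ?_, ?_, ?_⟩
  · intro Z hZ
    rw [mem_singleton.1 hZ, card_empty]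
  · intro Y _
    exact ⟨∅, mem_singleton_self _, empty_subset _⟩
  · simp

/-- a random family that never fails gives a system -/
theorem tur_of_rnd {d : ℕ} {a : ℝ} (h : ∀ n, Rnd n d a 0) : Tur d a := by
  classical
  intro n
  obtain ⟨Ω, hΩ, hΩ', A, h1, h2, h3⟩ := h n
  have hcard : (0 : ℝ) < (Fintype.card Ω : ℝ) := by
    exact_mod_cast Fintype.card_pos
  -- the sum of the sizes
  have hsum : ∑ ω : Ω, ((A ω).card : ℝ) ≤ ∑ _ω : Ω, a * (n.choose d : ℝ) := by
    have e1 : ∀ ω : Ω, ((A ω).card : ℝ)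
        = ∑ Z ∈ powersetCard d (univ : Finset (Fin n)), if Z ∈ A ω then (1 : ℝ) else 0 := by
      intro ω
      rw [← sum_filter, sum_const, nsmul_eq_mul, mul_one]
      congr 2
      ext Z
      simp only [mem_filter, mem_powersetCard, subset_univ, true_and]
      constructor
      · intro hZ; exact ⟨h1 ω Z hZ, hZ⟩
      · rintro ⟨_, hZ⟩; exact hZ
    calc ∑ ω : Ω, ((A ω).card : ℝ)
        = ∑ ω : Ω, ∑ Z ∈ powersetCard d (univ : Finset (Fin n)),
            if Z ∈ A ω then (1 : ℝ) else 0 := sum_congr rfl fun ω _ => e1 ω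
      _ = ∑ Z ∈ powersetCard d (univ : Finset (Fin n)), ∑ ω : Ω,
            if Z ∈ A ω then (1 : ℝ) else 0 := sum_comm
      _ ≤ ∑ Z ∈ powersetCard d (univ : Finset (Fin n)), a * (Fintype.card Ω : ℝ) := by
          refine sum_le_sum fun Z hZ => ?_
          have hc : Z.card = d := (mem_powersetCard.1 hZ).2
          have := h2 Z hc
          rw [← sum_filter, sum_const, nsmul_eq_mul, mul_one]
          convert this using 3
      _ = ∑ _ω : Ω, a * (n.choose d : ℝ) := by
          rw [sum_const, sum_const, card_powersetCard, nsmul_eq_mul, nsmul_eq_mul,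
            Finset.card_univ, Finset.card_univ, Fintype.card_fin]
          ring
  obtain ⟨ω, _, hω⟩ := exists_le_of_sum_le (univ_nonempty (α := Ω)) hsum
  refine ⟨A ω, h1 ω, ?_, hω⟩
  intro Y hY
  by_contra hcon
  have h4 := h3 Y hY
  rw [zero_mul] at h4
  have h5 : (univ.filter fun ω => ¬ ∃ Z ∈ A ω, Z ⊆ Y).card = 0 := by
    have h6 : ((univ.filter fun ω => ¬ ∃ Z ∈ A ω, Z ⊆ Y).card : ℝ) ≤ 0 := by
      convert h4 using 3
    have h7 : (0 : ℝ) ≤ ((univ.filter fun ω => ¬ ∃ Z ∈ A ω, Z ⊆ Y).card : ℝ) := by positivity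
    exact_mod_cast le_antisymm h6 h7
  rw [card_eq_zero] at h5
  have h8 : ω ∈ (univ.filter fun ω => ¬ ∃ Z ∈ A ω, Z ⊆ Y) := by
    rw [mem_filter]
    exact ⟨mem_univ _, hcon⟩
  rw [h5] at h8
  simp at h8

/-- the cardinality is an integer, so arbitrarily small errors can be removed -/
theorem tur_of_eps {k : ℕ} {δ : ℝ} (h : ∀ ε : ℝ, 0 < ε → Tur k (δ + ε)) : Tur k δ := by
  intro n
  set N : ℝ := (n.choose k : ℝ) with hN
  have hN0 : 0 ≤ N := by rw [hN]; positivity
  rcases hN0.eq_or_lt with hz | hpos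
  · obtain ⟨T, h1, h2, h3⟩ := h 1 one_pos n
    refine ⟨T, h1, h2, ?_⟩
    have h3' : (T.card : ℝ) ≤ (δ + 1) * N := h3
    rw [← hz] at h3' ⊢
    simpa using h3'
  · -- choose ε with δ N + ε N < ⌊δ N⌋ + 1
    have hfl : δ * N < (⌊δ * N⌋ : ℝ) + 1 := Int.lt_floor_add_one _
    set ε : ℝ := ((⌊δ * N⌋ : ℝ) + 1 - δ * N) / (2 * N) with hε
    have hεpos : 0 < ε := by
      rw [hε]
      apply div_pos <;> linarith
    obtain ⟨T, h1, h2, h3⟩ := h ε hεpos n
    refine ⟨T, h1, h2, ?_⟩
    have h4 : (T.card : ℝ) < (⌊δ * N⌋ : ℝ) + 1 := by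
      refine lt_of_le_of_lt h3 ?_
      rw [add_mul]
      have : ε * N = ((⌊δ * N⌋ : ℝ) + 1 - δ * N) / 2 := by
        rw [hε]; field_simp
      rw [this]; linarith
    have h5 : (T.card : ℤ) < ⌊δ * N⌋ + 1 := by exact_mod_cast h4
    have h6 : (T.card : ℤ) ≤ ⌊δ * N⌋ := by omega
    calc (T.card : ℝ) ≤ (⌊δ * N⌋ : ℝ) := by exact_mod_cast h6
      _ ≤ δ * N := Int.floor_le _

end Pool.Agent.H369R2.TD
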