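import Mathlib

/-!
# Determinant codes for Turán systems (proof: helper202, shared note 329; c_odd: helper120)

`Tur k δ`: on every `Fin n` there is a family of `k`-sets of relative size `≤ δ` such that every
`(k+1)`-set contains a member (so `t(k+1,k) ≤ δ`).
`Rnd n d a Φ`: a random family of `d`-subsets of `Fin n` such that each `d`-set belongs to it with
probability at most `a` and each `(d+1)`-set contains no member with probability at most `Φ`.
-/

open Finset

namespace Pool.Agent.H369R2.TD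

def Tur (k : ℕ) (δ : ℝ) : Prop :=
  ∀ n : ℕ, ∃ T : Finset (Finset (Fin n)), (∀ Z ∈ T, Z.card = k) ∧
    (∀ Y : Finset (Fin n), Y.card = k + 1 → ∃ Z ∈ T, Z ⊆ Y) ∧ (T.card : ℝ) ≤ δ * (n.choose k : ℝ)

open Classical in
def Rnd (n d : ℕ) (a Φ : ℝ) : Prop :=
  ∃ (Ω : Type) (_ : Fintype Ω) (_ : Nonempty Ω) (A : Ω → Finset (Finset (Fin n))),
    (∀ ω, ∀ Z ∈ A ω, Z.card = d) ∧
    (∀ Z : Finset (Fin n), Z.card = d →
      ((univ.filter fun ω => Z ∈ A ω).card : ℝ) ≤ a * (Fintype.card Ω : ℝ)) ∧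
    (∀ Y : Finset (Fin n), Y.card = d + 1 →
      ((univ.filter fun ω => ¬ ∃ Z ∈ A ω, Z ⊆ Y).card : ℝ) ≤ Φ * (Fintype.card Ω : ℝ))

/-- the density of a round of the determinant code on `(d+1)`-sets over a field with `q` elements -/
noncomputable def detA (d q : ℕ) (δ : ℕ → ℝ) : ℝ :=
  ∑ m ∈ range d, (d.choose m : ℝ) * ((q : ℝ) - 1) ^ (d - m - 1) / (q : ℝ) ^ d * δ m

/-- the failure probability of a round -/
noncomputable def detF (d q : ℕ) : ℝ := (((q : ℝ) - 1) / q) ^ d

end Pool.Agent.H369R2.TD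

namespace Pool.Agent.H369R2.TD

/-- upper bound of `exp y * E[c_{Poisson}]`: `c j` for `j < J` and `K` afterwards -/
noncomputable def Psi (J : ℕ) (c : ℕ → ℝ) (K x : ℝ) : ℝ :=
  ∑ j ∈ range J, (c j - K) * (x ^ j / (j.factorial : ℝ)) + K * Real.exp x

end Pool.Agent.H369R2.TD
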