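import Pool.Agent.H369R2.TD.Defs
import Pool.Agent.H120R2.CliqueDefs

/-! Task T12: from `Tur` to the Turán density. -/

open Finset Filter

namespace Pool.Agent.H369R2.TD

/-! ### Task T12 (Link): from `Tur` to the Turán function and the Turán density -/

theorem density_of_tur {r : ℕ} {δ : ℝ} (h : Tur r δ) :
    1 - δ ≤ Pool.Agent.H120R2.Clique.turanDensity r (r + 1) := by
  apply Pool.Agent.H120R2.Clique.le_density
  intro n
  obtain ⟨T, h1, h2, h3⟩ := h n
  have hcov := Pool.Agent.H120R2.Clique.ex_ge_of_cover (k := r) (m := r + 1) T (by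
    intro X hX
    obtain ⟨Z, hZ, hZX⟩ := h2 X hX
    exact ⟨Z, hZ, h1 Z hZ, hZX⟩)
  have h4 : (n.choose r : ℝ) ≤ Pool.Agent.H120R2.Clique.ex n r (r + 1) + T.card := by
    exact_mod_cast hcov
  linarith

end Pool.Agent.H369R2.TD
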