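import Pool.Agent.H369R2.TD.TwoDefs

open Finset

namespace Pool.Agent.H369R2.TD

variable {n : ℕ}

/-! ### Task T4a (Low) -/

theorem low_subset (k : ℕ) (e : Finset (Fin n)) : low k e ⊆ e := filter_subset _ _

theorem mem_low {k : ℕ} {e : Finset (Fin n)} {x : Fin n} :
    x ∈ low k e ↔ x ∈ e ∧ (e.filter fun y => y < x).card < k := by
  unfold low; rw [mem_filter]

/-- the rank of a point -/
theorem low_rank_strict {e : Finset (Fin n)} {x y : Fin n} (hx : x ∈ e) (hxy : x < y) :
    (e.filter fun z => z < x).card < (e.filter fun z => z < y).card := by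
  apply card_lt_card
  rw [ssubset_iff_of_subset]
  · exact ⟨x, by simp [hx, hxy], by simp⟩
  · intro z hz
    rw [mem_filter] at hz ⊢
    exact ⟨hz.1, hz.2.trans hxy⟩

theorem card_low {k : ℕ} {e : Finset (Fin n)} (h : k ≤ e.card) : (low k e).card = k := by
  -- the rank is a bijection from `e` to `range e.card`
  have hinj : Set.InjOn (fun x : Fin n => (e.filter fun y => y < x).card) (e : Set (Fin n)) := by
    intro x hx y hy hxy
    rcases lt_trichotomy x y with h1 | h1 | h1
    · exact absurd hxy (low_rank_strict hx h1).ne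
    · exact h1
    · exact absurd hxy (low_rank_strict hy h1).ne'
  have himg : e.image (fun x : Fin n => (e.filter fun y => y < x).card) = range e.card := by
    apply eq_of_subset_of_card_le
    · intro m hm
      obtain ⟨x, hx, rfl⟩ := mem_image.mp hm
      rw [mem_range]
      apply card_lt_card
      rw [ssubset_iff_of_subset (filter_subset _ _)]
      exact ⟨x, hx, by simp⟩
    · rw [card_image_of_injOn hinj, card_range]
  have h2 : (low k e).image (fun x : Fin n => (e.filter fun y => y < x).card) = range k := by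
    ext m
    rw [mem_image, mem_range]
    constructor
    · rintro ⟨x, hx, rfl⟩
      exact (mem_low.mp hx).2
    · intro hm
      have : m ∈ range e.card := mem_range.mpr (hm.trans_le h)
      rw [← himg] at this
      obtain ⟨x, hx, rfl⟩ := mem_image.mp this
      exact ⟨x, mem_low.mpr ⟨hx, hm⟩, rfl⟩
  have h3 := congrArg card h2
  rw [card_range, card_image_of_injOn (hinj.mono (by exact_mod_cast low_subset k e))] at h3
  exact h3

/-- rank after removing a smaller point -/
theorem low_rank_erase_lt {S : Finset (Fin n)} {t x : Fin n} (ht : t ∈ S) (h : t < x) :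
    ((S.erase t).filter fun y => y < x).card + 1 = (S.filter fun y => y < x).card := by
  have h1 : (S.erase t).filter (fun y => y < x) = (S.filter fun y => y < x).erase t := by
    ext y
    simp only [mem_filter, mem_erase]
    tauto
  rw [h1]
  exact card_erase_add_one (mem_filter.mpr ⟨ht, h⟩)

/-- rank after removing a larger point -/
theorem low_rank_erase_gt {S : Finset (Fin n)} {t x : Fin n} (h : x < t) :
    ((S.erase t).filter fun y => y < x).card = (S.filter fun y => y < x).card := by
  congr 1
  ext y
  simp only [mem_filter, mem_erase]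
  constructor
  · rintro ⟨⟨_, h2⟩, h3⟩
    exact ⟨h2, h3⟩
  · rintro ⟨h2, h3⟩
    exact ⟨⟨(h3.trans h).ne, h2⟩, h3⟩

theorem low_erase_low {k : ℕ} {S : Finset (Fin n)} {t : Fin n} (ht : t ∈ low (k + 1) S) :
    low k (S.erase t) = (low (k + 1) S).erase t ∧
      (S.erase t) \ low k (S.erase t) = S \ low (k + 1) S := by
  obtain ⟨htS, htr⟩ := mem_low.mp ht
  have h1 : low k (S.erase t) = (low (k + 1) S).erase t := by
    ext x
    rw [mem_low, mem_erase, mem_erase, mem_low]
    rcases lt_trichotomy x t with h | h | h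
    · rw [low_rank_erase_gt h]
      by_cases hx : x ∈ S
      · have := low_rank_strict hx h
        constructor
        · rintro ⟨⟨h1, h2⟩, h3⟩
          exact ⟨h1, h2, by omega⟩
        · rintro ⟨h1, h2, h3⟩
          exact ⟨⟨h1, h2⟩, by omega⟩
      · tauto
    · subst h; simp
    · have := low_rank_erase_lt htS h
      constructor
      · rintro ⟨⟨h1, h2⟩, h3⟩
        exact ⟨h1, h2, by omega⟩
      · rintro ⟨h1, h2, h3⟩
        exact ⟨⟨h1, h2⟩, by omega⟩
  refine ⟨h1, ?_⟩
  rw [h1]
  ext x
  simp only [mem_sdiff, mem_erase]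
  constructor
  · rintro ⟨⟨h2, h3⟩, h4⟩
    exact ⟨h3, fun h5 => h4 ⟨h2, h5⟩⟩
  · rintro ⟨h2, h3⟩
    exact ⟨⟨fun h => h3 (h ▸ ht), h2⟩, fun h => h3 h.2⟩

theorem low_erase_high {k : ℕ} {S : Finset (Fin n)} {t : Fin n} (ht : t ∈ S \ low k S) :
    low k (S.erase t) = low k S ∧ (S.erase t) \ low k (S.erase t) = (S \ low k S).erase t := by
  obtain ⟨htS, htl⟩ := mem_sdiff.mp ht
  have htr : k ≤ (S.filter fun y => y < t).card := by
    by_contra hcon
    exact htl (mem_low.mpr ⟨htS, by omega⟩)
  have h1 : low k (S.erase t) = low k S := by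
    ext x
    rw [mem_low, mem_erase, mem_low]
    rcases lt_trichotomy x t with h | h | h
    · rw [low_rank_erase_gt h]
      constructor
      · rintro ⟨⟨h1, h2⟩, h3⟩
        exact ⟨h2, h3⟩
      · rintro ⟨h2, h3⟩
        exact ⟨⟨h.ne, h2⟩, h3⟩
    · subst h
      constructor
      · rintro ⟨⟨h1, h2⟩, h3⟩
        exact absurd rfl h1
      · rintro ⟨h2, h3⟩
        omega
    · have h5 := low_rank_erase_lt htS h
      have h6 := low_rank_strict htS h
      constructor
      · rintro ⟨⟨h1, h2⟩, h3⟩
        omega
      · rintro ⟨h2, h3⟩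
        omega
  refine ⟨h1, ?_⟩
  rw [h1]
  ext x
  simp only [mem_sdiff, mem_erase]
  tauto

end Pool.Agent.H369R2.TD
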