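import Pool.Agent.H369R2.TD.Defs

/-!
# Task T5: the systems of de Caen, Kreher and Wiseman (helper541)
-/

open Finset Filter

namespace Pool.Agent.H369R2.TD

namespace OddT5

theorem zmod2 (x : ZMod 2) (h : x ≠ 0) : x = 1 := by
  revert x; decide

theorem odd_erase {α : Type} [DecidableEq α] (P : Finset α) (hP : Odd P.card)
    (h : α → ZMod 2) : ∃ x ∈ P, ∑ x' ∈ P.erase x, h x' = 0 := by
  by_contra hcon
  push Not at hcon
  obtain ⟨T, hT⟩ : ∃ T, T = ∑ x' ∈ P, h x' := ⟨_, rfl⟩
  have h1 : ∀ x ∈ P, h x = T + 1 := by
    intro x hx
    have h2 := Finset.add_sum_erase P h hx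
    rw [zmod2 _ (hcon x hx), ← hT] at h2
    have h3 : (1 : ZMod 2) + 1 = 0 := by decide
    linear_combination h2 - h3
  have h4 : T = (P.card : ZMod 2) * (T + 1) := by
    conv_lhs => rw [hT]
    rw [Finset.sum_congr rfl h1, Finset.sum_const, nsmul_eq_mul]
  obtain ⟨k, hk⟩ := hP
  have h5 : (P.card : ZMod 2) = 1 := by
    rw [hk]
    push_cast
    have : (2 : ZMod 2) = 0 := by decide
    rw [this]; ring
  rw [h5, one_mul] at h4
  have h6 : (0 : ZMod 2) = 1 := by linear_combination h4
  exact absurd h6 (by decide)

theorem half {Ω : Type} [Fintype Ω] [DecidableEq Ω] (P : Ω → Prop) [DecidablePred P]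
    (f : Ω → Ω) (hf : Function.Injective f) (h : ∀ ω, P ω → ¬ P (f ω)) :
    2 * (univ.filter P).card ≤ Fintype.card Ω := by
  have h1 : (univ.filter P).card ≤ (univ.filter fun ω => ¬ P ω).card := by
    apply Finset.card_le_card_of_injOn f
    · intro ω hω
      have hω' : P ω := by simpa using hω
      simpa using h ω hω'
    · exact hf.injOn
  have h2 := Finset.card_filter_add_card_filter_not (s := (univ : Finset Ω)) P
  rw [Finset.card_univ] at h2
  omega

theorem fix_count {n : ℕ} (Z : Finset (Fin n)) (c : Bool) :
    2 ^ Z.card * (univ.filter fun b : Fin n → Bool => ∀ z ∈ Z, b z = c).card = 2 ^ n := by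
  have h1 : (univ.filter fun b : Fin n → Bool => ∀ z ∈ Z, b z = c) =
      Fintype.piFinset (fun z => if z ∈ Z then ({c} : Finset Bool) else univ) := by
    ext b
    simp only [mem_filter, mem_univ, true_and, Fintype.mem_piFinset]
    constructor
    · intro h z
      split_ifs with hz
      · simpa using h z hz
      · simp
    · intro h z hz
      have := h z
      rw [if_pos hz] at this
      simpa using this
  have h2 : ∀ z : Fin n, (if z ∈ Z then ({c} : Finset Bool) else univ).card =
      if z ∈ Z then 1 else 2 := by
    intro z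
    split_ifs <;> simp
  rw [h1, Fintype.card_piFinset]
  simp only [h2]
  rw [Finset.prod_ite, Finset.prod_const_one, one_mul, Finset.prod_const]
  have h3 : (univ.filter fun z => z ∉ Z) = Zᶜ := by ext z; simp
  rw [h3, Finset.card_compl, Fintype.card_fin, ← pow_add]
  congr 1
  have := Finset.card_le_univ Z
  rw [Fintype.card_fin] at this
  omega

/-- (copy of `tur_of_rnd`, to keep this file independent) -/
theorem of_rnd {d : ℕ} {a : ℝ} (h : ∀ n, Rnd n d a 0) : Tur d a := by
  classical
  intro n
  obtain ⟨Ω, hF, hN, A, h1, h2, h3⟩ := h n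
  have hpos : (0 : ℝ) < Fintype.card Ω := by exact_mod_cast Fintype.card_pos
  have hsum : ∑ ω, ((A ω).card : ℝ) ≤ ∑ _ω : Ω, a * (n.choose d : ℝ) := by
    have e1 : ∀ ω, ((A ω).card : ℝ) =
        ∑ Z ∈ (univ : Finset (Fin n)).powersetCard d, if Z ∈ A ω then (1 : ℝ) else 0 := by
      intro ω
      rw [Finset.sum_boole]
      congr 2
      ext Z
      rw [Finset.mem_filter, Finset.mem_powersetCard]
      exact ⟨fun hZ => ⟨⟨Finset.subset_univ _, h1 ω Z hZ⟩, hZ⟩, fun hZ => hZ.2⟩
    simp only [e1]
    rw [Finset.sum_comm]
    calc ∑ Z ∈ (univ : Finset (Fin n)).powersetCard d, ∑ ω, (if Z ∈ A ω then (1 : ℝ) else 0) ≤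
        ∑ _Z ∈ (univ : Finset (Fin n)).powersetCard d, a * (Fintype.card Ω : ℝ) := by
          refine Finset.sum_le_sum fun Z hZ => ?_
          rw [Finset.sum_boole]
          refine le_trans (le_of_eq ?_) (h2 Z (Finset.mem_powersetCard.1 hZ).2)
          congr 2
      _ = ∑ _ω : Ω, a * (n.choose d : ℝ) := by
          rw [Finset.sum_const, Finset.sum_const, Finset.card_powersetCard, Finset.card_univ,
            Finset.card_univ, Fintype.card_fin, nsmul_eq_mul, nsmul_eq_mul]
          ring
  obtain ⟨ω, -, hω⟩ := Finset.exists_le_of_sum_le Finset.univ_nonempty hsum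
  refine ⟨A ω, h1 ω, fun Y hY => ?_, hω⟩
  have h4 := h3 Y hY
  rw [zero_mul] at h4
  have h5 : (univ.filter fun ω => ¬ ∃ Z ∈ A ω, Z ⊆ Y).card = 0 := by
    have : ((univ.filter fun ω => ¬ ∃ Z ∈ A ω, Z ⊆ Y).card : ℝ) ≤ 0 := by
      refine le_trans (le_of_eq ?_) h4
      congr 2
    exact_mod_cast le_antisymm this (Nat.cast_nonneg _)
  rw [Finset.card_eq_zero, Finset.filter_eq_empty_iff] at h5
  have h6 := h5 (Finset.mem_univ ω)
  exact not_not.1 h6

end OddT5

open OddT5

theorem tur_even (s : ℕ) (hs : 1 ≤ s) : Tur (2 * s) (1 / 4 + (1 / 4) ^ s) := by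
  classical
  refine OddT5.of_rnd (fun n => ?_)
  obtain ⟨G, hG⟩ : ∃ G : (Fin n → Bool) → (Fin n → Fin n → ZMod 2) → Finset (Fin n) → Prop,
      G = fun b M e => Even (e.filter (fun x => b x = true)).card ∧
        ∑ x ∈ e.filter (fun x => b x = true), ∑ y ∈ e.filter (fun y => ¬ b y = true), M x y = 0 :=
    ⟨_, rfl⟩
  refine ⟨(Fin n → Bool) × (Fin n → Fin n → ZMod 2), inferInstance, inferInstance,
    fun ω => univ.filter (fun e : Finset (Fin n) => e.card = 2 * s ∧ G ω.1 ω.2 e), ?_, ?_, ?_⟩
  · intro ω Z hZ
    exact (Finset.mem_filter.1 hZ).2.1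
  · intro Z hZ
    -- rewrite the event
    have e1 : (univ.filter fun ω : (Fin n → Bool) × (Fin n → Fin n → ZMod 2) =>
        Z ∈ univ.filter (fun e : Finset (Fin n) => e.card = 2 * s ∧ G ω.1 ω.2 e)).card =
        ∑ b : Fin n → Bool, (univ.filter fun M : Fin n → Fin n → ZMod 2 => G b M Z).card := by
      rw [Finset.card_filter, Fintype.sum_prod_type]
      refine Finset.sum_congr rfl fun b _ => ?_
      rw [Finset.card_filter]
      refine Finset.sum_congr rfl fun M _ => ?_
      simp [hZ]
    obtain ⟨E, hE⟩ : ∃ E : (Fin n → Bool) → Prop,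
      E = fun b => Even (Z.filter (fun x => b x = true)).card := ⟨_, rfl⟩
    obtain ⟨Q, hQ⟩ : ∃ Q : (Fin n → Bool) → Prop,
      Q = fun b => (∀ z ∈ Z, b z = true) ∨ (∀ z ∈ Z, b z = false) := ⟨_, rfl⟩
    obtain ⟨m, hm⟩ : ∃ m, m = Fintype.card (Fin n → Fin n → ZMod 2) := ⟨_, rfl⟩
    have e2 : ∀ b : Fin n → Bool,
        2 * (univ.filter fun M : Fin n → Fin n → ZMod 2 => G b M Z).card ≤
          m * ((if E b then 1 else 0) + (if Q b then 1 else 0)) := by
      intro b
      by_cases hEb : E b
      · by_cases hQb : Q b
        · rw [if_pos hEb, if_pos hQb]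
          have := Finset.card_le_univ (univ.filter fun M : Fin n → Fin n → ZMod 2 => G b M Z)
          rw [← hm] at this
          omega
        · rw [if_pos hEb, if_neg hQb]
          rw [hQ] at hQb
          simp only [not_or, not_forall] at hQb
          obtain ⟨⟨y0, hy0, hby⟩, ⟨x0, hx0, hbx⟩⟩ := hQb
          have hbx' : b x0 = true := by simpa using hbx
          have hby' : ¬ b y0 = true := hby
          rw [add_zero, mul_one, hm]
          apply half (fun M : Fin n → Fin n → ZMod 2 => G b M Z)
            (fun M => M + fun x y => if x = x0 then (if y = y0 then 1 else 0) else 0)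
            (add_left_injective _)
          intro M h1 h2
          rw [hG] at h1 h2
          have h3 := h1.2
          have h4 := h2.2
          simp only [Pi.add_apply, Finset.sum_add_distrib] at h4
          rw [h3, zero_add] at h4
          have h5 : ∑ x ∈ Z.filter (fun x => b x = true), ∑ y ∈ Z.filter (fun y => ¬ b y = true),
              (if x = x0 then (if y = y0 then (1 : ZMod 2) else 0) else 0) = 1 := by
            rw [Finset.sum_eq_single x0]
            · simp only [if_true]
              rw [Finset.sum_eq_single y0]
              · simp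
              · intro y _ hy
                rw [if_neg hy]
              · intro h
                exact absurd (Finset.mem_filter.2 ⟨hy0, hby'⟩) h
            · intro x _ hx
              simp [if_neg hx]
            · intro h
              exact absurd (Finset.mem_filter.2 ⟨hx0, hbx'⟩) h
          rw [h5] at h4
          exact absurd h4 (by decide)
      · have h0 : (univ.filter fun M : Fin n → Fin n → ZMod 2 => G b M Z) = ∅ := by
          apply Finset.filter_eq_empty_iff.2
          intro M _ h
          rw [hG] at h
          rw [hE] at hEb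
          exact hEb h.1
        rw [h0, Finset.card_empty]
        exact Nat.zero_le _
    -- number of `b` with even part
    have hZne : Z.Nonempty := by
      rw [← Finset.card_pos]; omega
    obtain ⟨z0, hz0⟩ := hZne
    have e3 : 2 * (univ.filter E).card ≤ 2 ^ n := by
      have h1 := half E (fun b => Function.update b z0 (! b z0)) ?_ ?_
      · rw [Fintype.card_fun, Fintype.card_bool, Fintype.card_fin] at h1
        convert h1
      · intro b b' h
        funext z
        have h2 : Function.update b z0 (! b z0) z = Function.update b' z0 (! b' z0) z :=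
          congrFun h z
        by_cases hz : z = z0
        · subst hz
          simpa using h2
        · rwa [Function.update_of_ne hz, Function.update_of_ne hz] at h2
      · intro b h1 h2
        rw [hE] at h1 h2
        replace h1 : Even (Z.filter (fun x => b x = true)).card := h1
        replace h2 : Even (Z.filter
          (fun x => Function.update b z0 (! b z0) x = true)).card := h2
        by_cases hb : b z0 = true
        · have h3 : Z.filter (fun x => Function.update b z0 (! b z0) x = true) =
              (Z.filter (fun x => b x = true)).erase z0 := by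
            ext x
            simp only [Finset.mem_filter, Finset.mem_erase]
            by_cases hx : x = z0
            · subst hx; simp [hb]
            · rw [Function.update_of_ne hx]; tauto
          have h4 : z0 ∈ Z.filter (fun x => b x = true) := Finset.mem_filter.2 ⟨hz0, hb⟩
          rw [h3, Finset.card_erase_of_mem h4] at h2
          have h5 := Finset.card_pos.2 ⟨z0, h4⟩
          rw [Nat.even_iff] at h1 h2
          omega
        · have h3 : Z.filter (fun x => Function.update b z0 (! b z0) x = true) =
              insert z0 (Z.filter (fun x => b x = true)) := by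
            ext x
            simp only [Finset.mem_filter, Finset.mem_insert]
            by_cases hx : x = z0
            · subst hx; simp [hb, hz0]
            · rw [Function.update_of_ne hx]; tauto
          have h4 : z0 ∉ Z.filter (fun x => b x = true) := by
            intro h; exact hb (Finset.mem_filter.1 h).2
          rw [h3, Finset.card_insert_of_notMem h4] at h2
          rw [Nat.even_iff] at h1 h2
          omega
    have e4 : 4 ^ s * (univ.filter Q).card ≤ 2 * 2 ^ n := by
      have h1 := fix_count Z true
      have h2 := fix_count Z false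
      have h3 : univ.filter Q ⊆ (univ.filter fun b : Fin n → Bool => ∀ z ∈ Z, b z = true) ∪
          (univ.filter fun b : Fin n → Bool => ∀ z ∈ Z, b z = false) := by
        intro b hb
        rw [hQ] at hb
        simpa using hb
      have h4 := (Finset.card_le_card h3).trans (Finset.card_union_le _ _)
      have h5 : 2 ^ Z.card = 4 ^ s := by rw [hZ, pow_mul]; norm_num
      rw [h5] at h1 h2
      have h6 := Nat.mul_le_mul_left (4 ^ s) h4
      rw [mul_add] at h6
      omega
    -- total
    have e5 : 2 * ∑ b : Fin n → Bool,
        (univ.filter fun M : Fin n → Fin n → ZMod 2 => G b M Z).card ≤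
        m * ((univ.filter E).card + (univ.filter Q).card) := by
      rw [Finset.mul_sum]
      refine (Finset.sum_le_sum fun b _ => e2 b).trans (le_of_eq ?_)
      rw [← Finset.mul_sum, Finset.sum_add_distrib, Finset.card_filter, Finset.card_filter]
    have hcard : (Fintype.card ((Fin n → Bool) × (Fin n → Fin n → ZMod 2)) : ℝ) =
        (2 : ℝ) ^ n * m := by
      rw [Fintype.card_prod, Fintype.card_fun, Fintype.card_bool, Fintype.card_fin, ← hm]
      push_cast
      ring
    rw [hcard]
    have e1' : (((univ.filter fun ω : (Fin n → Bool) × (Fin n → Fin n → ZMod 2) =>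
        Z ∈ univ.filter (fun e : Finset (Fin n) => e.card = 2 * s ∧ G ω.1 ω.2 e)).card : ℕ) : ℝ) =
        ((∑ b : Fin n → Bool,
          (univ.filter fun M : Fin n → Fin n → ZMod 2 => G b M Z).card : ℕ) : ℝ) := by
      exact_mod_cast e1
    have f3 : 2 * ((univ.filter E).card : ℝ) ≤ 2 ^ n := by exact_mod_cast e3
    have f4 : (4 : ℝ) ^ s * ((univ.filter Q).card : ℝ) ≤ 2 * 2 ^ n := by exact_mod_cast e4
    have f5 : 2 * ((∑ b : Fin n → Bool,
        (univ.filter fun M : Fin n → Fin n → ZMod 2 => G b M Z).card : ℕ) : ℝ) ≤
        m * (((univ.filter E).card : ℝ) + ((univ.filter Q).card : ℝ)) := by exact_mod_cast e5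
    have h4s : (0 : ℝ) < 4 ^ s := by positivity
    have f4' : ((univ.filter Q).card : ℝ) ≤ 2 * 2 ^ n * (1 / 4) ^ s := by
      rw [one_div, inv_pow, ← div_eq_mul_inv, le_div_iff₀ h4s]
      linarith
    have hm0 : (0 : ℝ) ≤ m := Nat.cast_nonneg m
    have f6 : (m : ℝ) * (((univ.filter E).card : ℝ) + ((univ.filter Q).card : ℝ)) ≤
        m * (2 ^ n / 2 + 2 * 2 ^ n * (1 / 4) ^ s) :=
      mul_le_mul_of_nonneg_left (by linarith) hm0
    refine le_trans (le_of_eq ?_) (show ((∑ b : Fin n → Bool,
        (univ.filter fun M : Fin n → Fin n → ZMod 2 => G b M Z).card : ℕ) : ℝ) ≤ _ by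
      linarith)
    rw [← e1']
  · intro Y hY
    have h0 : ∀ ω : (Fin n → Bool) × (Fin n → Fin n → ZMod 2),
        ∃ Z ∈ univ.filter (fun e : Finset (Fin n) => e.card = 2 * s ∧ G ω.1 ω.2 e), Z ⊆ Y := by
      rintro ⟨b, M⟩
      simp only
      have hsum := Finset.card_filter_add_card_filter_not (s := Y) (fun x => b x = true)
      rw [hY] at hsum
      rcases Nat.even_or_odd (Y.filter (fun x => b x = true)).card with hev | hodd
      · have hodd' : Odd (Y.filter (fun x => ¬ b x = true)).card := by
          rw [Nat.even_iff] at hev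
          rw [Nat.odd_iff]
          omega
        obtain ⟨y, hy, hsy⟩ := odd_erase (Y.filter (fun x => ¬ b x = true)) hodd'
          (fun y => ∑ x ∈ Y.filter (fun x => b x = true), M x y)
        obtain ⟨hyY, hby⟩ := Finset.mem_filter.1 hy
        refine ⟨Y.erase y, Finset.mem_filter.2 ⟨mem_univ _, ?_, ?_⟩, Finset.erase_subset _ _⟩
        · rw [Finset.card_erase_of_mem hyY, hY]; omega
        · have h1 : (Y.erase y).filter (fun x => b x = true) = Y.filter (fun x => b x = true) := by
            ext x
            simp only [Finset.mem_filter, Finset.mem_erase]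
            constructor
            · rintro ⟨⟨-, h1⟩, h2⟩; exact ⟨h1, h2⟩
            · rintro ⟨h1, h2⟩
              refine ⟨⟨?_, h1⟩, h2⟩
              rintro rfl; exact hby h2
          have h2 : (Y.erase y).filter (fun x => ¬ b x = true) =
              (Y.filter (fun x => ¬ b x = true)).erase y := by
            ext x
            simp only [Finset.mem_filter, Finset.mem_erase]
            tauto
          rw [hG]
          simp only
          rw [h1, h2]
          refine ⟨hev, ?_⟩
          rw [Finset.sum_comm]
          exact hsy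
      · obtain ⟨x, hx, hsx⟩ := odd_erase (Y.filter (fun x => b x = true)) hodd
          (fun x => ∑ y ∈ Y.filter (fun x => ¬ b x = true), M x y)
        obtain ⟨hxY, hbx⟩ := Finset.mem_filter.1 hx
        refine ⟨Y.erase x, Finset.mem_filter.2 ⟨mem_univ _, ?_, ?_⟩, Finset.erase_subset _ _⟩
        · rw [Finset.card_erase_of_mem hxY, hY]; omega
        · have h1 : (Y.erase x).filter (fun x => ¬ b x = true) =
              Y.filter (fun x => ¬ b x = true) := by
            ext y
            simp only [Finset.mem_filter, Finset.mem_erase]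
            constructor
            · rintro ⟨⟨-, h1⟩, h2⟩; exact ⟨h1, h2⟩
            · rintro ⟨h1, h2⟩
              refine ⟨⟨?_, h1⟩, h2⟩
              rintro rfl; exact h2 hbx
          have h2 : (Y.erase x).filter (fun x => b x = true) =
              (Y.filter (fun x => b x = true)).erase x := by
            ext y
            simp only [Finset.mem_filter, Finset.mem_erase]
            tauto
          rw [hG]
          simp only
          rw [h1, h2]
          refine ⟨?_, hsx⟩
          rw [Finset.card_erase_of_mem hx]
          rw [Nat.odd_iff] at hodd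
          rw [Nat.even_iff]
          omega
    rw [zero_mul]
    refine le_of_eq ?_
    rw [Nat.cast_eq_zero, Finset.card_eq_zero, Finset.filter_eq_empty_iff]
    intro ω _ h
    exact h (h0 ω)

end Pool.Agent.H369R2.TD
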