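import Pool.Agent.H369R2.TD.Defs
import Pool.Agent.H120R2.TuranNum

/-! Task T10: the systems of helper120 (`Pool.Agent.H120R2.TuranF2.main`). -/

open Finset Filter

namespace Pool.Agent.H369R2.TD

theorem tur_of_sys {k : ℕ} {δ : ℝ}
    (hs : Pool.Agent.Results.MP_7badbe_co.FixedI.Sys 1 0 k δ) : Tur k δ := by
  intro n
  obtain ⟨𝒢, g1, g2, g3⟩ := hs (Finset.range n)
  set G : Finset (Finset (Fin n)) := univ.filter (fun A => A.map Fin.valEmbedding ∈ 𝒢) with hG
  have hGc : G.card ≤ 𝒢.card := by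
    refine Finset.card_le_card_of_injOn (fun A => A.map Fin.valEmbedding) ?_ ?_
    · intro A hA
      rw [mem_coe, hG, mem_filter] at hA
      exact hA.2
    · intro A _ B _ hAB
      exact Finset.map_injective _ hAB
  refine ⟨G, ?_, ?_, ?_⟩
  · intro Z hZ
    rw [hG, mem_filter] at hZ
    rw [← Finset.card_map Fin.valEmbedding]
    exact (g1 _ hZ.2).2
  · intro X hX
    have hsubR : X.map Fin.valEmbedding ⊆ Finset.range n := by
      intro x hx
      rw [Finset.mem_map] at hx
      obtain ⟨y, -, rfl⟩ := hx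
      rw [mem_range]; exact y.2
    obtain ⟨A, hA1, _, hA3⟩ := g2 (X.map Fin.valEmbedding) hsubR
      (by rw [Finset.card_map, hX]) ∅ (by simp) (by simp)
    obtain ⟨A', hA', rfl⟩ := Finset.subset_map_iff.mp hA3
    refine ⟨A', ?_, hA'⟩
    rw [hG, mem_filter]
    exact ⟨mem_univ _, hA1⟩
  · rw [Finset.card_range] at g3
    have h2 : (G.card : ℝ) ≤ 𝒢.card := by exact_mod_cast hGc
    exact h2.trans g3

/-! ### Task T10 (Sys): the known systems for large `k` (helper120) -/

theorem tur_4019 (k : ℕ) : Tur k ((4019 / 1000) / ((k : ℝ) + 1)) :=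
  tur_of_sys (Pool.Agent.H120R2.TuranF2.main k)

end Pool.Agent.H369R2.TD
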