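import Pool.Agent.H369R2.TD.Defs

/-!
# Task T6: Turán's construction, `Tur 3 (4/9)`
-/

open Finset

namespace Pool.Agent.H369R2.TD

/-- three labels: all equal, or two labels `i` and one label `i + 1` -/
def gd3 {α : Type} (e : Finset α) (g : α → Fin 3) : Prop :=
  ∃ i : Fin 3, (e.filter fun x => g x = i).card = 3 ∨
    ((e.filter fun x => g x = i).card = 2 ∧ (e.filter fun x => g x = i + 1).card = 1)

instance {α : Type} (e : Finset α) (g : α → Fin 3) : Decidable (gd3 e g) := by
  unfold gd3
  infer_instance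

lemma gd3_map {α β : Type} (f : α ↪ β) (e : Finset α) (g : β → Fin 3) :
    gd3 (e.map f) g ↔ gd3 e (g ∘ f) := by
  unfold gd3
  have h : ∀ i, ((e.map f).filter fun x => g x = i).card = (e.filter fun x => (g ∘ f) x = i).card := by
    intro i
    rw [Finset.filter_map, Finset.card_map]
    rfl
  simp only [h]

lemma gd3_count : (univ.filter fun g : Fin 3 → Fin 3 => gd3 univ g).card = 12 := by
  decide +kernel

lemma gd3_cover : ∀ g : Fin 4 → Fin 3, ∃ j : Fin 4, gd3 (univ.erase j) g := by
  decide +kernel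

theorem rnd_three (n : ℕ) : Rnd n 3 (4 / 9) 0 := by
  classical
  refine ⟨Fin n → Fin 3, inferInstance, inferInstance,
    fun ω => univ.filter fun e => e.card = 3 ∧ gd3 e ω, ?_, ?_, ?_⟩
  · intro ω Z hZ
    exact (mem_filter.mp hZ).2.1
  · intro Z hZ
    obtain ⟨f, hf⟩ : ∃ f : Fin 3 ↪ Fin n, (univ : Finset (Fin 3)).map f = Z := by
      refine ⟨(Z.orderEmbOfFin hZ).toEmbedding, ?_⟩
      rw [Finset.map_orderEmbOfFin_univ]
    have h1 : ∀ ω : Fin n → Fin 3, (Z ∈ univ.filter fun e : Finset (Fin n) => e.card = 3 ∧ gd3 e ω) ↔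
        gd3 univ (ω ∘ f) := by
      intro ω
      rw [mem_filter, ← hf, gd3_map]
      simp
    simp only [h1]
    -- averaging over translations
    have h2 : ∀ u : Fin 3 → Fin 3, (univ.filter fun ω : Fin n → Fin 3 => gd3 univ (ω ∘ f)).card =
        (univ.filter fun ω : Fin n → Fin 3 => gd3 univ (ω ∘ f + u)).card := by
      intro u
      refine (Finset.card_bij' (fun ω _ => ω - Function.extend f u 0)
        (fun ω _ => ω + Function.extend f u 0) ?_ ?_ ?_ ?_)
      · intro ω hω
        rw [mem_filter] at hω ⊢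
        refine ⟨mem_univ _, ?_⟩
        have : (ω - Function.extend f u 0) ∘ f + u = ω ∘ f := by
          funext j
          simp [f.injective.extend_apply]
        rw [this]
        exact hω.2
      · intro ω hω
        rw [mem_filter] at hω ⊢
        refine ⟨mem_univ _, ?_⟩
        have : (ω + Function.extend f u 0) ∘ f = ω ∘ f + u := by
          funext j
          simp [f.injective.extend_apply]
        rw [this]
        exact hω.2
      · intro ω _
        simp
      · intro ω _
        simp
    have h3 : 27 * (univ.filter fun ω : Fin n → Fin 3 => gd3 univ (ω ∘ f)).card =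
        12 * Fintype.card (Fin n → Fin 3) := by
      have e1 : ∑ u : Fin 3 → Fin 3, (univ.filter fun ω : Fin n → Fin 3 => gd3 univ (ω ∘ f + u)).card
          = 27 * (univ.filter fun ω : Fin n → Fin 3 => gd3 univ (ω ∘ f)).card := by
        rw [Finset.sum_congr rfl fun u _ => (h2 u).symm, Finset.sum_const, smul_eq_mul,
          Finset.card_univ]
        simp
      rw [← e1]
      simp only [Finset.card_filter]
      rw [Finset.sum_comm]
      have e2 : ∀ ω : Fin n → Fin 3, (∑ u : Fin 3 → Fin 3, if gd3 univ (ω ∘ f + u) then 1 else 0)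
          = 12 := by
        intro ω
        have e3 := Equiv.sum_comp (Equiv.addLeft (ω ∘ f)) (fun g : Fin 3 → Fin 3 =>
          if gd3 univ g then 1 else 0)
        simp only [Equiv.coe_addLeft] at e3
        rw [← gd3_count, Finset.card_filter]
        refine Eq.trans (Finset.sum_congr rfl fun x _ => ?_) e3
        by_cases hx : gd3 univ (ω ∘ f + x) <;> simp [hx]
      rw [Finset.sum_congr rfl fun ω _ => e2 ω, Finset.sum_const, smul_eq_mul, Finset.card_univ,
        mul_comm]
    have h4 : (27 : ℝ) * ((univ.filter fun ω : Fin n → Fin 3 => gd3 univ (ω ∘ f)).card : ℝ) =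
        12 * (Fintype.card (Fin n → Fin 3) : ℝ) := by
      exact_mod_cast h3
    have h5 : (((univ.filter fun ω : Fin n → Fin 3 => gd3 univ (ω ∘ f)).card : ℕ) : ℝ) ≤
        4 / 9 * (Fintype.card (Fin n → Fin 3) : ℝ) := by linarith
    convert h5
  · intro Y hY
    rw [zero_mul]
    refine le_of_eq ?_
    rw [Nat.cast_eq_zero, Finset.card_eq_zero, Finset.filter_eq_empty_iff]
    intro ω _
    rw [not_not]
    have hfm : (univ : Finset (Fin 4)).map (Y.orderEmbOfFin hY).toEmbedding = Y := by
      rw [Finset.map_orderEmbOfFin_univ]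
    obtain ⟨j, hj⟩ := gd3_cover (ω ∘ (Y.orderEmbOfFin hY).toEmbedding)
    refine ⟨(univ.erase j).map (Y.orderEmbOfFin hY).toEmbedding, ?_, ?_⟩
    · rw [mem_filter, gd3_map]
      refine ⟨mem_univ _, ?_, hj⟩
      rw [Finset.card_map, Finset.card_erase_of_mem (mem_univ _)]
      simp
    · conv_rhs => rw [← hfm]
      exact Finset.map_subset_map.mpr (Finset.erase_subset _ _)

/-- `tur_of_rnd` (copy, to be independent of the file `Basic`) -/
theorem tur_of_rnd_three {d : ℕ} {a : ℝ} (h : ∀ n, Rnd n d a 0) : Tur d a := by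
  classical
  intro n
  obtain ⟨Ω, _, _, A, h1, h2, h3⟩ := h n
  have hsum : ∑ ω : Ω, ((A ω).card : ℝ) ≤ ∑ _ω : Ω, a * (n.choose d : ℝ) := by
    have e1 : ∀ ω : Ω, ((A ω).card : ℝ) =
        ∑ Z ∈ powersetCard d (univ : Finset (Fin n)), if Z ∈ A ω then (1 : ℝ) else 0 := by
      intro ω
      rw [← Finset.sum_filter, Finset.sum_const, nsmul_eq_mul, mul_one]
      congr 2
      ext Z
      rw [mem_filter, mem_powersetCard]
      constructor
      · intro hZ
        exact ⟨⟨subset_univ _, h1 ω Z hZ⟩, hZ⟩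
      · intro hZ
        exact hZ.2
    rw [Finset.sum_congr rfl fun ω _ => e1 ω, Finset.sum_comm]
    have e2 : ∀ Z ∈ powersetCard d (univ : Finset (Fin n)),
        (∑ ω : Ω, if Z ∈ A ω then (1 : ℝ) else 0) ≤ a * (Fintype.card Ω : ℝ) := by
      intro Z hZ
      have := h2 Z (mem_powersetCard.mp hZ).2
      rw [← Finset.sum_filter, Finset.sum_const, nsmul_eq_mul, mul_one]
      convert this
    refine (Finset.sum_le_sum e2).trans (le_of_eq ?_)
    rw [Finset.sum_const, Finset.sum_const, card_powersetCard, Finset.card_univ, Finset.card_univ,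
      Fintype.card_fin, nsmul_eq_mul, nsmul_eq_mul]
    ring
  obtain ⟨ω, -, hω⟩ := Finset.exists_le_of_sum_le Finset.univ_nonempty hsum
  refine ⟨A ω, h1 ω, ?_, hω⟩
  intro Y hY
  by_contra hcon
  have h4 := h3 Y hY
  rw [zero_mul] at h4
  have h5 : (univ.filter fun ω => ¬ ∃ Z ∈ A ω, Z ⊆ Y).card = 0 := by
    have : ((univ.filter fun ω => ¬ ∃ Z ∈ A ω, Z ⊆ Y).card : ℝ) = 0 :=
      le_antisymm (by convert h4) (Nat.cast_nonneg _)
    exact_mod_cast this
  rw [Finset.card_eq_zero, Finset.filter_eq_empty_iff] at h5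
  exact h5 (mem_univ ω) hcon

theorem tur_three : Tur 3 (4 / 9) := tur_of_rnd_three rnd_three

end Pool.Agent.H369R2.TD
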