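import Pool.Agent.H369R2.TD.Asy
import Pool.Agent.H369R2.TD.Odd
import Pool.Agent.H369R2.TD.Three
import Pool.Agent.H369R2.TD.Sys

/-! Task T11: the numerical constants. -/

open Finset Filter

namespace Pool.Agent.H369R2.TD

/-- the Turán densities `t(m+1, m) ≤ dl m` used for the zero sets -/
noncomputable def dl : ℕ → ℝ
  | 0 => 1
  | 1 => 1
  | 2 => 1 / 2
  | 3 => 4 / 9
  | 4 => 5 / 16
  | 5 => 5 / 16
  | 6 => 17 / 64
  | 7 => 17 / 64
  | 8 => 65 / 256
  | 9 => 65 / 256
  | 10 => 257 / 1024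
  | 11 => 257 / 1024
  | 12 => 1025 / 4096
  | 13 => 1025 / 4096
  | 14 => 4097 / 16384
  | (m + 15) => (4019 / 1000) / ((m : ℝ) + 16)

theorem dl_nonneg (m : ℕ) : 0 ≤ dl m := by
  unfold dl
  split <;> positivity

theorem tur_dl (m : ℕ) : Tur m (dl m) := by
  have e (s : ℕ) (hs : 1 ≤ s) := tur_even s hs
  unfold dl
  split
  · exact tur_zero
  · exact tur_zero.succ
  · exact (e 1 (by norm_num)).mono (by norm_num)
  · exact tur_three
  · exact (e 2 (by norm_num)).mono (by norm_num)
  · exact (e 2 (by norm_num)).succ.mono (by norm_num)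
  · exact (e 3 (by norm_num)).mono (by norm_num)
  · exact (e 3 (by norm_num)).succ.mono (by norm_num)
  · exact (e 4 (by norm_num)).mono (by norm_num)
  · exact (e 4 (by norm_num)).succ.mono (by norm_num)
  · exact (e 5 (by norm_num)).mono (by norm_num)
  · exact (e 5 (by norm_num)).succ.mono (by norm_num)
  · exact (e 6 (by norm_num)).mono (by norm_num)
  · exact (e 6 (by norm_num)).succ.mono (by norm_num)
  · exact (e 7 (by norm_num)).mono (by norm_num)
  · rename_i k
    refine (tur_4019 (k + 15)).mono ?_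
    push_cast
    apply le_of_eq
    congr 1
    ring

theorem dl_le (m : ℕ) : ((m : ℝ) + 1) * dl m ≤ 4019 / 1000 := by
  unfold dl
  split
  case h_16 _ k =>
    push_cast
    have : (0 : ℝ) < (k : ℝ) + 16 := by positivity
    rw [show ((k : ℝ) + 14 + 1 + 1) = (k : ℝ) + 16 by ring]
    rw [mul_div_cancel₀ _ this.ne']
  all_goals norm_num

/-- the constants `c j = j * t(j, j-1)` -/
noncomputable def cc : ℕ → ℝ
  | 0 => 0
  | (m + 1) => ((m : ℝ) + 1) * dl m

theorem exp_up : Real.exp (11 / 2) < 24469194 / 100000 := by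
  have h1 : Real.exp (11 / 2) ^ 2 = Real.exp 1 ^ 11 := by
    rw [← Real.exp_nat_mul, ← Real.exp_nat_mul]; norm_num
  have h2 := Real.exp_one_lt_d9
  refine lt_of_pow_lt_pow_left₀ 2 (by norm_num) ?_
  rw [h1]
  calc Real.exp 1 ^ 11 < 2.7182818286 ^ 11 := by gcongr
    _ < _ := by norm_num

theorem exp_lo : 24469192 / 100000 < Real.exp (11 / 2) := by
  have h1 : Real.exp (11 / 2) ^ 2 = Real.exp 1 ^ 11 := by
    rw [← Real.exp_nat_mul, ← Real.exp_nat_mul]; norm_num
  have h2 := Real.exp_one_gt_d9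
  refine lt_of_pow_lt_pow_left₀ 2 (Real.exp_pos _).le ?_
  rw [h1]
  calc (24469192 / 100000 : ℝ) ^ 2 < 2.7182818283 ^ 11 := by norm_num
    _ < _ := by gcongr

theorem exp_small : Real.exp (1 / 10000) ≤ 10001 / 10000 + 1 / 100000000 := by
  have := Real.exp_bound' (x := 1 / 10000) (by norm_num) (by norm_num) (n := 2) (by norm_num)
  refine this.trans ?_
  simp [Finset.sum_range_succ, Nat.factorial]
  norm_num

theorem psi_num : Real.exp (-(11 / 2)) * Psi 16 cc (4019 / 1000) (55001 / 10000) ≤ 18308 / 10000 := by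
  have hE : (0 : ℝ) < Real.exp (-(11 / 2)) := Real.exp_pos _
  have hlow : (100000 : ℝ) / 24469194 ≤ Real.exp (-(11 / 2)) := by
    rw [Real.exp_neg, ← one_div, div_le_div_iff₀ (by norm_num) (Real.exp_pos _)]
    have := exp_up
    linarith
  have hx : Real.exp (-(11 / 2)) * Real.exp (55001 / 10000) = Real.exp (1 / 10000) := by
    rw [← Real.exp_add]; norm_num
  have hS : ∑ j ∈ range 16, (cc j - 4019 / 1000) * ((55001 / 10000 : ℝ) ^ j / (j.factorial : ℝ))
      ≤ - (53555 / 100) := by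
    simp only [Finset.sum_range_succ, Finset.sum_range_zero, cc, dl]
    norm_num [Nat.factorial]
  rw [Psi, mul_add]
  have h1 : Real.exp (-(11 / 2)) * (4019 / 1000 * Real.exp (55001 / 10000))
      = 4019 / 1000 * Real.exp (1 / 10000) := by
    rw [← hx]; ring
  rw [h1]
  have h2 := exp_small
  have h3 : Real.exp (-(11 / 2)) * ∑ j ∈ range 16, (cc j - 4019 / 1000) * ((55001 / 10000 : ℝ) ^ j / (j.factorial : ℝ))
      ≤ (100000 : ℝ) / 24469194 * (- (53555 / 100)) := by
    nlinarith
  linarith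

theorem tur_2081 : ∀ᶠ r : ℕ in atTop, Tur r ((2081 / 1000) / ((r : ℝ) + 1)) := by
  have hP : Real.exp (-(11 / 2)) ≤ 40868 / 10000000 := by
    rw [Real.exp_neg, ← one_div, div_le_div_iff₀ (Real.exp_pos _) (by norm_num)]
    have := exp_lo
    linarith
  refine asymptotic (δ := dl) (c := cc) (J := 16) (K := 4019 / 1000) tur_dl dl_nonneg rfl
    (fun m _ => le_refl _) dl_le (by norm_num) (y₁ := 11 / 2) (x₁ := 55001 / 10000) (y₂ := 11 / 2)
    (x₂ := 55001 / 10000) (lam := 93991 / 100000) (D₁ := 18308 / 10000) (D₂ := 18308 / 10000)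
    (P₁ := 40868 / 10000000) (P₂ := 40868 / 10000000)
    (by norm_num) (by norm_num) (by norm_num) (by norm_num) (by norm_num) (by norm_num)
    psi_num psi_num hP (by norm_num) hP (by norm_num) ?_
  norm_num

end Pool.Agent.H369R2.TD
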