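import Pool.Agent.H369R2.TD.Low

open Finset

namespace Pool.Agent.H369R2.TD

variable {n : ℕ}

/-- averaging: if the average is at most `R`, some value is at most `R` -/
theorem step_exists {Ω : Type} [Fintype Ω] [Nonempty Ω] (f : Ω → ℝ) (R : ℝ)
    (h : ∑ ω, f ω ≤ (Fintype.card Ω : ℝ) * R) : ∃ ω, f ω ≤ R := by
  by_contra hcon
  push Not at hcon
  have h1 : ∑ _ω : Ω, R < ∑ ω, f ω := sum_lt_sum_of_nonempty univ_nonempty fun ω _ => hcon ω
  rw [sum_const, card_univ, nsmul_eq_mul] at h1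
  linarith

/-- double counting -/
theorem step_count {Ω α : Type} [Fintype Ω] (s : Finset α) (P : Ω → α → Prop) (c : ℝ)
    {_i1 : ∀ ω, DecidablePred fun e => P ω e} {i2 : ∀ e, DecidablePred fun ω => P ω e}
    (h : ∀ e ∈ s, ((univ.filter fun ω => P ω e).card : ℝ) ≤ c) :
    ∑ ω : Ω, ((s.filter fun e => P ω e).card : ℝ) ≤ s.card * c := by
  classical
  have h1 : ∑ ω : Ω, ((s.filter fun e => P ω e).card : ℝ) =
      ∑ e ∈ s, ((univ.filter fun ω => P ω e).card : ℝ) := by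
    have h2 : ∀ ω : Ω, ((s.filter fun e => P ω e).card : ℝ) = ∑ e ∈ s, if P ω e then (1 : ℝ) else 0 := by
      intro ω
      rw [card_filter]; push_cast
      exact sum_congr rfl fun e _ => by congr
    have h3 : ∀ e : α, ((univ.filter fun ω : Ω => P ω e).card : ℝ) =
        ∑ ω : Ω, if P ω e then (1 : ℝ) else 0 := by
      intro e
      rw [card_filter]; push_cast
      exact sum_congr rfl fun e _ => by congr
    rw [sum_congr rfl fun ω _ => h2 ω, sum_comm]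
    exact sum_congr rfl fun e _ => (h3 e).symm
  rw [h1]
  calc _ ≤ ∑ _e ∈ s, c := sum_le_sum h
    _ = s.card * c := by rw [sum_const, nsmul_eq_mul]

/-- the new hyperedges of step one -/
def stepH (d₁ d₂ : ℕ) (C A : Finset (Finset (Fin n))) : Finset (Finset (Fin n)) :=
  (((univ : Finset (Fin n)).powersetCard (d₁ + d₂ + 1)).filter fun e => e \ low d₁ e ∈ C).filter
    fun e => low d₁ e ∈ A

/-- the members of `B` which contain no member of `A` -/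
def stepB (A B : Finset (Finset (Fin n))) : Finset (Finset (Fin n)) :=
  B.filter fun S1 => ¬ ∃ Z ∈ A, Z ⊆ S1

theorem step_subset {Z S : Finset (Fin n)} {d : ℕ} (hZ : Z ⊆ S) (h1 : Z.card = d)
    (h2 : S.card = d + 1) : ∃ t ∈ S, Z = S.erase t := by
  have h5 : (S \ Z).card = 1 := by
    rw [card_sdiff_of_subset hZ]; omega
  obtain ⟨t, ht⟩ := card_eq_one.mp h5
  have ht1 : t ∈ S \ Z := by rw [ht]; exact mem_singleton_self t
  refine ⟨t, (mem_sdiff.mp ht1).1, ?_⟩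
  rw [← sdiff_singleton_eq_erase, ← ht, sdiff_sdiff_right_self]
  exact (inf_eq_right.mpr hZ).symm

theorem stepH_inv {d₁ d₂ : ℕ} {H B C A : Finset (Finset (Fin n))} (hI : Inv d₁ d₂ H B C)
    (hA : ∀ Z ∈ A, Z.card = d₁) : Inv d₁ d₂ (H ∪ stepH d₁ d₂ C A) (stepB A B) C := by
  refine ⟨?_, ?_⟩
  · intro Z hZ
    rcases mem_union.mp hZ with h | h
    · exact hI.1 Z h
    · exact (mem_powersetCard.mp (mem_filter.mp (mem_filter.mp h).1).1).2
  · intro S hS hnot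
    by_cases hBC : low (d₁ + 1) S ∈ B ∧ S \ low (d₁ + 1) S ∈ C
    · have h3 : ¬ low (d₁ + 1) S ∈ stepB A B := fun h => hnot ⟨h, hBC.2⟩
      have h4 : ∃ Z ∈ A, Z ⊆ low (d₁ + 1) S := by
        by_contra hcon
        exact h3 (mem_filter.mpr ⟨hBC.1, hcon⟩)
      obtain ⟨Z, hZA, hZS⟩ := h4
      have hc1 : (low (d₁ + 1) S).card = d₁ + 1 := card_low (by omega)
      obtain ⟨t, ht, hte⟩ := step_subset hZS (hA Z hZA) hc1
      obtain ⟨e1, e2⟩ := low_erase_low ht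
      refine ⟨S.erase t, mem_union_right _ ?_, erase_subset _ _⟩
      refine mem_filter.mpr ⟨mem_filter.mpr ⟨mem_powersetCard.mpr ⟨subset_univ _, ?_⟩, ?_⟩, ?_⟩
      · rw [card_erase_of_mem (low_subset _ _ ht)]; omega
      · rw [e2]; exact hBC.2
      · rw [e1, ← hte]; exact hZA
    · obtain ⟨Z, hZ, hZS⟩ := hI.2 S hS hBC
      exact ⟨Z, mem_union_left _ hZ, hZS⟩

theorem N1_stepB (r h : ℕ) (A B : Finset (Finset (Fin n))) :
    N1 r h (stepB A B) = ((((univ : Finset (Fin n)).powersetCard r).filter fun e => low h e ∈ B).filter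
      fun e => ¬ ∃ Z ∈ A, Z ⊆ low h e).card := by
  unfold N1 stepB
  rw [filter_filter]
  congr 1
  ext e
  simp only [mem_filter]

theorem MM_stepB (s h : ℕ) (A B C : Finset (Finset (Fin n))) :
    MM s h (stepB A B) C = ((((univ : Finset (Fin n)).powersetCard s).filter fun S =>
      low h S ∈ B ∧ S \ low h S ∈ C).filter fun e => ¬ ∃ Z ∈ A, Z ⊆ low h e).card := by
  unfold MM stepB
  rw [filter_filter]
  congr 1
  ext e
  simp only [mem_filter]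
  tauto

/-! ### Task T4b (Step): one step of the potential argument -/
theorem step_one {d₁ d₂ : ℕ} {a₁ Φ₁ : ℝ} (h1 : Rnd n d₁ a₁ Φ₁) {u v K : ℝ} (hu : 0 ≤ u)
    (hK : 0 ≤ K) {H B C : Finset (Finset (Fin n))} (hI : Inv d₁ d₂ H B C) :
    ∃ H' B' : Finset (Finset (Fin n)), Inv d₁ d₂ H' B' C ∧
      (H'.card : ℝ) + u * N1 (d₁ + d₂ + 1) (d₁ + 1) B' + v * N2 (d₁ + d₂ + 1) d₁ C
        + K * MM (d₁ + d₂ + 2) (d₁ + 1) B' C ≤
      H.card + u * Φ₁ * N1 (d₁ + d₂ + 1) (d₁ + 1) B + (a₁ + v) * N2 (d₁ + d₂ + 1) d₁ C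
        + K * Φ₁ * MM (d₁ + d₂ + 2) (d₁ + 1) B C := by
  obtain ⟨Ω, _, _, A, hA1, hA2, hA3⟩ := h1
  -- the averages
  have hH : ∑ ω, (((H ∪ stepH d₁ d₂ C (A ω)).card : ℕ) : ℝ) ≤
      (Fintype.card Ω : ℝ) * (H.card + a₁ * N2 (d₁ + d₂ + 1) d₁ C) := by
    have h3 : ∑ ω : Ω, ((stepH d₁ d₂ C (A ω)).card : ℝ) ≤
        (N2 (d₁ + d₂ + 1) d₁ C : ℝ) * (a₁ * Fintype.card Ω) := by
      unfold stepH
      refine step_count (Ω := Ω) (_i1 := fun ω e => inferInstance) _ (fun ω e => low d₁ e ∈ A ω) _ ?_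
      intro e he
      refine hA2 (low d₁ e) (card_low ?_)
      have := (mem_powersetCard.mp (mem_filter.mp he).1).2
      omega
    have h4 : ∑ ω : Ω, (((H ∪ stepH d₁ d₂ C (A ω)).card : ℕ) : ℝ) ≤
        ∑ ω : Ω, ((H.card : ℝ) + ((stepH d₁ d₂ C (A ω)).card : ℝ)) := by
      refine sum_le_sum fun ω _ => ?_
      exact_mod_cast card_union_le _ _
    rw [sum_add_distrib, sum_const, card_univ, nsmul_eq_mul] at h4
    linarith
  have hN : ∑ ω, (N1 (d₁ + d₂ + 1) (d₁ + 1) (stepB (A ω) B) : ℝ) ≤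
      (Fintype.card Ω : ℝ) * (Φ₁ * N1 (d₁ + d₂ + 1) (d₁ + 1) B) := by
    have h4 : ∑ ω, (N1 (d₁ + d₂ + 1) (d₁ + 1) (stepB (A ω) B) : ℝ) ≤
        (N1 (d₁ + d₂ + 1) (d₁ + 1) B : ℝ) * (Φ₁ * Fintype.card Ω) := by
      rw [sum_congr rfl fun ω _ => by rw [N1_stepB]]
      refine step_count (Ω := Ω) (_i1 := fun ω e => inferInstance) _ (fun ω e => ¬ ∃ Z ∈ A ω, Z ⊆ low (d₁ + 1) e) _ ?_
      intro e he
      refine hA3 (low (d₁ + 1) e) (card_low ?_)
      have := (mem_powersetCard.mp (mem_filter.mp he).1).2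
      omega
    linarith
  have hM : ∑ ω, (MM (d₁ + d₂ + 2) (d₁ + 1) (stepB (A ω) B) C : ℝ) ≤
      (Fintype.card Ω : ℝ) * (Φ₁ * MM (d₁ + d₂ + 2) (d₁ + 1) B C) := by
    have h4 : ∑ ω, (MM (d₁ + d₂ + 2) (d₁ + 1) (stepB (A ω) B) C : ℝ) ≤
        (MM (d₁ + d₂ + 2) (d₁ + 1) B C : ℝ) * (Φ₁ * Fintype.card Ω) := by
      rw [sum_congr rfl fun ω _ => by rw [MM_stepB]]
      refine step_count (Ω := Ω) (_i1 := fun ω e => inferInstance) _ (fun ω e => ¬ ∃ Z ∈ A ω, Z ⊆ low (d₁ + 1) e) _ ?_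
      intro e he
      refine hA3 (low (d₁ + 1) e) (card_low ?_)
      have := (mem_powersetCard.mp (mem_filter.mp he).1).2
      omega
    linarith
  obtain ⟨ω, hω⟩ := step_exists (fun ω => (((H ∪ stepH d₁ d₂ C (A ω)).card : ℕ) : ℝ)
      + u * N1 (d₁ + d₂ + 1) (d₁ + 1) (stepB (A ω) B)
      + v * N2 (d₁ + d₂ + 1) d₁ C + K * MM (d₁ + d₂ + 2) (d₁ + 1) (stepB (A ω) B) C)
    (H.card + u * Φ₁ * N1 (d₁ + d₂ + 1) (d₁ + 1) B + (a₁ + v) * N2 (d₁ + d₂ + 1) d₁ C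
        + K * Φ₁ * MM (d₁ + d₂ + 2) (d₁ + 1) B C) (by
      rw [sum_add_distrib, sum_add_distrib, sum_add_distrib, ← mul_sum, ← mul_sum, ← mul_sum,
        sum_const,
        card_univ, nsmul_eq_mul]
      have e1 := mul_le_mul_of_nonneg_left hN hu
      have e2 := mul_le_mul_of_nonneg_left hM hK
      linarith)
  exact ⟨_, _, stepH_inv hI (hA1 ω), hω⟩

end Pool.Agent.H369R2.TD
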