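import Pool.Agent.H369R2.TD.StepOne

open Finset

namespace Pool.Agent.H369R2.TD

variable {n : ℕ}

/-- the new hyperedges of step two -/
def stepH2 (d₁ d₂ : ℕ) (B A : Finset (Finset (Fin n))) : Finset (Finset (Fin n)) :=
  (((univ : Finset (Fin n)).powersetCard (d₁ + d₂ + 1)).filter fun e => low (d₁ + 1) e ∈ B).filter
    fun e => e \ low (d₁ + 1) e ∈ A

theorem stepH2_inv {d₁ d₂ : ℕ} {H B C A : Finset (Finset (Fin n))} (hI : Inv d₁ d₂ H B C)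
    (hA : ∀ Z ∈ A, Z.card = d₂) : Inv d₁ d₂ (H ∪ stepH2 d₁ d₂ B A) B (stepB A C) := by
  refine ⟨?_, ?_⟩
  · intro Z hZ
    rcases mem_union.mp hZ with h | h
    · exact hI.1 Z h
    · exact (mem_powersetCard.mp (mem_filter.mp (mem_filter.mp h).1).1).2
  · intro S hS hnot
    by_cases hBC : low (d₁ + 1) S ∈ B ∧ S \ low (d₁ + 1) S ∈ C
    · have h3 : ¬ S \ low (d₁ + 1) S ∈ stepB A C := fun h => hnot ⟨hBC.1, h⟩
      have h4 : ∃ Z ∈ A, Z ⊆ S \ low (d₁ + 1) S := by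
        by_contra hcon
        exact h3 (mem_filter.mpr ⟨hBC.2, hcon⟩)
      obtain ⟨Z, hZA, hZS⟩ := h4
      have hc0 : (low (d₁ + 1) S).card = d₁ + 1 := card_low (by omega)
      have hc1 : (S \ low (d₁ + 1) S).card = d₂ + 1 := by
        rw [card_sdiff_of_subset (low_subset _ _)]; omega
      obtain ⟨t, ht, hte⟩ := step_subset hZS (hA Z hZA) hc1
      obtain ⟨e1, e2⟩ := low_erase_high ht
      refine ⟨S.erase t, mem_union_right _ ?_, erase_subset _ _⟩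
      refine mem_filter.mpr ⟨mem_filter.mpr ⟨mem_powersetCard.mpr ⟨subset_univ _, ?_⟩, ?_⟩, ?_⟩
      · rw [card_erase_of_mem (mem_sdiff.mp ht).1]; omega
      · rw [e1]; exact hBC.1
      · rw [e2, ← hte]; exact hZA
    · obtain ⟨Z, hZ, hZS⟩ := hI.2 S hS hBC
      exact ⟨Z, mem_union_left _ hZ, hZS⟩

theorem N2_stepB (r k : ℕ) (A C : Finset (Finset (Fin n))) :
    N2 r k (stepB A C) = ((((univ : Finset (Fin n)).powersetCard r).filter fun e => e \ low k e ∈ C).filter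
      fun e => ¬ ∃ Z ∈ A, Z ⊆ e \ low k e).card := by
  unfold N2 stepB
  rw [filter_filter]
  congr 1
  ext e
  simp only [mem_filter]

theorem MM_stepB2 (s h : ℕ) (A B C : Finset (Finset (Fin n))) :
    MM s h B (stepB A C) = ((((univ : Finset (Fin n)).powersetCard s).filter fun S =>
      low h S ∈ B ∧ S \ low h S ∈ C).filter fun e => ¬ ∃ Z ∈ A, Z ⊆ e \ low h e).card := by
  unfold MM stepB
  rw [filter_filter]
  congr 1
  ext e
  simp only [mem_filter]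
  tauto

theorem step_two {d₁ d₂ : ℕ} {a₂ Φ₂ : ℝ} (h2 : Rnd n d₂ a₂ Φ₂) {u v K : ℝ} (hv : 0 ≤ v)
    (hK : 0 ≤ K) {H B C : Finset (Finset (Fin n))} (hI : Inv d₁ d₂ H B C) :
    ∃ H' C' : Finset (Finset (Fin n)), Inv d₁ d₂ H' B C' ∧
      (H'.card : ℝ) + u * N1 (d₁ + d₂ + 1) (d₁ + 1) B + v * N2 (d₁ + d₂ + 1) d₁ C'
        + K * MM (d₁ + d₂ + 2) (d₁ + 1) B C' ≤
      H.card + (a₂ + u) * N1 (d₁ + d₂ + 1) (d₁ + 1) B + v * Φ₂ * N2 (d₁ + d₂ + 1) d₁ C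
        + K * Φ₂ * MM (d₁ + d₂ + 2) (d₁ + 1) B C := by
  obtain ⟨Ω, _, _, A, hA1, hA2, hA3⟩ := h2
  -- the averages
  have hH : ∑ ω, (((H ∪ stepH2 d₁ d₂ B (A ω)).card : ℕ) : ℝ) ≤
      (Fintype.card Ω : ℝ) * (H.card + a₂ * N1 (d₁ + d₂ + 1) (d₁ + 1) B) := by
    have h3 : ∑ ω : Ω, ((stepH2 d₁ d₂ B (A ω)).card : ℝ) ≤
        (N1 (d₁ + d₂ + 1) (d₁ + 1) B : ℝ) * (a₂ * Fintype.card Ω) := by
      unfold stepH2
      refine step_count (Ω := Ω) (_i1 := fun ω e => inferInstance) _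
        (fun ω e => e \ low (d₁ + 1) e ∈ A ω) _ ?_
      intro e he
      have h5 := (mem_powersetCard.mp (mem_filter.mp he).1).2
      refine hA2 (e \ low (d₁ + 1) e) ?_
      rw [card_sdiff_of_subset (low_subset _ _), card_low (by omega)]
      omega
    have h4 : ∑ ω : Ω, (((H ∪ stepH2 d₁ d₂ B (A ω)).card : ℕ) : ℝ) ≤
        ∑ ω : Ω, ((H.card : ℝ) + ((stepH2 d₁ d₂ B (A ω)).card : ℝ)) := by
      refine sum_le_sum fun ω _ => ?_
      exact_mod_cast card_union_le _ _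
    rw [sum_add_distrib, sum_const, card_univ, nsmul_eq_mul] at h4
    linarith
  have hN : ∑ ω, (N2 (d₁ + d₂ + 1) d₁ (stepB (A ω) C) : ℝ) ≤
      (Fintype.card Ω : ℝ) * (Φ₂ * N2 (d₁ + d₂ + 1) d₁ C) := by
    have h4 : ∑ ω, (N2 (d₁ + d₂ + 1) d₁ (stepB (A ω) C) : ℝ) ≤
        (N2 (d₁ + d₂ + 1) d₁ C : ℝ) * (Φ₂ * Fintype.card Ω) := by
      rw [sum_congr rfl fun ω _ => by rw [N2_stepB]]
      refine step_count (Ω := Ω) (_i1 := fun ω e => inferInstance) _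
        (fun ω e => ¬ ∃ Z ∈ A ω, Z ⊆ e \ low d₁ e) _ ?_
      intro e he
      have h5 := (mem_powersetCard.mp (mem_filter.mp he).1).2
      refine hA3 (e \ low d₁ e) ?_
      rw [card_sdiff_of_subset (low_subset _ _), card_low (by omega)]
      omega
    linarith
  have hM : ∑ ω, (MM (d₁ + d₂ + 2) (d₁ + 1) B (stepB (A ω) C) : ℝ) ≤
      (Fintype.card Ω : ℝ) * (Φ₂ * MM (d₁ + d₂ + 2) (d₁ + 1) B C) := by
    have h4 : ∑ ω, (MM (d₁ + d₂ + 2) (d₁ + 1) B (stepB (A ω) C) : ℝ) ≤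
        (MM (d₁ + d₂ + 2) (d₁ + 1) B C : ℝ) * (Φ₂ * Fintype.card Ω) := by
      rw [sum_congr rfl fun ω _ => by rw [MM_stepB2]]
      refine step_count (Ω := Ω) (_i1 := fun ω e => inferInstance) _
        (fun ω e => ¬ ∃ Z ∈ A ω, Z ⊆ e \ low (d₁ + 1) e) _ ?_
      intro e he
      have h5 := (mem_powersetCard.mp (mem_filter.mp he).1).2
      refine hA3 (e \ low (d₁ + 1) e) ?_
      rw [card_sdiff_of_subset (low_subset _ _), card_low (by omega)]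
      omega
    linarith
  obtain ⟨ω, hω⟩ := step_exists (fun ω => (((H ∪ stepH2 d₁ d₂ B (A ω)).card : ℕ) : ℝ)
      + u * N1 (d₁ + d₂ + 1) (d₁ + 1) B
      + v * N2 (d₁ + d₂ + 1) d₁ (stepB (A ω) C) + K * MM (d₁ + d₂ + 2) (d₁ + 1) B (stepB (A ω) C))
    (H.card + (a₂ + u) * N1 (d₁ + d₂ + 1) (d₁ + 1) B + v * Φ₂ * N2 (d₁ + d₂ + 1) d₁ C
        + K * Φ₂ * MM (d₁ + d₂ + 2) (d₁ + 1) B C) (by
      rw [sum_add_distrib, sum_add_distrib, sum_add_distrib, ← mul_sum, ← mul_sum, ← mul_sum,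
        sum_const, card_univ, nsmul_eq_mul]
      have e1 := mul_le_mul_of_nonneg_left hN hv
      have e2 := mul_le_mul_of_nonneg_left hM hK
      linarith)
  exact ⟨_, _, stepH2_inv hI (hA1 ω), hω⟩

end Pool.Agent.H369R2.TD
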