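import Pool.Agent.H369R2.TD.Defs

open Finset Filter

namespace Pool.Agent.H369R2.TD

/-! ### Task T1 (Basic): elementary properties of `Tur` -/

theorem Tur.mono {k : ℕ} {δ δ' : ℝ} (h : Tur k δ) (hd : δ ≤ δ') : Tur k δ' := by sorry

/-- `t(k+2,k+1) ≤ t(k+1,k)` -/
theorem Tur.succ {k : ℕ} {δ : ℝ} (h : Tur k δ) : Tur (k + 1) δ := by sorry

theorem tur_zero : Tur 0 1 := by sorry

/-- a random family that never fails gives a system -/
theorem tur_of_rnd {d : ℕ} {a : ℝ} (h : ∀ n, Rnd n d a 0) : Tur d a := by sorry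

/-- the cardinality is an integer, so arbitrarily small errors can be removed -/
theorem tur_of_eps {k : ℕ} {δ : ℝ} (h : ∀ ε : ℝ, 0 < ε → Tur k (δ + ε)) : Tur k δ := by sorry

/-! ### Task T2 (Perm): random image of a family -/

/-- the number of permutations mapping a given `m`-set to a member of `T` -/
theorem perm_count {n m : ℕ} {δ : ℝ} (T : Finset (Finset (Fin n))) (hT : ∀ Z ∈ T, Z.card = m)
    (hc : (T.card : ℝ) ≤ δ * (n.choose m : ℝ)) (Z : Finset (Fin n)) (hZ : Z.card = m) :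
    ((univ.filter fun π : Equiv.Perm (Fin n) => Z.map π.toEmbedding ∈ T).card : ℝ)
      ≤ δ * (Fintype.card (Equiv.Perm (Fin n)) : ℝ) := by sorry

/-! ### Task T3 (Det): the determinant code -/

theorem det_rnd (F : Type) [Field F] [Fintype F] {d : ℕ} {δ : ℕ → ℝ}
    (hδ : ∀ m, m < d → Tur m (δ m)) (n : ℕ) :
    Rnd n d (detA d (Fintype.card F) δ) (detF d (Fintype.card F)) := by sorry

/-! ### Task T4 (Two): two parts and many rounds -/

theorem two_part {d₁ d₂ : ℕ} {a₁ a₂ Φ₁ Φ₂ : ℝ} (h1 : ∀ n, Rnd n d₁ a₁ Φ₁)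
    (h2 : ∀ n, Rnd n d₂ a₂ Φ₂) (ha1 : 0 ≤ a₁) (ha2 : 0 ≤ a₂) (hp1 : 0 < Φ₁) (hp1' : Φ₁ < 1)
    (hp2 : 0 < Φ₂) (hp2' : Φ₂ < 1) {ε : ℝ} (hε : 0 < ε) :
    Tur (d₁ + d₂ + 1) (a₁ / (1 - Φ₂) + a₂ * Φ₁ / (1 - Φ₁) + ε) := by sorry

/-! ### Task T5 (Odd): the systems of de Caen, Kreher and Wiseman -/

theorem tur_even (s : ℕ) (hs : 1 ≤ s) : Tur (2 * s) (1 / 4 + (1 / 4) ^ s) := by sorry

/-! ### Task T6 (Three): Turán's construction -/

theorem tur_three : Tur 3 (4 / 9) := by sorry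

end Pool.Agent.H369R2.TD
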