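import Pool.Agent.H369R2.TD.Defs
import Pool.Agent.H120R2.CliqueDefs

open Finset Filter

namespace Pool.Agent.H369R2.TD

/-! ### Task T7 (Prime): a prime `q` with `d/q` in a prescribed range -/

theorem exists_q {y x : ℝ} (hy : 0 < y) (hx : y < x) :
    ∀ᶠ d : ℕ in atTop, ∃ q : ℕ, q.Prime ∧ y ≤ (d : ℝ) / q ∧
      ((d : ℝ) + 1) / q * Real.exp (1 / q) ≤ x := by sorry

/-- moreover `q → ∞` -/
theorem exists_q' {y x : ℝ} (hy : 0 < y) (hx : y < x) (Q : ℝ) :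
    ∀ᶠ d : ℕ in atTop, ∃ q : ℕ, q.Prime ∧ Q ≤ (q : ℝ) ∧ y ≤ (d : ℝ) / q ∧
      ((d : ℝ) + 1) / q * Real.exp (1 / q) ≤ x := by sorry

/-! ### Task T8 (Bin): from the binomial sum to the Poisson bound -/

theorem detA_le {d q J : ℕ} {δ c : ℕ → ℝ} {K y x : ℝ} (hq : 2 ≤ q) (h0 : ∀ m, 0 ≤ δ m)
    (hc0 : c 0 = 0) (hc : ∀ m, m + 1 < J → ((m : ℝ) + 1) * δ m ≤ c (m + 1))
    (hK : ∀ m : ℕ, ((m : ℝ) + 1) * δ m ≤ K) (hy : y ≤ (d : ℝ) / q) (hJ : 1 ≤ J)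
    (hx : ((d : ℝ) + 1) / q * Real.exp (1 / q) ≤ x) :
    ((d : ℝ) + 1) * detA d q δ ≤
      (q : ℝ) / ((q : ℝ) - 1) * (Real.exp (-y) * Psi J c K x) := by sorry

theorem detF_le {d q : ℕ} {y : ℝ} (hq : 2 ≤ q) (hy : y ≤ (d : ℝ) / q) :
    detF d q ≤ Real.exp (-y) := by sorry

theorem detF_pos {d q : ℕ} (hq : 2 ≤ q) : 0 < detF d q := by sorry

theorem detA_nonneg {d q : ℕ} {δ : ℕ → ℝ} (hq : 2 ≤ q) (h0 : ∀ m, 0 ≤ δ m) :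
    0 ≤ detA d q δ := by sorry

/-! ### Task T9 (Asy): the asymptotic theorem (uses T3, T4, T7, T8) -/

theorem asymptotic {δ c : ℕ → ℝ} {J : ℕ} {K : ℝ} (hδ : ∀ m, Tur m (δ m)) (h0 : ∀ m, 0 ≤ δ m)
    (hc0 : c 0 = 0) (hc : ∀ m, m + 1 < J → ((m : ℝ) + 1) * δ m ≤ c (m + 1))
    (hK : ∀ m : ℕ, ((m : ℝ) + 1) * δ m ≤ K) (hJ : 1 ≤ J)
    {y₁ x₁ y₂ x₂ lam D₁ D₂ P₁ P₂ V : ℝ} (hy1 : 0 < y₁) (hx1 : y₁ < x₁) (hy2 : 0 < y₂)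
    (hx2 : y₂ < x₂) (hl0 : 0 < lam) (hl1 : lam < 1)
    (hD1 : Real.exp (-y₁) * Psi J c K x₁ ≤ D₁) (hD2 : Real.exp (-y₂) * Psi J c K x₂ ≤ D₂)
    (hP1 : Real.exp (-y₁) ≤ P₁) (hP1' : P₁ < 1) (hP2 : Real.exp (-y₂) ≤ P₂) (hP2' : P₂ < 1)
    (hV : D₁ / (lam * (1 - P₂)) + D₂ * P₁ / ((1 - lam) * (1 - P₁)) < V) :
    ∀ᶠ r : ℕ in atTop, Tur r (V / ((r : ℝ) + 1)) := by sorry

/-! ### Task T10 (Sys): the known systems for large `k` (helper120) -/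

theorem tur_4019 (k : ℕ) : Tur k ((4019 / 1000) / ((k : ℝ) + 1)) := by sorry

/-! ### Task T12 (Link): from `Tur` to the Turán function and the Turán density -/

theorem density_of_tur {r : ℕ} {δ : ℝ} (h : Tur r δ) :
    1 - δ ≤ Pool.Agent.H120R2.Clique.turanDensity r (r + 1) := by sorry

end Pool.Agent.H369R2.TD
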