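import Pool.Agent.H369R2.TD.Defs

open Finset

namespace Pool.Agent.H369R2.TD

variable {F : Type} [Field F] [Fintype F] [DecidableEq F]

/-! ### Task T3a (DetCount) -/

/-- a fixed nonzero `α` is a dependency with probability `q^{-d}` -/
theorem dep_count {n d : ℕ} (α : Fin n → F) (hα : α ≠ 0) :
    ((univ.filter fun ξ : Fin n → Fin d → F => ∑ v, α v • ξ v = 0).card : ℝ)
        * (Fintype.card F : ℝ) ^ d
      = (Fintype.card (Fin n → Fin d → F) : ℝ) := by sorry

/-- the number of vectors supported in `e` with exactly `m` zeros in `e` -/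
theorem supp_count {n m : ℕ} (e : Finset (Fin n)) :
    (univ.filter fun α : Fin n → F => (∀ v, v ∉ e → α v = 0) ∧
        (e.filter fun v => α v = 0).card = m).card
      = e.card.choose m * (Fintype.card F - 1) ^ (e.card - m) := by sorry

/-- `d + 1` vectors of dimension `d` are dependent -/
theorem exists_dep {n d : ℕ} (ξ : Fin n → Fin d → F) (S : Finset (Fin n)) (hS : S.card = d + 1) :
    ∃ α : Fin n → F, α ≠ 0 ∧ (∀ v, v ∉ S → α v = 0) ∧ ∑ v, α v • ξ v = 0 := by sorry

end Pool.Agent.H369R2.TD
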