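import Pool.Agent.H369R2.TD.TwoDefs

open Finset

namespace Pool.Agent.H369R2.TD

variable {n : ℕ}

/-! ### Task T4a (Low) -/

theorem low_subset (k : ℕ) (e : Finset (Fin n)) : low k e ⊆ e := by sorry

theorem card_low {k : ℕ} {e : Finset (Fin n)} (h : k ≤ e.card) : (low k e).card = k := by sorry

theorem low_erase_low {k : ℕ} {S : Finset (Fin n)} {t : Fin n} (ht : t ∈ low (k + 1) S) :
    low k (S.erase t) = (low (k + 1) S).erase t ∧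
      (S.erase t) \ low k (S.erase t) = S \ low (k + 1) S := by sorry

theorem low_erase_high {k : ℕ} {S : Finset (Fin n)} {t : Fin n} (ht : t ∈ S \ low k S) :
    low k (S.erase t) = low k S ∧ (S.erase t) \ low k (S.erase t) = (S \ low k S).erase t := by
  sorry

/-! ### Task T4b (Step): one step of the potential argument -/

theorem step_one {d₁ d₂ : ℕ} {a₁ Φ₁ : ℝ} (h1 : Rnd n d₁ a₁ Φ₁) {u v K : ℝ} (hu : 0 ≤ u)
    (hK : 0 ≤ K) {H B C : Finset (Finset (Fin n))} (hI : Inv d₁ d₂ H B C) :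
    ∃ H' B' : Finset (Finset (Fin n)), Inv d₁ d₂ H' B' C ∧
      (H'.card : ℝ) + u * N1 (d₁ + d₂ + 1) (d₁ + 1) B' + v * N2 (d₁ + d₂ + 1) d₁ C
        + K * MM (d₁ + d₂ + 2) (d₁ + 1) B' C ≤
      H.card + u * Φ₁ * N1 (d₁ + d₂ + 1) (d₁ + 1) B + (a₁ + v) * N2 (d₁ + d₂ + 1) d₁ C
        + K * Φ₁ * MM (d₁ + d₂ + 2) (d₁ + 1) B C := by sorry

theorem step_two {d₁ d₂ : ℕ} {a₂ Φ₂ : ℝ} (h2 : Rnd n d₂ a₂ Φ₂) {u v K : ℝ} (hv : 0 ≤ v)
    (hK : 0 ≤ K) {H B C : Finset (Finset (Fin n))} (hI : Inv d₁ d₂ H B C) :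
    ∃ H' C' : Finset (Finset (Fin n)), Inv d₁ d₂ H' B C' ∧
      (H'.card : ℝ) + u * N1 (d₁ + d₂ + 1) (d₁ + 1) B + v * N2 (d₁ + d₂ + 1) d₁ C'
        + K * MM (d₁ + d₂ + 2) (d₁ + 1) B C' ≤
      H.card + (a₂ + u) * N1 (d₁ + d₂ + 1) (d₁ + 1) B + v * Φ₂ * N2 (d₁ + d₂ + 1) d₁ C
        + K * Φ₂ * MM (d₁ + d₂ + 2) (d₁ + 1) B C := by sorry

/-! ### Task T4c (Rounds): iteration; proves `two_part` of Stubs.lean from `step_one`, `step_two` -/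

end Pool.Agent.H369R2.TD
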