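import Pool.Agent.H369R2.TD.Defs

open Finset

namespace Pool.Agent.H369R2.TD

variable {n : ℕ}

/-- the `k` smallest points of `e` -/
def low (k : ℕ) (e : Finset (Fin n)) : Finset (Fin n) :=
  e.filter fun x => (e.filter fun y => y < x).card < k

/-- number of `r`-sets whose `h` lowest points form a member of `B` -/
def N1 (r h : ℕ) (B : Finset (Finset (Fin n))) : ℕ :=
  (((univ : Finset (Fin n)).powersetCard r).filter fun e => low h e ∈ B).card

/-- number of `r`-sets such that the points above the `k` lowest ones form a member of `C` -/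
def N2 (r k : ℕ) (C : Finset (Finset (Fin n))) : ℕ :=
  (((univ : Finset (Fin n)).powersetCard r).filter fun e => e \ low k e ∈ C).card

/-- number of `s`-sets whose two parts belong to `B` and `C` -/
def MM (s h : ℕ) (B C : Finset (Finset (Fin n))) : ℕ :=
  (((univ : Finset (Fin n)).powersetCard s).filter fun S => low h S ∈ B ∧ S \ low h S ∈ C).card

/-- all `(d₁+d₂+2)`-sets whose parts are not both still uncovered contain a member of `H` -/
def Inv (d₁ d₂ : ℕ) (H B C : Finset (Finset (Fin n))) : Prop :=
  (∀ Z ∈ H, Z.card = d₁ + d₂ + 1) ∧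
  ∀ S : Finset (Fin n), S.card = d₁ + d₂ + 2 →
    ¬ (low (d₁ + 1) S ∈ B ∧ S \ low (d₁ + 1) S ∈ C) → ∃ Z ∈ H, Z ⊆ S

end Pool.Agent.H369R2.TD
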